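import Mathlib
import Pool.Agent.Lib.MP_f9aece_nt_n4.Stmts
import Pool.Agent.Lib.MP_f9aece_nt_nl.P
import Pool.Agent.Lib.MP_f9aece_nt_nl.Q
import Pool.Agent.Lib.LFA.Defs

/-!
Near-line law at every exponent: if the moment of order `2k` on the critical line has the expected
order, then the moments of order `2k` at distance `δ` from the line, `δ log T → ∞`, are asymptotic to
the expected main term.  Definitions and the statements of the rows, as propositions.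
Row `X` proves `theorem x : X`; rows using `X` take it as a hypothesis.
-/

set_option autoImplicit false

namespace Pool.Agent.Lib.DL

open MeasureTheory Set Filter Topology Complex
open Pool.Agent.Lib.MP_f9aece_nt_h97 (evs)
open Pool.Agent.Lib.NL (pt SS ML ak momL)
open Pool.Agent.Lib.N4 (al)

/-- the partial sum of length `e^u` at distance `δ` from the line -/
noncomputable def DS (δ u t : ℝ) : ℂ := ∑ n ∈ Finset.Icc 1 ⌊Real.exp u⌋₊, (n : ℂ) ^ (-(pt δ t))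

/-- mean over `[x, x + T]` -/
noncomputable def mean (x T : ℝ) (f : ℝ → ℝ) : ℝ := T⁻¹ * ∫ t in x..(x + T), f t

/-- the sharp order of the moment of order `2k` on the line -/
def HB (k : ℝ) : Prop := ∃ C T0 : ℝ, 1 ≤ C ∧ 3 ≤ T0 ∧ ∀ T : ℝ, T0 ≤ T →
  ∫ t in (0 : ℝ)..T, ‖riemannZeta (1 / 2 + I * t)‖ ^ (2 * k) ≤ C * T * Real.log T ^ (k ^ 2)

/-- P0: notation -/
def Ev : Prop := ∀ δ x t : ℝ, evs (pt δ t) (al (Real.exp x)) = DS δ x t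

/-- P1: moments of partial sums on the line, right order -/
def Part : Prop := ∀ k : ℝ, 0 < k → ∃ C : ℝ, 1 ≤ C ∧ ∀ L T x : ℝ, 1 ≤ L → 1 ≤ T →
  C * L ≤ Real.log T → mean x T (fun t => ‖DS 0 L t‖ ^ (2 * k)) ≤ C * L ^ (k ^ 2)

/-- P2: the part of the sum beyond `e^L` at distance `δ` is small -/
def Blk : Prop := ∀ k : ℝ, 1 ≤ k → ∃ C : ℝ, 1 ≤ C ∧ ∀ δ L L' T x : ℝ, 0 < δ → 1 ≤ L → L ≤ L' →
  1 ≤ T → C * L' ≤ Real.log T →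
  mean x T (fun t => ‖DS δ L' t - DS δ L t‖ ^ (2 * k)) ≤ C * (Real.exp (-(δ * L)) * δ ^ (-(k ^ 2)))

/-- P3: the law for the sum of length `e^(Λ/δ)` at distance `δ`, with some constant -/
def Law : Prop := ∀ k Λ : ℝ, 0 < k → 0 < Λ → ∃ c : ℝ, 0 < c ∧ ∀ ε : ℝ, 0 < ε → ∃ C : ℝ, 1 ≤ C ∧
  ∀ δ T x : ℝ, 0 < δ → δ ≤ 1 / C → 1 ≤ T → C ≤ δ * Real.log T →
  |mean x T (fun t => ‖DS δ (Λ / δ) t‖ ^ (2 * k)) - c * δ ^ (-(k ^ 2))| ≤ ε * δ ^ (-(k ^ 2))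

/-- the Euler product over the primes `≤ y` at distance `δ` -/
noncomputable def PE (δ : ℝ) (y : ℕ) (t : ℝ) : ℂ :=
  ∏ p ∈ (Finset.Icc 1 y).filter Nat.Prime, (1 - (p : ℂ) ^ (-(pt δ t)))⁻¹

/-- P4a: long sums are close to Euler products, in the mean over the whole line -/
def Far : Prop := ∀ (q : ℕ) (δ ε : ℝ), 1 ≤ q → 0 < δ → 0 < ε → ∃ y0 : ℕ, ∀ y : ℕ, y0 ≤ y →
  ∃ L0 : ℝ, ∀ L : ℝ, L0 ≤ L → ∃ T0 : ℝ, 1 ≤ T0 ∧ ∀ T : ℝ, T0 ≤ T →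
  mean 0 T (fun t => ‖DS δ L t - PE δ y t‖ ^ (2 * (q : ℝ))) ≤ ε

/-- P4b: mean value of powers of Euler products -/
def Near : Prop := ∀ (k δ ε : ℝ) (y : ℕ), 0 < k → 0 < δ → 0 < ε → ∃ T0 : ℝ, 1 ≤ T0 ∧ ∀ T : ℝ,
  T0 ≤ T → mean 0 T (fun t => ‖PE δ y t‖ ^ (2 * k)) ≤ SS k (1 + 2 * δ) + ε

/-- P4: mean value over the whole line, long sums, upper bound -/
def MeanUp : Prop := ∀ k δ ε : ℝ, 1 ≤ k → 0 < δ → 0 < ε → ∃ L0 : ℝ, ∀ L : ℝ, L0 ≤ L →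
  ∃ T0 : ℝ, ∀ T : ℝ, T0 ≤ T → mean 0 T (fun t => ‖DS δ L t‖ ^ (2 * k)) ≤ SS k (1 + 2 * δ) + ε

/-- P5: the sum of length `e^(Λ/δ)` has the right main term for large `Λ` -/
def MainS : Prop := ∀ k ε : ℝ, 1 ≤ k → 0 < ε → ∃ Λ0 : ℝ, 1 ≤ Λ0 ∧ ∀ Λ : ℝ, Λ0 ≤ Λ → ∃ C : ℝ,
  1 ≤ C ∧ ∀ δ T x : ℝ, 0 < δ → δ ≤ 1 / C → 1 ≤ T → C ≤ δ * Real.log T →
  mean x T (fun t => ‖DS δ (Λ / δ) t‖ ^ (2 * k)) ≤ (1 + ε) * SS k (1 + 2 * δ)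

/-- P6: the error of the kernel formula -/
def KErr : Prop := ∀ k : ℝ, 1 ≤ k → HB k → ∃ C T0 : ℝ, 1 ≤ C ∧ 3 ≤ T0 ∧ ∀ T w1 : ℝ, T0 ≤ T →
  1 ≤ w1 → ∫ t in (0 : ℝ)..(2 * T), (∫ v : ℝ, w1 / (1 + w1 * |v|) ^ 6
        * ‖riemannZeta (1 / 2 + I * (t + v : ℝ))‖) ^ (2 * k) ≤ C * T * Real.log T ^ (k ^ 2)

/-- the upper half of the near-line law over `[0, T]` -/
def UpK (k : ℝ) : Prop := ∀ ε : ℝ, 0 < ε → ∃ K0 : ℝ, 1 ≤ K0 ∧ ∀ δ T : ℝ,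
  0 < δ → δ ≤ 1 / K0 → 1 ≤ T → K0 ≤ δ * Real.log T → ML k δ T ≤ (1 + ε) * (T * SS k (1 + 2 * δ))

/-- P7: the sharp order on the line gives the upper half of the near-line law -/
def UpAll : Prop := ∀ k : ℝ, 1 ≤ k → HB k → UpK k

/-- P8: passage to the randomly shifted point -/
def ShiftK : Prop := ∀ k : ℝ, 1 ≤ k → UpK k → ∀ x ε : ℝ, 0 < ε → ∃ C : ℝ, 1 ≤ C ∧ ∀ δ T : ℝ,
  0 < δ → δ ≤ 1 / C → 1 ≤ T → C ≤ δ * Real.log T →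
  momL (2 * k) x δ T ≤ (1 + ε) * (ak k * (2 * δ) ^ (-(k ^ 2)))

/-- P9: the hypothesis in terms of the randomly shifted point -/
def HBof : Prop := ∀ x β : ℝ, 2 ≤ β → LFA.BoundedAt β x 0 → HB (β / 2)

end Pool.Agent.Lib.DL
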