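import Mathlib
import Pool.Agent.Lib.MP_f9aece_nt_dl.Stmts

/-!
Row P2 (`Blk`): the part of the partial sum beyond `e^L` at distance `δ` from the line is small.
Discrete Abel summation with the weights `n^(-δ) - (n+1)^(-δ)` and a weighted power mean inequality.
-/

set_option autoImplicit false

namespace Pool.Agent.Lib.DL

open MeasureTheory Set Filter Topology Complex
open Pool.Agent.Lib.NL (pt)

namespace BlkX

/-- partial sums on the line, indexed by integers -/
noncomputable def Sn (n : ℕ) (t : ℝ) : ℂ := ∑ m ∈ Finset.Icc 1 n, (m : ℂ) ^ (-(pt 0 t))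

lemma term_eq (δ t : ℝ) {n : ℕ} (hn : 1 ≤ n) :
    (n : ℂ) ^ (-(pt δ t)) = (((n : ℝ) ^ (-δ) : ℝ) : ℂ) * (n : ℂ) ^ (-(pt 0 t)) := by
  have hn0 : (n : ℂ) ≠ 0 := by exact_mod_cast (by omega : n ≠ 0)
  have e : -(pt δ t) = ((-δ : ℝ) : ℂ) + -(pt 0 t) := by
    unfold pt
    push_cast
    ring
  rw [e, Complex.cpow_add _ _ hn0, Complex.ofReal_cpow (by positivity)]
  norm_cast

lemma cont_term {m : ℕ} (hm : 1 ≤ m) (δ : ℝ) : Continuous fun t : ℝ => (m : ℂ) ^ (-(pt δ t)) := by
  have hm0 : (m : ℂ) ≠ 0 := by exact_mod_cast (by omega : m ≠ 0)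
  refine Continuous.const_cpow ?_ (Or.inl hm0)
  unfold pt
  fun_prop

lemma cont_Sn (n : ℕ) : Continuous (Sn n) := by
  unfold Sn
  exact continuous_finsetSum _ fun m hm => cont_term (Finset.mem_Icc.1 hm).1 0

lemma cont_DS (δ u : ℝ) : Continuous (DS δ u) := by
  unfold DS
  exact continuous_finsetSum _ fun m hm => cont_term (Finset.mem_Icc.1 hm).1 δ

lemma abel (a : ℕ → ℂ) (b : ℕ → ℂ) (N M : ℕ) (h : N ≤ M) :
    ∑ n ∈ Finset.Icc 1 M, a n * b n - ∑ n ∈ Finset.Icc 1 N, a n * b n
      = a (M + 1) * (∑ n ∈ Finset.Icc 1 M, b n) - a (N + 1) * (∑ n ∈ Finset.Icc 1 N, b n)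
        + ∑ n ∈ Finset.Ioc N M, (a n - a (n + 1)) * ∑ m ∈ Finset.Icc 1 n, b m := by
  induction M, h using Nat.le_induction with
  | base => simp
  | succ M h ih =>
    rw [Finset.sum_Icc_succ_top (by omega : 1 ≤ M + 1),
      Finset.sum_Icc_succ_top (by omega : 1 ≤ M + 1), Finset.sum_Ioc_succ_top h,
      Finset.sum_Icc_succ_top (by omega : 1 ≤ M + 1)]
    linear_combination ih

/-- weighted power mean inequality for means over an interval -/
lemma mean_wsum {ι : Type*} (s : Finset ι) (w c : ι → ℝ) (f : ι → ℝ → ℝ) {q C x T : ℝ}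
    (hq : 1 ≤ q) (hT : 0 < T) (hw : ∀ i ∈ s, 0 ≤ w i) (hc : ∀ i ∈ s, 0 < c i)
    (hf : ∀ i ∈ s, Continuous (f i)) (hf0 : ∀ i ∈ s, ∀ t, 0 ≤ f i t)
    (hm : ∀ i ∈ s, mean x T (fun t => f i t ^ q) ≤ C * c i ^ q) :
    mean x T (fun t => (∑ i ∈ s, w i * f i t) ^ q) ≤ C * (∑ i ∈ s, w i * c i) ^ q := by
  have hq0 : 0 < q := by linarith
  have hW0 : 0 ≤ ∑ i ∈ s, w i * c i :=
    Finset.sum_nonneg fun i hi => mul_nonneg (hw i hi) (hc i hi).le
  rcases eq_or_lt_of_le hW0 with hW | hW
  · have h0 : ∀ i ∈ s, w i = 0 := by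
      intro i hi
      have h1 := (Finset.sum_eq_zero_iff_of_nonneg
        (fun i hi => mul_nonneg (hw i hi) (hc i hi).le)).1 hW.symm i hi
      rcases mul_eq_zero.1 h1 with h2 | h2
      · exact h2
      · exact absurd h2 (hc i hi).ne'
    have e1 : ∀ t, (∑ i ∈ s, w i * f i t) = 0 := fun t =>
      Finset.sum_eq_zero fun i hi => by rw [h0 i hi, zero_mul]
    rw [← hW]
    simp only [e1, Real.zero_rpow hq0.ne', mul_zero]
    unfold mean
    simp
  · set W := ∑ i ∈ s, w i * c i with hWd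
    have hp : ∀ t, (∑ i ∈ s, w i * f i t) ^ q
        ≤ ∑ i ∈ s, (W ^ q * (w i * c i / W) * (c i ^ q)⁻¹) * f i t ^ q := by
      intro t
      have h1 := Real.rpow_arith_mean_le_arith_mean_rpow s (fun i => w i * c i / W)
        (fun i => f i t / c i)
        (fun i hi => div_nonneg (mul_nonneg (hw i hi) (hc i hi).le) hW.le)
        (by rw [← Finset.sum_div, ← hWd, div_self hW.ne'])
        (fun i hi => div_nonneg (hf0 i hi t) (hc i hi).le) hq
      have e2 : (∑ i ∈ s, w i * f i t) = W * ∑ i ∈ s, w i * c i / W * (f i t / c i) := by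
        rw [Finset.mul_sum]
        refine Finset.sum_congr rfl fun i hi => ?_
        have := (hc i hi).ne'
        have := hW.ne'
        field_simp
      have h3 : 0 ≤ ∑ i ∈ s, w i * c i / W * (f i t / c i) :=
        Finset.sum_nonneg fun i hi => mul_nonneg
          (div_nonneg (mul_nonneg (hw i hi) (hc i hi).le) hW.le)
          (div_nonneg (hf0 i hi t) (hc i hi).le)
      rw [e2, Real.mul_rpow hW.le h3]
      refine (mul_le_mul_of_nonneg_left h1 (Real.rpow_nonneg hW.le q)).trans (le_of_eq ?_)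
      rw [Finset.mul_sum]
      refine Finset.sum_congr rfl fun i hi => ?_
      rw [Real.div_rpow (hf0 i hi t) (hc i hi).le]
      ring
    have hcf : ∀ i ∈ s, Continuous fun t => f i t ^ q := fun i hi =>
      (hf i hi).rpow_const fun t => Or.inr hq0.le
    have hcL : Continuous fun t => (∑ i ∈ s, w i * f i t) ^ q :=
      (continuous_finsetSum _ fun i hi => continuous_const.mul (hf i hi)).rpow_const
        fun t => Or.inr hq0.le
    unfold mean at hm ⊢
    have hxT : x ≤ x + T := by linarith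
    calc T⁻¹ * ∫ t in x..(x + T), (∑ i ∈ s, w i * f i t) ^ q
        ≤ T⁻¹ * ∫ t in x..(x + T),
            ∑ i ∈ s, (W ^ q * (w i * c i / W) * (c i ^ q)⁻¹) * f i t ^ q := by
          refine mul_le_mul_of_nonneg_left ?_ (by positivity)
          refine intervalIntegral.integral_mono_on hxT (hcL.intervalIntegrable _ _) ?_
            fun t _ => hp t
          exact (continuous_finsetSum _ fun i hi =>
            continuous_const.mul (hcf i hi)).intervalIntegrable _ _
      _ = ∑ i ∈ s, (W ^ q * (w i * c i / W) * (c i ^ q)⁻¹) *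
            (T⁻¹ * ∫ t in x..(x + T), f i t ^ q) := by
          have e4 := intervalIntegral.integral_finsetSum (μ := volume) (a := x) (b := x + T)
            (s := s) (f := fun i t => (W ^ q * (w i * c i / W) * (c i ^ q)⁻¹) * f i t ^ q)
            fun i hi => (continuous_const.mul (hcf i hi)).intervalIntegrable _ _
          rw [e4, Finset.mul_sum]
          refine Finset.sum_congr rfl fun i hi => ?_
          rw [intervalIntegral.integral_const_mul]
          ring
      _ ≤ ∑ i ∈ s, (W ^ q * (w i * c i / W) * (c i ^ q)⁻¹) * (C * c i ^ q) := by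
          refine Finset.sum_le_sum fun i hi => mul_le_mul_of_nonneg_left (hm i hi) ?_
          have := hw i hi
          have := hc i hi
          positivity
      _ = C * W ^ q := by
          have e3 : ∀ i ∈ s, (W ^ q * (w i * c i / W) * (c i ^ q)⁻¹) * (C * c i ^ q)
              = (C * W ^ q / W) * (w i * c i) := by
            intro i hi
            have h4 : c i ^ q ≠ 0 := (Real.rpow_pos_of_pos (hc i hi) q).ne'
            field_simp
          rw [Finset.sum_congr rfl e3, ← Finset.mul_sum, ← hWd]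
          field_simp

lemma log_rpow_le {k δ y : ℝ} (hk : 1 ≤ k) (hδ : 0 < δ) (hy : 1 ≤ y) :
    Real.log y ^ (k / 2) ≤ k ^ (k / 2) * δ ^ (-(k / 2)) * y ^ (δ / 2) := by
  have hk0 : 0 < k := by linarith
  have hy0 : 0 < y := by linarith
  have hl : 0 ≤ Real.log y := Real.log_nonneg hy
  have h1 : Real.log y ≤ k * δ⁻¹ * Real.exp (δ * Real.log y / k) := by
    have h2 : δ * Real.log y / k ≤ Real.exp (δ * Real.log y / k) := by
      have := Real.add_one_le_exp (δ * Real.log y / k)
      linarith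
    have h3 : k * δ⁻¹ * (δ * Real.log y / k) ≤ k * δ⁻¹ * Real.exp (δ * Real.log y / k) :=
      mul_le_mul_of_nonneg_left h2 (by positivity)
    have e : k * δ⁻¹ * (δ * Real.log y / k) = Real.log y := by field_simp
    linarith
  have h4 := Real.rpow_le_rpow hl h1 (by positivity : 0 ≤ k / 2)
  refine h4.trans (le_of_eq ?_)
  rw [Real.mul_rpow (by positivity) (Real.exp_pos _).le, Real.mul_rpow hk0.le (by positivity),
    Real.inv_rpow hδ.le, ← Real.rpow_neg hδ.le, ← Real.exp_mul, Real.rpow_def_of_pos hy0]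
  congr 2
  field_simp

lemma diff_le {δ : ℝ} (hδ : 0 < δ) {n : ℕ} (hn : 1 ≤ n) :
    (((n : ℝ)) ^ (-δ) - ((n + 1 : ℕ) : ℝ) ^ (-δ)) * (n : ℝ) ^ (δ / 2)
      ≤ 2 * ((n : ℝ) ^ (-(δ / 2)) - ((n + 1 : ℕ) : ℝ) ^ (-(δ / 2))) := by
  have hn0 : (0 : ℝ) < n := by exact_mod_cast hn
  have hn1 : (0 : ℝ) < ((n + 1 : ℕ) : ℝ) := by positivity
  set a := (n : ℝ) ^ (-(δ / 2)) with ha
  set b := ((n + 1 : ℕ) : ℝ) ^ (-(δ / 2)) with hb
  have ha0 : 0 < a := Real.rpow_pos_of_pos hn0 _
  have hb0 : 0 < b := Real.rpow_pos_of_pos hn1 _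
  have hba : b ≤ a := Real.rpow_le_rpow_of_nonpos hn0 (by push_cast; linarith) (by linarith)
  have e1 : (n : ℝ) ^ (-δ) = a * a := by
    rw [ha, ← Real.rpow_add hn0]; congr 1; ring
  have e2 : ((n + 1 : ℕ) : ℝ) ^ (-δ) = b * b := by
    rw [hb, ← Real.rpow_add hn1]; congr 1; ring
  have e3 : (n : ℝ) ^ (δ / 2) * a = 1 := by
    rw [ha, ← Real.rpow_add hn0]; simp
  have e4 : 0 < (n : ℝ) ^ (δ / 2) := Real.rpow_pos_of_pos hn0 _
  rw [e1, e2]
  have h5 : (n : ℝ) ^ (δ / 2) * b ≤ 1 := by
    rw [← e3]; exact mul_le_mul_of_nonneg_left hba e4.le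
  have h6 : (a * a - b * b) * (n : ℝ) ^ (δ / 2)
      = (a - b) * ((n : ℝ) ^ (δ / 2) * a + (n : ℝ) ^ (δ / 2) * b) := by ring
  rw [h6, e3]
  nlinarith

end BlkX

open BlkX in
theorem blk (h : Part) : Blk := by
  intro k hk
  obtain ⟨C, hC, hP⟩ := h k (by linarith)
  have hk0 : 0 < k := by linarith
  set K := k ^ (k / 2) with hK
  have hK1 : 1 ≤ K := Real.one_le_rpow hk (by positivity)
  have h3K : 1 ≤ 3 * K := by linarith
  have h3Kp : 1 ≤ (3 * K) ^ (2 * k) := Real.one_le_rpow h3K (by positivity)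
  refine ⟨C * (3 * K) ^ (2 * k), one_le_mul_of_one_le_of_one_le hC h3Kp, ?_⟩
  intro δ L L' T x hδ hL hLL hT hCL
  have hL0 : 0 < L := by linarith
  have hL'0 : 0 < L' := by linarith
  have hT0 : 0 < T := by linarith
  set N := ⌊Real.exp L⌋₊ with hN
  set M := ⌊Real.exp L'⌋₊ with hM
  have hNM : N ≤ M := Nat.floor_le_floor (Real.exp_le_exp.2 hLL)
  have hCL' : C * L' ≤ Real.log T := by
    refine le_trans ?_ hCL
    have : C * 1 ≤ C * (3 * K) ^ (2 * k) := mul_le_mul_of_nonneg_left h3Kp (by linarith)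
    nlinarith
  have hRHS : 0 ≤ C * (3 * K) ^ (2 * k) * (Real.exp (-(δ * L)) * δ ^ (-(k ^ 2))) := by positivity
  rcases eq_or_lt_of_le hNM with hE | hlt
  · have e0 : ∀ t, DS δ L' t - DS δ L t = 0 := by
      intro t
      unfold DS
      rw [← hN, ← hM, hE, sub_self]
    simp only [e0, norm_zero]
    rw [Real.zero_rpow (by positivity)]
    unfold mean
    simpa using hRHS
  -- the main case
  have hN2 : 2 ≤ N := by
    have h1 : (2 : ℝ) ≤ Real.exp L := by
      have := Real.add_one_le_exp L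
      linarith
    exact Nat.le_floor (by exact_mod_cast h1)
  have hexpN : Real.exp L < ((N + 1 : ℕ) : ℝ) := by
    have := Nat.lt_floor_add_one (Real.exp L)
    push_cast
    exact this
  have hLN : L < Real.log ((N + 1 : ℕ) : ℝ) := by
    rw [Real.lt_log_iff_exp_lt (by positivity)]
    exact hexpN
  have hMexp : (M : ℝ) ≤ Real.exp L' := Nat.floor_le (Real.exp_pos _).le
  -- weights
  set a : ℕ → ℝ := fun n => (n : ℝ) ^ (-δ) with ha
  set b : ℕ → ℝ := fun n => (n : ℝ) ^ (-(δ / 2)) with hb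
  have ha0 : ∀ n, 1 ≤ n → 0 < a n := fun n hn =>
    Real.rpow_pos_of_pos (by exact_mod_cast hn) _
  have hamono : ∀ n, 1 ≤ n → a (n + 1) ≤ a n := fun n hn =>
    Real.rpow_le_rpow_of_nonpos (by exact_mod_cast hn) (by push_cast; linarith) (by linarith)
  set w : ℕ → ℝ := fun n =>
    (if n = N then a (N + 1) else a n - a (n + 1)) + (if n = M then a (M + 1) else 0) with hwd
  set c : ℕ → ℝ := fun n => if n = N then L ^ (k / 2) else Real.log n ^ (k / 2) with hcd
  have hw0 : ∀ n ∈ Finset.Icc N M, 0 ≤ w n := by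
    intro n hn
    have hn1 := (Finset.mem_Icc.1 hn).1
    simp only [hwd]
    refine add_nonneg ?_ ?_
    · split_ifs
      · exact (ha0 _ (by omega)).le
      · exact sub_nonneg.2 (hamono n (by omega))
    · split_ifs
      · exact (ha0 _ (by omega)).le
      · exact le_rfl
  have hlog : ∀ n ∈ Finset.Icc N M, n ≠ N → 1 ≤ Real.log n := by
    intro n hn hne
    have hn1 := (Finset.mem_Icc.1 hn).1
    have h3 : 3 ≤ n := by omega
    have h4 : (3 : ℝ) ≤ n := by exact_mod_cast h3
    rw [Real.le_log_iff_exp_le (by linarith)]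
    have := Real.exp_one_lt_d9
    linarith
  have hc0 : ∀ n ∈ Finset.Icc N M, 0 < c n := by
    intro n hn
    simp only [hcd]
    split_ifs with hc1
    · positivity
    · have := hlog n hn hc1
      exact Real.rpow_pos_of_pos (by linarith) _
  have hmom : ∀ n ∈ Finset.Icc N M,
      mean x T (fun t => ‖Sn n t‖ ^ (2 * k)) ≤ C * c n ^ (2 * k) := by
    intro n hn
    have e5 : ∀ y : ℝ, 0 ≤ y → (y ^ (k / 2)) ^ (2 * k) = y ^ (k ^ 2) := by
      intro y hy
      rw [← Real.rpow_mul hy]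
      congr 1
      ring
    by_cases hc1 : n = N
    · have h6 := hP L T x hL hT
        ((mul_le_mul_of_nonneg_left hLL (by linarith)).trans hCL')
      have e6 : ∀ t, DS 0 L t = Sn n t := by
        intro t
        unfold DS Sn
        rw [← hN, hc1]
      simp only [e6] at h6
      simp only [hcd, if_pos hc1]
      rw [e5 L hL0.le]
      exact h6
    · have h7 := hlog n hn hc1
      have hn2 := (Finset.mem_Icc.1 hn).2
      have hn0 : (0 : ℝ) < n := by
        have := (Finset.mem_Icc.1 hn).1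
        exact_mod_cast (by omega : 0 < n)
      have h8 : Real.log n ≤ L' := by
        rw [Real.log_le_iff_le_exp hn0]
        exact le_trans (by exact_mod_cast hn2) hMexp
      have h6 := hP (Real.log n) T x h7 hT
        ((mul_le_mul_of_nonneg_left h8 (by linarith)).trans hCL')
      have e6 : ∀ t, DS 0 (Real.log n) t = Sn n t := by
        intro t
        unfold DS Sn
        rw [Real.exp_log hn0, Nat.floor_natCast]
      simp only [e6] at h6
      simp only [hcd, if_neg hc1]
      rw [e5 _ (by linarith)]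
      exact h6
  have hsumw : ∀ s : ℕ → ℝ, ∑ n ∈ Finset.Icc N M, w n * s n
      = a (M + 1) * s M + a (N + 1) * s N + ∑ n ∈ Finset.Ioc N M, (a n - a (n + 1)) * s n := by
    intro s
    simp only [hwd, add_mul, Finset.sum_add_distrib]
    have e7 : ∑ n ∈ Finset.Icc N M, (if n = M then a (M + 1) else 0) * s n = a (M + 1) * s M := by
      simp only [ite_mul, zero_mul]
      rw [Finset.sum_ite_eq' (Finset.Icc N M) M (fun n => a (M + 1) * s n)]
      rw [if_pos (Finset.mem_Icc.2 ⟨hNM, le_rfl⟩)]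
    have e8 : ∑ n ∈ Finset.Icc N M, (if n = N then a (N + 1) else a n - a (n + 1)) * s n
        = a (N + 1) * s N + ∑ n ∈ Finset.Ioc N M, (a n - a (n + 1)) * s n := by
      rw [← Finset.Ioc_insert_left hNM, Finset.sum_insert Finset.left_notMem_Ioc, if_pos rfl]
      congr 1
      refine Finset.sum_congr rfl fun n hn => ?_
      rw [if_neg (by have := (Finset.mem_Ioc.1 hn).1; omega)]
    rw [e7, e8]
    ring
  have hpt : ∀ t, ‖DS δ L' t - DS δ L t‖ ≤ ∑ n ∈ Finset.Icc N M, w n * ‖Sn n t‖ := by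
    intro t
    rw [hsumw]
    have e9 : DS δ L' t - DS δ L t
        = (a (M + 1) : ℂ) * Sn M t - (a (N + 1) : ℂ) * Sn N t
          + ∑ n ∈ Finset.Ioc N M, ((a n : ℂ) - (a (n + 1) : ℂ)) * Sn n t := by
      have h10 := abel (fun n => ((a n : ℝ) : ℂ)) (fun n => (n : ℂ) ^ (-(pt 0 t))) N M hNM
      unfold DS Sn
      rw [← hN, ← hM]
      rw [← h10]
      congr 1
      · exact Finset.sum_congr rfl fun n hn => term_eq δ t (Finset.mem_Icc.1 hn).1
      · exact Finset.sum_congr rfl fun n hn => term_eq δ t (Finset.mem_Icc.1 hn).1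
    rw [e9]
    refine (norm_add_le _ _).trans (add_le_add ((norm_sub_le _ _).trans (add_le_add ?_ ?_)) ?_)
    · rw [norm_mul, Complex.norm_real, Real.norm_of_nonneg (ha0 _ (by omega)).le]
    · rw [norm_mul, Complex.norm_real, Real.norm_of_nonneg (ha0 _ (by omega)).le]
    · refine (norm_sum_le _ _).trans (Finset.sum_le_sum fun n hn => ?_)
      have hn1 := (Finset.mem_Ioc.1 hn).1
      rw [norm_mul, ← Complex.ofReal_sub, Complex.norm_real,
        Real.norm_of_nonneg (sub_nonneg.2 (hamono n (by omega)))]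
  have hW : ∑ n ∈ Finset.Icc N M, w n * c n
      ≤ 3 * K * δ ^ (-(k / 2)) * Real.exp (-(δ * L) / 2) := by
    rw [hsumw]
    have hKδ : 0 < K * δ ^ (-(k / 2)) := by positivity
    have hcM : c M = Real.log M ^ (k / 2) := by
      simp only [hcd]
      rw [if_neg (by omega)]
    have hcN : c N = L ^ (k / 2) := by simp only [hcd, if_true]
    have hb0 : ∀ n, 1 ≤ n → 0 < b n := fun n hn => Real.rpow_pos_of_pos (by exact_mod_cast hn) _
    have habb : ∀ n, 1 ≤ n → a n = b n * b n := by
      intro n hn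
      simp only [ha, hb]
      rw [← Real.rpow_add (by exact_mod_cast hn)]
      congr 1
      ring
    have hbinv : ∀ n : ℕ, 1 ≤ n → b n * (n : ℝ) ^ (δ / 2) = 1 := by
      intro n hn
      simp only [hb]
      rw [← Real.rpow_add (by exact_mod_cast hn)]
      simp
    have hlogle : ∀ n : ℕ, 1 ≤ n →
        Real.log (n : ℝ) ^ (k / 2) ≤ K * δ ^ (-(k / 2)) * (n : ℝ) ^ (δ / 2) :=
      fun n hn => log_rpow_le hk hδ (by exact_mod_cast hn)
    -- the three parts
    have p1 : a (M + 1) * c M ≤ K * δ ^ (-(k / 2)) * b (M + 1) := by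
      rw [hcM, habb _ (by omega)]
      have q1 := hlogle M (by omega)
      have q2 : (M : ℝ) ^ (δ / 2) ≤ ((M + 1 : ℕ) : ℝ) ^ (δ / 2) :=
        Real.rpow_le_rpow (by positivity) (by push_cast; linarith) (by positivity)
      have q3 := hbinv (M + 1) (by omega)
      have q4 := hb0 (M + 1) (by omega)
      calc b (M + 1) * b (M + 1) * Real.log M ^ (k / 2)
          ≤ b (M + 1) * b (M + 1) * (K * δ ^ (-(k / 2)) * ((M + 1 : ℕ) : ℝ) ^ (δ / 2)) :=
            mul_le_mul_of_nonneg_left (q1.trans (mul_le_mul_of_nonneg_left q2 hKδ.le))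
              (by positivity)
        _ = K * δ ^ (-(k / 2)) * b (M + 1) * (b (M + 1) * ((M + 1 : ℕ) : ℝ) ^ (δ / 2)) := by ring
        _ = K * δ ^ (-(k / 2)) * b (M + 1) := by rw [q3, mul_one]
    have p2 : a (N + 1) * c N ≤ K * δ ^ (-(k / 2)) * b (N + 1) := by
      rw [hcN, habb _ (by omega)]
      have q1 := hlogle (N + 1) (by omega)
      have q2 : L ^ (k / 2) ≤ Real.log ((N + 1 : ℕ) : ℝ) ^ (k / 2) :=
        Real.rpow_le_rpow hL0.le hLN.le (by positivity)
      have q3 := hbinv (N + 1) (by omega)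
      have q4 := hb0 (N + 1) (by omega)
      calc b (N + 1) * b (N + 1) * L ^ (k / 2)
          ≤ b (N + 1) * b (N + 1) * (K * δ ^ (-(k / 2)) * ((N + 1 : ℕ) : ℝ) ^ (δ / 2)) :=
            mul_le_mul_of_nonneg_left (q2.trans q1) (by positivity)
        _ = K * δ ^ (-(k / 2)) * b (N + 1) * (b (N + 1) * ((N + 1 : ℕ) : ℝ) ^ (δ / 2)) := by ring
        _ = K * δ ^ (-(k / 2)) * b (N + 1) := by rw [q3, mul_one]
    have p3 : ∑ n ∈ Finset.Ioc N M, (a n - a (n + 1)) * c n
        ≤ K * δ ^ (-(k / 2)) * (2 * (b (N + 1) - b (M + 1))) := by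
      have q5 : ∀ n ∈ Finset.Ioc N M, (a n - a (n + 1)) * c n
          ≤ K * δ ^ (-(k / 2)) * (2 * (b n - b (n + 1))) := by
        intro n hn
        have hn1 := (Finset.mem_Ioc.1 hn).1
        have hcn : c n = Real.log n ^ (k / 2) := by
          simp only [hcd]
          rw [if_neg (by omega)]
        rw [hcn]
        calc (a n - a (n + 1)) * Real.log n ^ (k / 2)
            ≤ (a n - a (n + 1)) * (K * δ ^ (-(k / 2)) * (n : ℝ) ^ (δ / 2)) :=
              mul_le_mul_of_nonneg_left (hlogle n (by omega))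
                (sub_nonneg.2 (hamono n (by omega)))
          _ = K * δ ^ (-(k / 2)) * ((a n - a (n + 1)) * (n : ℝ) ^ (δ / 2)) := by ring
          _ ≤ K * δ ^ (-(k / 2)) * (2 * (b n - b (n + 1))) :=
              mul_le_mul_of_nonneg_left (diff_le hδ (by omega)) hKδ.le
      refine (Finset.sum_le_sum q5).trans (le_of_eq ?_)
      rw [← Finset.mul_sum, ← Finset.mul_sum]
      congr 2
      have tel : ∀ M' : ℕ, N ≤ M' → ∑ n ∈ Finset.Ioc N M', (b n - b (n + 1))
          = b (N + 1) - b (M' + 1) := by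
        intro M' hM'
        induction M', hM' using Nat.le_induction with
        | base => simp
        | succ m hm ih => rw [Finset.sum_Ioc_succ_top hm, ih]; ring
      exact tel M hNM
    have hbM := hb0 (M + 1) (by omega)
    have hbN : b (N + 1) ≤ Real.exp (-(δ * L) / 2) := by
      simp only [hb]
      have q6 : ((N + 1 : ℕ) : ℝ) ^ (-(δ / 2)) ≤ (Real.exp L) ^ (-(δ / 2)) :=
        Real.rpow_le_rpow_of_nonpos (Real.exp_pos _) hexpN.le (by linarith)
      refine q6.trans (le_of_eq ?_)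
      rw [← Real.exp_mul]
      congr 1
      ring
    calc a (M + 1) * c M + a (N + 1) * c N + ∑ n ∈ Finset.Ioc N M, (a n - a (n + 1)) * c n
        ≤ K * δ ^ (-(k / 2)) * b (M + 1) + K * δ ^ (-(k / 2)) * b (N + 1)
          + K * δ ^ (-(k / 2)) * (2 * (b (N + 1) - b (M + 1))) := by linarith
      _ = K * δ ^ (-(k / 2)) * (3 * b (N + 1) - b (M + 1)) := by ring
      _ ≤ K * δ ^ (-(k / 2)) * (3 * Real.exp (-(δ * L) / 2)) :=
          mul_le_mul_of_nonneg_left (by linarith) hKδ.le
      _ = 3 * K * δ ^ (-(k / 2)) * Real.exp (-(δ * L) / 2) := by ring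
  have hmain := mean_wsum (Finset.Icc N M) w c (fun n t => ‖Sn n t‖) (q := 2 * k) (C := C)
    (x := x) (T := T) (by linarith) hT0 hw0 hc0 (fun n _ => (cont_Sn n).norm)
    (fun n _ t => norm_nonneg _) hmom
  have hWnn : 0 ≤ ∑ n ∈ Finset.Icc N M, w n * c n :=
    Finset.sum_nonneg fun n hn => mul_nonneg (hw0 n hn) (hc0 n hn).le
  have hfin : C * (∑ n ∈ Finset.Icc N M, w n * c n) ^ (2 * k)
      ≤ C * (3 * K) ^ (2 * k) * (Real.exp (-(δ * L)) * δ ^ (-(k ^ 2))) := by
    have h11 := Real.rpow_le_rpow hWnn hW (by positivity : (0 : ℝ) ≤ 2 * k)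
    have e12 : (3 * K * δ ^ (-(k / 2)) * Real.exp (-(δ * L) / 2)) ^ (2 * k)
        = (3 * K) ^ (2 * k) * δ ^ (-(k ^ 2)) * Real.exp (-(δ * L) * k) := by
      rw [Real.mul_rpow (by positivity) (Real.exp_pos _).le,
        Real.mul_rpow (by positivity) (by positivity), ← Real.rpow_mul hδ.le, ← Real.exp_mul]
      congr 2
      · congr 1
        ring
      · ring
    rw [e12] at h11
    have h13 : Real.exp (-(δ * L) * k) ≤ Real.exp (-(δ * L)) := by
      refine Real.exp_le_exp.2 ?_
      have : 0 < δ * L := by positivity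
      nlinarith
    calc C * (∑ n ∈ Finset.Icc N M, w n * c n) ^ (2 * k)
        ≤ C * ((3 * K) ^ (2 * k) * δ ^ (-(k ^ 2)) * Real.exp (-(δ * L) * k)) :=
          mul_le_mul_of_nonneg_left h11 (by linarith)
      _ ≤ C * ((3 * K) ^ (2 * k) * δ ^ (-(k ^ 2)) * Real.exp (-(δ * L))) := by
          refine mul_le_mul_of_nonneg_left ?_ (by linarith)
          exact mul_le_mul_of_nonneg_left h13 (by positivity)
      _ = C * (3 * K) ^ (2 * k) * (Real.exp (-(δ * L)) * δ ^ (-(k ^ 2))) := by ring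
  refine le_trans ?_ (hmain.trans hfin)
  unfold mean
  refine mul_le_mul_of_nonneg_left ?_ (by positivity)
  refine intervalIntegral.integral_mono_on (by linarith) ?_ ?_ fun t _ => ?_
  · exact ((((cont_DS δ L').sub (cont_DS δ L)).norm).rpow_const
      fun t => Or.inr (by positivity)).intervalIntegrable _ _
  · exact ((continuous_finsetSum _ fun n _ =>
      continuous_const.mul (cont_Sn n).norm).rpow_const
      fun t => Or.inr (by positivity)).intervalIntegrable _ _
  · exact Real.rpow_le_rpow (norm_nonneg _) (hpt t) (by positivity)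

end Pool.Agent.Lib.DL
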