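import Mathlib
import Pool.Agent.Lib.MP_f9aece_nt_dl.Stmts
import Pool.Agent.Lib.MP_f9aece_nt_n4.D1

/-!
Row Ev: the value of the polynomial of all integers up to `e^x`.
-/

set_option autoImplicit false

namespace Pool.Agent.Lib.DL

open Pool.Agent.Lib.NL (pt)

theorem ev : Ev := by
  intro δ x t
  rw [Pool.Agent.Lib.N4.evs_al_exp]
  rfl

end Pool.Agent.Lib.DL
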