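import Mathlib
import Pool.Agent.Lib.MP_f9aece_nt_dl.Stmts
import Pool.Agent.Lib.MP_f9aece_nt_ms.Q0Unif
import Pool.Agent.Lib.MP_f9aece_nt_j4.MlBase
import Pool.Agent.Lib.MP_f9aece_nt_h4.NIntA
import Pool.Agent.Lib.MP_f9aece_nt_h5.EvS
import Pool.Agent.Lib.MP_e5c236.DivisorBound

/-!
Near-line law at every exponent, row P4a: long partial sums are close to Euler products in the
mean over the whole line.
-/

set_option autoImplicit false

namespace Pool.Agent.Lib.DL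

open MeasureTheory Set Filter Topology Complex
open scoped ComplexConjugate
open Pool.Agent.Lib.MP_f9aece_nt (DP pair BK K1 ev BK_K1_eq pair_def continuous_ev)
open Pool.Agent.Lib.MP_f9aece_nt_h5 (tw coeff_tw ev_tw evS evS_single evS_apply)
open Pool.Agent.Lib.J4 (En)
open Pool.Agent.Lib.J4.H29 (coeff_mul_eq)
open Pool.Agent.Lib.J4.NInt (coeff_mul_ne)
open Pool.Agent.Lib.MS (un unifMVP)
open Pool.Agent.Lib.NL (pt)

/-! ### coefficients of powers -/

lemma far_coeff {f : DP} (hf : ∀ n, |f.coeff n| ≤ 1) (q : ℕ) :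
    ∀ n : ℕ, n ≠ 0 → |(f ^ q).coeff n| ≤ (n.divisors.card : ℝ) ^ q := by
  induction q with
  | zero =>
    intro n hn
    rw [pow_zero, pow_zero, MonoidAlgebra.one_def, MonoidAlgebra.coeff_single, Finsupp.single_apply]
    split_ifs <;> simp
  | succ q ih =>
    intro n hn
    rw [pow_succ, coeff_mul_eq _ _ hn]
    refine (Finset.abs_sum_le_sum_abs _ _).trans ?_
    have h1 : ∀ a ∈ n.divisors, |(f ^ q).coeff a * f.coeff (n / a)| ≤ (n.divisors.card : ℝ) ^ q := by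
      intro a ha
      have ha' := Nat.mem_divisors.mp ha
      have ha0 : a ≠ 0 := fun h => hn (by rw [h] at ha'; exact zero_dvd_iff.mp ha'.1)
      rw [abs_mul]
      have h2 := ih a ha0
      have h3 : (a.divisors.card : ℝ) ≤ n.divisors.card := by
        exact_mod_cast Finset.card_le_card (Nat.divisors_subset_of_dvd hn ha'.1)
      calc |(f ^ q).coeff a| * |f.coeff (n / a)| ≤ (a.divisors.card : ℝ) ^ q * 1 :=
            mul_le_mul h2 (hf _) (abs_nonneg _) (by positivity)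
        _ ≤ (n.divisors.card : ℝ) ^ q := by
            rw [mul_one]; exact pow_le_pow_left₀ (by positivity) h3 q
    refine (Finset.sum_le_sum h1).trans ?_
    rw [Finset.sum_const, nsmul_eq_mul, pow_succ]
    exact le_of_eq (mul_comm _ _)

lemma far_supp {f : DP} {y : ℕ} (hf : ∀ n, f.coeff n ≠ 0 → y < n) {q : ℕ} (hq : 1 ≤ q) :
    ∀ n : ℕ, (f ^ q).coeff n ≠ 0 → y < n := by
  induction q, hq using Nat.le_induction with
  | base => rw [pow_one]; exact hf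
  | succ q hq ih =>
    intro n hn
    rw [pow_succ] at hn
    obtain ⟨a, b, ha, hb, hab⟩ := coeff_mul_ne hn
    have h1 := ih a ha
    have h2 := hf b hb
    rw [← hab]
    exact lt_of_lt_of_le h1 (Nat.le_mul_of_pos_right a (by omega))

lemma far_len {f : DP} {X : ℕ} (hf : ∀ n, f.coeff n ≠ 0 → 1 ≤ n ∧ n ≤ X) (q : ℕ) :
    ∀ n : ℕ, (f ^ q).coeff n ≠ 0 → 1 ≤ n ∧ n ≤ X ^ q := by
  induction q with
  | zero =>
    intro n hn
    rw [pow_zero, MonoidAlgebra.one_def, MonoidAlgebra.coeff_single, Finsupp.single_apply] at hn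
    split_ifs at hn with h
    · rw [← h, pow_zero]; exact ⟨le_rfl, le_rfl⟩
    · exact absurd rfl hn
  | succ q ih =>
    intro n hn
    rw [pow_succ] at hn
    obtain ⟨a, b, ha, hb, hab⟩ := coeff_mul_ne hn
    have h1 := ih a ha
    have h2 := hf b hb
    rw [← hab, pow_succ]
    exact ⟨Nat.mul_pos h1.1 h2.1, Nat.mul_le_mul h1.2 h2.2⟩

/-! ### the tail -/

lemma far_div (q : ℕ) {δ : ℝ} (hδ : 0 < δ) :
    ∃ C : ℝ, 0 < C ∧ ∀ n : ℕ, n ≠ 0 → ((n.divisors.card : ℝ) ^ q) ^ 2 ≤ C * (n : ℝ) ^ δ := by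
  obtain ⟨K, hK⟩ := exists_nat_gt (2 * q / δ)
  obtain ⟨C, hC, h⟩ := Pool.Agent.Lib.MP_e5c236.divisor_bound (K + 1)
  refine ⟨(C : ℝ) ^ δ, Real.rpow_pos_of_pos (by exact_mod_cast hC) _, fun n hn => ?_⟩
  have h1 : ((n.divisors.card : ℝ)) ^ (K + 1) ≤ C * n := by exact_mod_cast h n hn
  have hn1 : (1 : ℝ) ≤ n := by exact_mod_cast Nat.one_le_iff_ne_zero.mpr hn
  have hC1 : (1 : ℝ) ≤ C := by exact_mod_cast hC
  have hCn : (1 : ℝ) ≤ C * n := by nlinarith
  have hd0 : (0 : ℝ) ≤ n.divisors.card := by positivity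
  have hK1 : (0 : ℝ) < ((K + 1 : ℕ) : ℝ) := by positivity
  have h2 : ((n.divisors.card : ℝ) ^ q) ^ 2
      = (((n.divisors.card : ℝ)) ^ (K + 1)) ^ (2 * q / ((K + 1 : ℕ) : ℝ)) := by
    rw [← pow_mul, ← Real.rpow_natCast, ← Real.rpow_natCast, ← Real.rpow_mul hd0]
    congr 1
    push_cast
    field_simp
  rw [h2, ← Real.mul_rpow (by positivity) (by positivity)]
  calc (((n.divisors.card : ℝ)) ^ (K + 1)) ^ (2 * q / ((K + 1 : ℕ) : ℝ))
      ≤ (C * n) ^ (2 * q / ((K + 1 : ℕ) : ℝ)) :=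
        Real.rpow_le_rpow (by positivity) h1 (by positivity)
    _ ≤ (C * n : ℝ) ^ δ := by
        refine Real.rpow_le_rpow_of_exponent_le hCn ?_
        rw [div_lt_iff₀ hδ] at hK
        rw [div_le_iff₀ hK1]
        push_cast
        nlinarith

lemma far_tail (q : ℕ) {δ ε : ℝ} (hδ : 0 < δ) (hε : 0 < ε) : ∃ y0 : ℕ, ∀ S : Finset ℕ,
    (∀ n ∈ S, y0 < n) →
      ∑ n ∈ S, ((n.divisors.card : ℝ) ^ q) ^ 2 * (n : ℝ) ^ (-(1 + 2 * δ)) ≤ ε := by
  obtain ⟨C, hC, h⟩ := far_div q hδ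
  have hs : Summable fun n : ℕ => C * (n : ℝ) ^ (-(1 + δ)) :=
    (Real.summable_nat_rpow.mpr (by linarith)).mul_left C
  obtain ⟨s, hs⟩ := summable_iff_vanishing_norm.mp hs ε hε
  refine ⟨s.sup id, fun S hS => ?_⟩
  have hd : Disjoint S s := by
    rw [Finset.disjoint_left]
    intro n hn hn'
    have h1 := hS n hn
    have h2 : n ≤ s.sup id := Finset.le_sup (f := id) hn'
    omega
  have h3 := hs S hd
  refine le_trans ?_ ((le_abs_self _).trans h3.le)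
  refine Finset.sum_le_sum fun n hn => ?_
  have hn0 : n ≠ 0 := by have := hS n hn; omega
  have hnp : (0 : ℝ) < n := by exact_mod_cast Nat.pos_of_ne_zero hn0
  calc ((n.divisors.card : ℝ) ^ q) ^ 2 * (n : ℝ) ^ (-(1 + 2 * δ))
      ≤ C * (n : ℝ) ^ δ * (n : ℝ) ^ (-(1 + 2 * δ)) :=
        mul_le_mul_of_nonneg_right (h n hn0) (by positivity)
    _ = C * (n : ℝ) ^ (-(1 + δ)) := by
        rw [mul_assoc, ← Real.rpow_add hnp]
        congr 2
        ring

/-! ### the energy and the mean square -/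

lemma far_energy {q : ℕ} (hq : 1 ≤ q) {δ ε : ℝ} (hδ : 0 < δ) (hε : 0 < ε) : ∃ y0 : ℕ, ∀ f : DP,
    (∀ n, |f.coeff n| ≤ 1) → (∀ n, f.coeff n ≠ 0 → y0 < n) → En (tw δ (f ^ q)) ≤ ε := by
  obtain ⟨y0, h⟩ := far_tail q hδ hε
  refine ⟨y0, fun f hf1 hf2 => ?_⟩
  have hsup : ∀ n ∈ (tw δ (f ^ q)).coeff.support, y0 < n := by
    intro n hn
    have h1 := Finsupp.mem_support_iff.1 hn
    rw [coeff_tw] at h1
    exact far_supp hf2 hq n (left_ne_zero_of_mul h1)
  unfold En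
  rw [BK_K1_eq, pair_def]
  refine (Finset.sum_le_sum fun a ha => ?_).trans (h _ hsup)
  have ha0 : a ≠ 0 := by have := hsup a ha; omega
  have hap : (0 : ℝ) < a := by exact_mod_cast Nat.pos_of_ne_zero ha0
  have h1 := far_coeff hf1 q a ha0
  rw [coeff_tw]
  have h2 : (f ^ q).coeff a * (a : ℝ) ^ (-δ) * ((f ^ q).coeff a * (a : ℝ) ^ (-δ) * (a : ℝ)⁻¹)
      = ((f ^ q).coeff a) ^ 2 * (a : ℝ) ^ (-(1 + 2 * δ)) := by
    have e : (a : ℝ) ^ (-(1 + 2 * δ)) = (a : ℝ) ^ (-δ) * (a : ℝ) ^ (-δ) * (a : ℝ)⁻¹ := by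
      rw [← Real.rpow_add hap, ← Real.rpow_neg_one, ← Real.rpow_add hap]
      congr 1
      ring
    rw [e]
    ring
  rw [h2]
  refine mul_le_mul_of_nonneg_right ?_ (by positivity)
  rw [← sq_abs]
  exact pow_le_pow_left₀ (abs_nonneg _) h1 2

lemma far_un {T : ℝ} (hT : 0 < T) (f : ℝ → ℂ) :
    ∫ t, f t ∂(un 0 T) = (1 / T) • ∫ t in (0 : ℝ)..(0 + T), f t := by
  unfold MS.un
  rw [integral_smul_measure, intervalIntegral.integral_of_le (by linarith),
    integral_Icc_eq_integral_Ioc, ENNReal.toReal_inv, ENNReal.toReal_ofReal hT.le, one_div]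

lemma far_ms {P : DP} {X : ℕ} (hX : 1 ≤ X) (hP : ∀ n, P.coeff n ≠ 0 → 1 ≤ n ∧ n ≤ X) {T : ℝ}
    (hT : 2 * (X : ℝ) ^ 2 ≤ T) : mean 0 T (fun t => ‖ev t P‖ ^ 2) ≤ 2 * En P := by
  have hX1 : (1 : ℝ) ≤ X := by exact_mod_cast hX
  have hT0 : 0 < T := by nlinarith
  have hlen : MS.Len X P := fun n hn => ⟨(hP n hn).1, by exact_mod_cast (hP n hn).2⟩
  have h := (unifMVP 0 T X hT0 hX1).mv P P hlen hlen
  have hE : 0 ≤ En P := by
    unfold En
    rw [BK_K1_eq, pair_def]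
    refine Finset.sum_nonneg fun a ha => ?_
    have : P.coeff a * (P.coeff a * (a : ℝ)⁻¹) = P.coeff a ^ 2 * (a : ℝ)⁻¹ := by ring
    rw [this]; positivity
  rw [Real.sqrt_mul_self hE, far_un hT0] at h
  have e1 : ∀ t : ℝ, ev t P * conj (ev t P) = ((‖ev t P‖ ^ 2 : ℝ) : ℂ) := by
    intro t
    rw [Complex.mul_conj, Complex.normSq_eq_norm_sq]
  simp_rw [e1] at h
  rw [intervalIntegral.integral_ofReal, Complex.real_smul, ← Complex.ofReal_mul,
    ← Complex.ofReal_sub, Complex.norm_real, Real.norm_eq_abs, one_div] at h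
  have h1 := (abs_le.mp h).2
  have h2 : 2 * (X : ℝ) ^ 2 / T * En P ≤ 1 * En P :=
    mul_le_mul_of_nonneg_right ((div_le_one hT0).mpr hT) hE
  unfold mean
  have h3 : En P = BK K1 P P := rfl
  linarith

/-! ### the Euler product as a series over the smooth numbers -/

lemma far_norm {δ t : ℝ} {n : ℕ} (hn : n ≠ 0) :
    ‖(n : ℂ) ^ (-(pt δ t))‖ = (n : ℝ) ^ (-(1 / 2 + δ)) := by
  rw [Complex.norm_natCast_cpow_of_pos (Nat.pos_of_ne_zero hn)]
  congr 1
  simp [pt]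

lemma far_PE {δ η : ℝ} (hδ : 0 < δ) (hη : 0 < η) (y : ℕ) : ∃ M0 : ℕ, ∀ M : ℕ, M0 ≤ M → ∀ t : ℝ,
    ‖PE δ y t - ∑ n ∈ (Finset.Icc 1 M).filter (· ∈ Nat.factoredNumbers (Finset.Icc 1 y)),
      (n : ℂ) ^ (-(pt δ t))‖ ≤ η := by
  classical
  have hs : ∀ t : ℝ, pt δ t ≠ 0 := by
    intro t h
    have := congrArg Complex.re h
    simp [pt] at this
    linarith
  have key : ∀ t : ℝ, Summable (fun m : Nat.factoredNumbers (Finset.Icc 1 y) =>
      ‖((m : ℕ) : ℂ) ^ (-(pt δ t))‖) ∧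
      HasSum (fun m : Nat.factoredNumbers (Finset.Icc 1 y) => ((m : ℕ) : ℂ) ^ (-(pt δ t)))
        (PE δ y t) := by
    intro t
    have h := EulerProduct.summable_and_hasSum_factoredNumbers_prod_filter_prime_geometric
      (f := (riemannZetaSummandHom (hs t) : ℕ →* ℂ)) (fun {p} hp => ?_) (Finset.Icc 1 y)
    · exact h
    · have h1 : ((riemannZetaSummandHom (hs t) : ℕ →* ℂ)) p = (p : ℂ) ^ (-(pt δ t)) := rfl
      rw [h1, far_norm hp.ne_zero]
      exact Real.rpow_lt_one_of_one_lt_of_neg (by exact_mod_cast hp.one_lt) (by linarith)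
  obtain ⟨F, hF⟩ : ∃ F : ℕ → ℝ, F = (Nat.factoredNumbers (Finset.Icc 1 y)).indicator
      (fun n : ℕ => (n : ℝ) ^ (-(1 / 2 + δ))) := ⟨_, rfl⟩
  have hFs : Summable F := by
    rw [hF, ← summable_subtype_iff_indicator]
    refine (key 0).1.congr fun m => ?_
    exact far_norm (Nat.ne_zero_of_mem_factoredNumbers m.2)
  obtain ⟨s0, hs0⟩ := summable_iff_vanishing_norm.mp hFs η hη
  refine ⟨s0.sup id, fun M hM t => ?_⟩
  obtain ⟨G, hG⟩ : ∃ G : ℕ → ℂ, G = (Nat.factoredNumbers (Finset.Icc 1 y)).indicator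
      (fun n : ℕ => (n : ℂ) ^ (-(pt δ t))) := ⟨_, rfl⟩
  have hGs : HasSum G (PE δ y t) := by
    rw [hG, ← hasSum_subtype_iff_indicator]
    exact (key t).2
  have hGF : ∀ n, ‖G n‖ = F n := by
    intro n
    rw [hG, hF]
    by_cases hn : n ∈ Nat.factoredNumbers (Finset.Icc 1 y)
    · rw [indicator_of_mem hn, indicator_of_mem hn, far_norm (Nat.ne_zero_of_mem_factoredNumbers hn)]
    · rw [indicator_of_notMem hn, indicator_of_notMem hn, norm_zero]
  have hsum : ∑ n ∈ (Finset.Icc 1 M).filter (· ∈ Nat.factoredNumbers (Finset.Icc 1 y)),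
      (n : ℂ) ^ (-(pt δ t)) = ∑ n ∈ Finset.range (M + 1), G n := by
    rw [Finset.sum_filter]
    have h1 : ∀ n, (if n ∈ Nat.factoredNumbers (Finset.Icc 1 y) then (n : ℂ) ^ (-(pt δ t)) else 0)
        = G n := by
      intro n
      rw [hG, indicator_apply]
    simp_rw [h1]
    refine Finset.sum_subset (fun n hn => ?_) fun n hn hn' => ?_
    · rw [Finset.mem_Icc] at hn
      rw [Finset.mem_range]; omega
    · rw [Finset.mem_range] at hn
      rw [Finset.mem_Icc] at hn'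
      have hn0 : n = 0 := by omega
      rw [hn0, hG, indicator_of_notMem]
      exact fun h => Nat.ne_zero_of_mem_factoredNumbers h rfl
  rw [hsum]
  have hlim : Tendsto (fun N : ℕ => ‖∑ n ∈ Finset.range N, G n - ∑ n ∈ Finset.range (M + 1), G n‖)
      atTop (𝓝 ‖PE δ y t - ∑ n ∈ Finset.range (M + 1), G n‖) :=
    (hGs.tendsto_sum_nat.sub_const _).norm
  refine le_of_tendsto hlim ?_
  filter_upwards [eventually_ge_atTop (M + 1)] with N hN
  rw [← Finset.sum_Ico_eq_sub _ hN]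
  refine (norm_sum_le _ _).trans ?_
  have hd : Disjoint (Finset.Ico (M + 1) N) s0 := by
    rw [Finset.disjoint_left]
    intro n hn hn'
    rw [Finset.mem_Ico] at hn
    have h2 : n ≤ s0.sup id := Finset.le_sup (f := id) hn'
    omega
  have h3 := hs0 _ hd
  simp_rw [hGF]
  exact (le_abs_self _).trans h3.le

/-! ### assembly -/

lemma far_coeff_sum (A : Finset ℕ) (n : ℕ) :
    (∑ m ∈ A, MonoidAlgebra.single m (1 : ℝ) : DP).coeff n = if n ∈ A then 1 else 0 := by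
  classical
  induction A using Finset.induction_on with
  | empty => simp
  | insert a A ha ih =>
    rw [Finset.sum_insert ha, MonoidAlgebra.coeff_add, Finsupp.add_apply, ih,
      MonoidAlgebra.coeff_single, Finsupp.single_apply]
    by_cases h : a = n
    · subst h
      simp [ha]
    · have h' : ¬ n = a := fun e => h e.symm
      simp [h, h']

lemma far_mean {F : ℝ → ℝ} {P : DP} {c η : ℝ} {T : ℝ} (hT : 0 < T)
    (hF0 : ∀ t, 0 ≤ F t) (hF : ∀ t, F t ≤ c * (‖ev t P‖ ^ 2 + η)) :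
    mean 0 T F ≤ c * (mean 0 T (fun t => ‖ev t P‖ ^ 2) + η) := by
  have hcont : Continuous fun t : ℝ => ‖ev t P‖ ^ 2 := (continuous_ev P).norm.pow 2
  unfold mean
  have h1 : ∫ t in (0 : ℝ)..(0 + T), F t ≤ ∫ t in (0 : ℝ)..(0 + T), c * (‖ev t P‖ ^ 2 + η) := by
    rw [intervalIntegral.integral_of_le (by linarith), intervalIntegral.integral_of_le (by linarith)]
    refine integral_mono_of_nonneg (ae_of_all _ hF0) ?_ (ae_of_all _ hF)
    have : Continuous fun t : ℝ => c * (‖ev t P‖ ^ 2 + η) := (hcont.add_const _).const_mul _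
    exact (this.integrableOn_Icc).mono_set Ioc_subset_Icc_self
  have h2 : ∫ t in (0 : ℝ)..(0 + T), c * (‖ev t P‖ ^ 2 + η)
      = c * ((∫ t in (0 : ℝ)..(0 + T), ‖ev t P‖ ^ 2) + T * η) := by
    rw [intervalIntegral.integral_const_mul, intervalIntegral.integral_add
      (hcont.intervalIntegrable _ _) (continuous_const.intervalIntegrable _ _),
      intervalIntegral.integral_const]
    simp
  rw [h2] at h1
  calc T⁻¹ * ∫ t in (0 : ℝ)..(0 + T), F t
      ≤ T⁻¹ * (c * ((∫ t in (0 : ℝ)..(0 + T), ‖ev t P‖ ^ 2) + T * η)) :=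
        mul_le_mul_of_nonneg_left h1 (by positivity)
    _ = c * (T⁻¹ * (∫ t in (0 : ℝ)..(0 + T), ‖ev t P‖ ^ 2) + η) := by
        field_simp

theorem far : Far := by
  classical
  intro q δ ε hq hδ hε
  have hA : (0 : ℝ) < 2 ^ (2 * q) := by positivity
  obtain ⟨y0, hy0⟩ := far_energy hq hδ (show 0 < ε / (2 * 2 ^ (2 * q)) by positivity)
  refine ⟨y0, fun y hy => ?_⟩
  obtain ⟨η, hη⟩ : ∃ η : ℝ, η = min 1 (ε / 2 ^ (2 * q)) := ⟨_, rfl⟩
  have hη0 : 0 < η := by rw [hη]; positivity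
  have hη1 : η ≤ 1 := by rw [hη]; exact min_le_left _ _
  have hη2 : η ≤ ε / 2 ^ (2 * q) := by rw [hη]; exact min_le_right _ _
  obtain ⟨M0, hM0⟩ := far_PE hδ hη0 y
  refine ⟨Real.log (y + 1), fun L hL => ?_⟩
  obtain ⟨N, hN⟩ : ∃ N : ℕ, N = ⌊Real.exp L⌋₊ := ⟨_, rfl⟩
  have hyN : y < N := by
    rw [hN, Nat.lt_iff_add_one_le, Nat.le_floor_iff (Real.exp_pos L).le]
    have h1 : (0 : ℝ) < y + 1 := by positivity
    have h2 := Real.exp_le_exp.mpr hL
    rw [Real.exp_log h1] at h2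
    exact_mod_cast h2
  obtain ⟨M, hM⟩ : ∃ M : ℕ, M = max M0 y := ⟨_, rfl⟩
  have hMM : M0 ≤ M := by rw [hM]; exact le_max_left _ _
  have hyM : y ≤ M := by rw [hM]; exact le_max_right _ _
  obtain ⟨A, hAdef⟩ : ∃ A : Finset ℕ,
      A = (Finset.Icc 1 M).filter (· ∈ Nat.factoredNumbers (Finset.Icc 1 y)) := ⟨_, rfl⟩
  have hPE : ∀ t : ℝ, ‖PE δ y t - ∑ n ∈ A, (n : ℂ) ^ (-(pt δ t))‖ ≤ η := by
    rw [hAdef]; exact hM0 M hMM
  obtain ⟨f, hf⟩ : ∃ f : DP, f = ∑ n ∈ Finset.Icc 1 N, MonoidAlgebra.single n (1 : ℝ)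
      - ∑ n ∈ A, MonoidAlgebra.single n (1 : ℝ) := ⟨_, rfl⟩
  have hcoef : ∀ n, f.coeff n = (if n ∈ Finset.Icc 1 N then (1 : ℝ) else 0)
      - (if n ∈ A then (1 : ℝ) else 0) := by
    intro n
    rw [hf, MonoidAlgebra.coeff_sub, Finsupp.sub_apply, far_coeff_sum, far_coeff_sum]
  have hf1 : ∀ n, |f.coeff n| ≤ 1 := by
    intro n
    rw [hcoef]
    split_ifs <;> simp
  have hAmem : ∀ n, n ∈ A ↔ (1 ≤ n ∧ n ≤ M) ∧ n ∈ Nat.factoredNumbers (Finset.Icc 1 y) := by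
    intro n
    rw [hAdef, Finset.mem_filter, Finset.mem_Icc]
  have hf2 : ∀ n, f.coeff n ≠ 0 → y < n := by
    intro n hn
    by_contra hle
    push Not at hle
    apply hn
    rw [hcoef]
    rcases Nat.eq_zero_or_pos n with h0 | h0
    · have h1 : n ∉ Finset.Icc 1 N := by rw [Finset.mem_Icc]; omega
      have h2 : n ∉ A := by rw [hAmem]; omega
      rw [if_neg h1, if_neg h2, sub_zero]
    · have h1 : n ∈ Finset.Icc 1 N := by rw [Finset.mem_Icc]; omega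
      have h2 : n ∈ A := by
        rw [hAmem]
        refine ⟨⟨h0, by omega⟩, ?_⟩
        rw [Nat.mem_factoredNumbers]
        refine ⟨by omega, fun p hp => ?_⟩
        have h3 := Nat.le_of_mem_primeFactorsList hp
        have h4 := (Nat.prime_of_mem_primeFactorsList hp).one_lt
        rw [Finset.mem_Icc]; omega
      rw [if_pos h1, if_pos h2, sub_self]
  obtain ⟨X, hX⟩ : ∃ X : ℕ, X = max N M := ⟨_, rfl⟩
  have hX1 : 1 ≤ X := by
    rw [hX]; exact le_trans (by omega) (le_max_left N M)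
  have hf3 : ∀ n, f.coeff n ≠ 0 → 1 ≤ n ∧ n ≤ X := by
    intro n hn
    have h1 := hf2 n hn
    refine ⟨by omega, ?_⟩
    by_contra hlt
    push Not at hlt
    rw [hX, max_lt_iff] at hlt
    apply hn
    rw [hcoef]
    have h3 : n ∉ Finset.Icc 1 N := by rw [Finset.mem_Icc]; omega
    have h4 : n ∉ A := by rw [hAmem]; omega
    rw [if_neg h3, if_neg h4, sub_zero]
  have hEn := hy0 f hf1 fun n hn => lt_of_le_of_lt hy (hf2 n hn)
  have hev : ∀ t : ℝ, ev t (tw δ f) = DS δ L t - ∑ n ∈ A, (n : ℂ) ^ (-(pt δ t)) := by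
    intro t
    rw [ev_tw hδ.le, ← evS_apply, hf, map_sub, map_sum, map_sum]
    simp_rw [evS_single]
    unfold DS
    rw [← hN]
    simp only [Complex.ofReal_one, one_mul]
    rfl
  have hXq : 1 ≤ X ^ q := Nat.one_le_pow _ _ hX1
  refine ⟨max 1 (2 * ((X ^ q : ℕ) : ℝ) ^ 2), le_max_left _ _, fun T hT => ?_⟩
  have hT1 : 1 ≤ T := (le_max_left _ _).trans hT
  have hT2 : 2 * ((X ^ q : ℕ) : ℝ) ^ 2 ≤ T := (le_max_right _ _).trans hT
  have hlen : ∀ n, (tw δ (f ^ q)).coeff n ≠ 0 → 1 ≤ n ∧ n ≤ X ^ q := by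
    intro n hn
    rw [coeff_tw] at hn
    exact far_len hf3 q n (left_ne_zero_of_mul hn)
  have hms := far_ms hXq hlen hT2
  have hpt : ∀ t : ℝ, ‖DS δ L t - PE δ y t‖ ^ (2 * (q : ℝ))
      ≤ 2 ^ (2 * q - 1) * (‖ev t (tw δ (f ^ q))‖ ^ 2 + η) := by
    intro t
    have e1 : (2 * (q : ℝ)) = ((2 * q : ℕ) : ℝ) := by push_cast; ring
    rw [e1, Real.rpow_natCast]
    have h1 : ‖DS δ L t - PE δ y t‖ ≤ ‖ev t (tw δ f)‖ + η := by
      have h2 : DS δ L t - PE δ y t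
          = ev t (tw δ f) - (PE δ y t - ∑ n ∈ A, (n : ℂ) ^ (-(pt δ t))) := by
        rw [hev t]; ring
      rw [h2]
      exact (norm_sub_le _ _).trans (add_le_add le_rfl (hPE t))
    calc ‖DS δ L t - PE δ y t‖ ^ (2 * q) ≤ (‖ev t (tw δ f)‖ + η) ^ (2 * q) :=
          pow_le_pow_left₀ (norm_nonneg _) h1 _
      _ ≤ 2 ^ (2 * q - 1) * (‖ev t (tw δ f)‖ ^ (2 * q) + η ^ (2 * q)) :=
          add_pow_le (norm_nonneg _) hη0.le _
      _ ≤ 2 ^ (2 * q - 1) * (‖ev t (tw δ (f ^ q))‖ ^ 2 + η) := by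
          refine mul_le_mul_of_nonneg_left ?_ (by positivity)
          refine add_le_add (le_of_eq ?_) ?_
          · rw [map_pow, map_pow, norm_pow, ← pow_mul, mul_comm q 2]
          · calc η ^ (2 * q) ≤ η ^ 1 := pow_le_pow_of_le_one hη0.le hη1 (by omega)
              _ = η := pow_one η
  refine (far_mean (by linarith) (fun t => by positivity) hpt).trans ?_
  have h2q : (2 : ℝ) ^ (2 * q) = 2 ^ (2 * q - 1) * 2 := by
    rw [← pow_succ]
    congr 1
    omega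
  have hE2 : 2 * En (tw δ (f ^ q)) ≤ ε / 2 ^ (2 * q) := by
    calc 2 * En (tw δ (f ^ q)) ≤ 2 * (ε / (2 * 2 ^ (2 * q))) := by linarith
      _ = ε / 2 ^ (2 * q) := by field_simp
  calc (2 : ℝ) ^ (2 * q - 1) * (mean 0 T (fun t => ‖ev t (tw δ (f ^ q))‖ ^ 2) + η)
      ≤ 2 ^ (2 * q - 1) * (ε / 2 ^ (2 * q) + ε / 2 ^ (2 * q)) :=
        mul_le_mul_of_nonneg_left (by linarith) (by positivity)
    _ = ε := by
        rw [h2q]
        field_simp
        ring

end Pool.Agent.Lib.DL
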