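import Pool.Agent.Lib.MP_f9aece_nt_dl.Stmts
import Pool.Agent.Lib.LFA.R3

/-!
Near-line law at every exponent, row P9: the hypothesis in terms of the randomly shifted point.
-/

set_option autoImplicit false

namespace Pool.Agent.Lib.DL

open MeasureTheory Set Filter Topology Complex

/-- the sharp order for the randomly shifted point gives the sharp order over `[0, T]` -/
theorem hBof : HBof := by
  intro x β hβ ⟨C0, T00, hV⟩
  obtain ⟨B, hB0, hint⟩ := LFA.R3x.int_le x β (by linarith)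
  have hx0 := abs_nonneg x
  have hβ4 : 0 ≤ β ^ 2 / 4 := by positivity
  refine ⟨max 1 (B + 2 * (|C0| * 2 ^ (β ^ 2 / 4))), max 20 (max (4 * (1 + |x|)) (4 * |T00|)),
    le_max_left _ _, le_trans (by norm_num) (le_max_left _ _), fun T hT => ?_⟩
  have hT20 : 20 ≤ T := (le_max_left _ _).trans hT
  have hTx : 4 * (1 + |x|) ≤ T := ((le_max_left _ _).trans (le_max_right _ _)).trans hT
  have hTT : 4 * |T00| ≤ T := ((le_max_right _ _).trans (le_max_right _ _)).trans hT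
  have hT00 := le_abs_self T00
  have hT00' := abs_nonneg T00
  have h4 : 4 * (T / 4) = T := by ring
  obtain ⟨hl1, hl2, hl3, hl4⟩ := LFA.R3x.log_facts (x := x) (T := T / 4) (by linarith) (by linarith)
  have h0 := hint 0 (T / 4) le_rfl (by norm_num) (by linarith)
  have h1 := hV (T + |x|) (by linarith)
  rw [zero_div] at h1
  rw [h4] at h0 hl2 hl3 hl4
  have hTp : 0 < T := by linarith
  have hlT : Real.log (T / 4) ≤ Real.log T := Real.log_le_log (by linarith) (by linarith)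
  obtain ⟨l, hl⟩ : ∃ l, l = Real.log T := ⟨_, rfl⟩
  have hl1' : 1 ≤ l := by rw [hl]; linarith
  have hlh : Real.log (T + |x|) ≤ 2 * l := by rw [hl]; linarith
  have hlh0 : 0 ≤ Real.log (T + |x|) := by linarith
  obtain ⟨Λ, hΛ⟩ : ∃ Λ, Λ = l ^ (β ^ 2 / 4) := ⟨_, rfl⟩
  have hΛ1 : 1 ≤ Λ := by rw [hΛ]; exact Real.one_le_rpow hl1' hβ4
  have h2 : LFA.V β x (T + |x|) ((0 : ℝ) : ℂ) ≤ |C0| * 2 ^ (β ^ 2 / 4) * Λ := by
    refine h1.trans ?_
    have h6 : Real.log (T + |x|) ^ (β ^ 2 / 4) ≤ 2 ^ (β ^ 2 / 4) * Λ := by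
      rw [hΛ, ← Real.mul_rpow (by norm_num) (by linarith)]
      exact Real.rpow_le_rpow hlh0 hlh hβ4
    calc C0 * Real.log (T + |x|) ^ (β ^ 2 / 4) ≤ |C0| * Real.log (T + |x|) ^ (β ^ 2 / 4) :=
          mul_le_mul_of_nonneg_right (le_abs_self _) (by positivity)
      _ ≤ |C0| * (2 ^ (β ^ 2 / 4) * Λ) := mul_le_mul_of_nonneg_left h6 (abs_nonneg _)
      _ = _ := by ring
  have h5 : (T + |x|) * LFA.V β x (T + |x|) ((0 : ℝ) : ℂ) ≤
      (2 * T) * (|C0| * 2 ^ (β ^ 2 / 4) * Λ) :=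
    mul_le_mul (by linarith) h2 (LFA.R3x.V_nonneg _ _ _ _) (by positivity)
  have h7 : ∫ t in (0 : ℝ)..T, ‖riemannZeta (1 / 2 + I * t)‖ ^ (2 * (β / 2)) =
      ∫ y in (0 : ℝ)..T, ‖riemannZeta (1 / 2 + ((0 : ℝ) : ℂ) + I * y)‖ ^ β := by
    refine intervalIntegral.integral_congr fun t _ => ?_
    rw [Complex.ofReal_zero, add_zero, show 2 * (β / 2) = β by ring]
  rw [h7]
  have h8 : (β / 2) ^ 2 = β ^ 2 / 4 := by ring
  rw [h8, ← hl, ← hΛ]
  have h9 : B ≤ B * (T * Λ) := by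
    have h10 : 1 ≤ T * Λ := by
      calc (1 : ℝ) = 1 * 1 := by ring
        _ ≤ T * Λ := mul_le_mul (by linarith) hΛ1 zero_le_one (by linarith)
    calc B = B * 1 := by ring
      _ ≤ B * (T * Λ) := mul_le_mul_of_nonneg_left h10 hB0
  have h11 : 0 ≤ T * Λ := mul_nonneg hTp.le (by linarith)
  have h12 : (B + 2 * (|C0| * 2 ^ (β ^ 2 / 4))) * (T * Λ) ≤
      max 1 (B + 2 * (|C0| * 2 ^ (β ^ 2 / 4))) * (T * Λ) :=
    mul_le_mul_of_nonneg_right (le_max_right _ _) h11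
  calc ∫ y in (0 : ℝ)..T, ‖riemannZeta (1 / 2 + ((0 : ℝ) : ℂ) + I * y)‖ ^ β
      ≤ B + (T + |x|) * LFA.V β x (T + |x|) ((0 : ℝ) : ℂ) := h0
    _ ≤ B * (T * Λ) + (2 * T) * (|C0| * 2 ^ (β ^ 2 / 4) * Λ) := by linarith
    _ = (B + 2 * (|C0| * 2 ^ (β ^ 2 / 4))) * (T * Λ) := by ring
    _ ≤ _ := h12
    _ = _ := by ring

end Pool.Agent.Lib.DL
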