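import Pool.Agent.Lib.MP_f9aece_nt_n4.KernelMoment
import Pool.Agent.Lib.MP_f9aece_nt_dl.Stmts

/-!
P6 (`KErr`): mean values of the kernel average of zeta on the critical line, for every exponent.
-/

set_option autoImplicit false

namespace Pool.Agent.Lib.DL

open MeasureTheory Set Filter Topology Complex
open Pool.Agent.Lib.N4.KM

namespace KE

lemma add_rpow_le {x y q : ℝ} (hx : 0 ≤ x) (hy : 0 ≤ y) (hq : 1 ≤ q) :
    (x + y) ^ q ≤ 2 ^ (q - 1) * (x ^ q + y ^ q) := by
  have h := NNReal.rpow_add_le_mul_rpow_add_rpow x.toNNReal y.toNNReal hq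
  have h2 : (((x.toNNReal + y.toNNReal) ^ q : NNReal) : ℝ)
      ≤ ((2 ^ (q - 1) * (x.toNNReal ^ q + y.toNNReal ^ q) : NNReal) : ℝ) := by
    exact_mod_cast h
  push_cast at h2
  rwa [Real.coe_toNNReal x hx, Real.coe_toNNReal y hy] at h2

/-- mean values of the kernel average -/
theorem kernel_moment (q : ℝ) (hq1 : 1 ≤ q) : ∃ C : ℝ, 1 ≤ C ∧ ∀ T w : ℝ, 1 ≤ T → 1 ≤ w →
    ∫ t in (0 : ℝ)..T, (∫ v : ℝ, w / (1 + w * |v|) ^ 6
        * ‖riemannZeta (1 / 2 + I * (t + v : ℝ))‖) ^ q
      ≤ C * (1 + ∫ t in (0 : ℝ)..(2 * T), ‖riemannZeta (1 / 2 + I * t)‖ ^ q) := by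
  have hπ := Real.pi_gt_three
  have hq0 : 0 ≤ q := by linarith
  set A : ℝ := 2 ^ (q - 1) with hA
  have hA1 : 1 ≤ A := Real.one_le_rpow (by norm_num) (by linarith)
  have hA0 : 0 < A := by linarith
  set C : ℝ := A * (2 * Real.pi ^ q + (120 * Real.pi) ^ q) with hC
  have hC1 : 1 ≤ C := by
    have h1 : 1 ≤ Real.pi ^ q := Real.one_le_rpow (by linarith) hq0
    have h2 : 0 ≤ (120 * Real.pi) ^ q := by positivity
    have h3 : 1 ≤ 2 * Real.pi ^ q + (120 * Real.pi) ^ q := by linarith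
    nlinarith
  refine ⟨C, hC1, ?_⟩
  intro T w hT hw
  have hT0 : 0 < T := by linarith
  have hw0 : 0 < w := by linarith
  have hZq : Continuous fun t => Z t ^ q := Z_cont.rpow_const fun _ => Or.inr hq0
  have hZq0 : ∀ t, 0 ≤ Z t ^ q := fun t => Real.rpow_nonneg (Z_nonneg t) q
  set G : ℝ → ℝ := fun t => ∫ v : ℝ, ph w v * Z (t + v) with hG
  set H : ℝ → ℝ := fun t => ∫ v in Icc (-T) T, ph w v * Z (t + v) ^ q with hH
  change ∫ t in (0 : ℝ)..T, G t ^ q ≤ C * (1 + ∫ t in (0 : ℝ)..(2 * T), Z t ^ q)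
  have hG0 : ∀ t, 0 ≤ G t := fun t =>
    integral_nonneg fun v => mul_nonneg (ph_nonneg hw0.le v) (Z_nonneg _)
  have hH0 : ∀ t, 0 ≤ H t := fun t =>
    setIntegral_nonneg measurableSet_Icc fun v _ => mul_nonneg (ph_nonneg hw0.le v) (hZq0 _)
  -- pointwise
  have hpt : ∀ t ∈ Ioc 0 T, G t ^ q ≤ A * (Real.pi ^ (q - 1) * H t + (120 * Real.pi / T) ^ q) := by
    intro t ht
    have e1 : G t = (∫ v in Icc (-T) T, ph w v * Z (t + v))
        + ∫ v in (Icc (-T) T)ᶜ, ph w v * Z (t + v) :=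
      (integral_add_compl measurableSet_Icc (phZ_integrable hw t)).symm
    have n1 : 0 ≤ ∫ v in Icc (-T) T, ph w v * Z (t + v) :=
      setIntegral_nonneg measurableSet_Icc fun v _ => mul_nonneg (ph_nonneg hw0.le v) (Z_nonneg _)
    have n2 : 0 ≤ ∫ v in (Icc (-T) T)ᶜ, ph w v * Z (t + v) :=
      setIntegral_nonneg measurableSet_Icc.compl fun v _ =>
        mul_nonneg (ph_nonneg hw0.le v) (Z_nonneg _)
    have e2 : (∫ v in (Icc (-T) T)ᶜ, ph w v * Z (t + v)) ^ q ≤ (120 * Real.pi / T) ^ q :=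
      Real.rpow_le_rpow n2 (tail_le hw hT ht.1.le ht.2) hq0
    have hcZ : Continuous fun v => Z (t + v) := Z_cont.comp (continuous_const.add continuous_id)
    have e3 : (∫ v in Icc (-T) T, ph w v * Z (t + v)) ^ q ≤ Real.pi ^ (q - 1) * H t := by
      refine jensen_w (μ := volume.restrict (Icc (-T) T)) (φ := ph w) (g := fun v => Z (t + v))
        Real.pi_pos hq1 (ph_nonneg hw0.le) (fun v => Z_nonneg _)
        (ph_integrable hw0).integrableOn (phZ_integrable hw t).integrableOn ?_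
        (ph_mass_on hw0 _)
      exact ((ph_cont hw0.le).mul (hZq.comp (continuous_const.add continuous_id))).integrableOn_Icc
    rw [e1]
    refine (add_rpow_le n1 n2 hq1).trans ?_
    exact mul_le_mul_of_nonneg_left (add_le_add e3 e2) hA0.le
  -- Fubini
  have hprod : Integrable (Function.uncurry fun t v => ph w v * Z (t + v) ^ q)
      ((volume.restrict (Ioc 0 T)).prod (volume.restrict (Icc (-T) T))) := by
    rw [Measure.prod_restrict]
    have hc : Continuous (Function.uncurry fun t v => ph w v * Z (t + v) ^ q) :=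
      ((ph_cont hw0.le).comp continuous_snd).mul (hZq.comp (continuous_fst.add continuous_snd))
    have h1 : IntegrableOn (Function.uncurry fun t v => ph w v * Z (t + v) ^ q)
        (Icc 0 T ×ˢ Icc (-T) T) (volume.prod volume) :=
      hc.continuousOn.integrableOn_compact (isCompact_Icc.prod isCompact_Icc)
    exact h1.mono_set (prod_mono Ioc_subset_Icc_self Subset.rfl)
  have hHi : IntegrableOn H (Ioc 0 T) := hprod.integral_prod_left
  set S : ℝ := ∫ t in (0 : ℝ)..(2 * T), Z t ^ q with hS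
  have hS0 : 0 ≤ S := intervalIntegral.integral_nonneg (by linarith) fun t _ => hZq0 t
  have hint : ∀ a b : ℝ, IntervalIntegrable (fun t => Z t ^ q) volume a b := fun a b =>
    hZq.intervalIntegrable a b
  have hwide : ∫ t in (-T)..(2 * T), Z t ^ q ≤ 2 * S := by
    rw [← intervalIntegral.integral_add_adjacent_intervals (hint (-T) 0) (hint 0 (2 * T))]
    have e1 : ∫ t in (-T)..0, Z t ^ q = ∫ t in (0 : ℝ)..T, Z t ^ q := by
      have e2 := intervalIntegral.integral_comp_neg (a := 0) (b := T) fun t => Z t ^ q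
      rw [neg_zero] at e2
      rw [← e2]
      refine intervalIntegral.integral_congr fun t _ => ?_
      simp only [Z_neg]
    have e3 : ∫ t in (0 : ℝ)..T, Z t ^ q ≤ S := by
      rw [hS, ← intervalIntegral.integral_add_adjacent_intervals (hint 0 T) (hint T (2 * T))]
      have := intervalIntegral.integral_nonneg (μ := volume) (by linarith : T ≤ 2 * T)
        fun t _ => hZq0 t
      linarith
    rw [e1]
    linarith
  have hM : ∀ v ∈ Icc (-T) T, ∫ t in Ioc 0 T, ph w v * Z (t + v) ^ q ≤ ph w v * (2 * S) := by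
    intro v hv
    rw [integral_const_mul]
    refine mul_le_mul_of_nonneg_left ?_ (ph_nonneg hw0.le v)
    rw [← intervalIntegral.integral_of_le hT0.le,
      intervalIntegral.integral_comp_add_right (fun t => Z t ^ q) v]
    refine le_trans ?_ hwide
    refine intervalIntegral.integral_mono_interval (by linarith [hv.1]) (by linarith)
      (by linarith [hv.2]) (Eventually.of_forall fun t => hZq0 t) (hint _ _)
  have hHint : ∫ t in Ioc 0 T, H t ≤ Real.pi * (2 * S) := by
    have e1 : ∫ t in Ioc 0 T, H t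
        = ∫ v in Icc (-T) T, ∫ t in Ioc 0 T, ph w v * Z (t + v) ^ q :=
      integral_integral_swap hprod
    rw [e1]
    have hi2 : IntegrableOn (fun v => ph w v * (2 * S)) (Icc (-T) T) :=
      ((ph_integrable hw0).mul_const _).integrableOn
    refine (setIntegral_mono_on hprod.integral_prod_right hi2 measurableSet_Icc hM).trans ?_
    rw [integral_mul_const]
    exact mul_le_mul_of_nonneg_right (ph_mass_on hw0 _) (by positivity)
  -- conclusion
  have hfin : volume (Ioc 0 T) ≠ ⊤ := by rw [Real.volume_Ioc]; exact ENNReal.ofReal_ne_top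
  have hc1 : Integrable (fun _ : ℝ => (120 * Real.pi / T) ^ q) (volume.restrict (Ioc 0 T)) :=
    integrableOn_const hfin
  have hH1 : Integrable (fun t : ℝ => Real.pi ^ (q - 1) * H t) (volume.restrict (Ioc 0 T)) :=
    hHi.const_mul _
  rw [intervalIntegral.integral_of_le hT0.le]
  have hfinal : ∫ t in Ioc 0 T, G t ^ q
      ≤ ∫ t in Ioc 0 T, A * (Real.pi ^ (q - 1) * H t + (120 * Real.pi / T) ^ q) := by
    refine integral_mono_of_nonneg (Eventually.of_forall fun t => Real.rpow_nonneg (hG0 t) q)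
      ((hH1.add hc1).const_mul A) ?_
    filter_upwards [ae_restrict_mem measurableSet_Ioc] with t ht
    exact hpt t ht
  refine hfinal.trans ?_
  have hsum : ∫ t in Ioc 0 T, (Real.pi ^ (q - 1) * H t + (120 * Real.pi / T) ^ q)
      = Real.pi ^ (q - 1) * (∫ t in Ioc 0 T, H t) + T * (120 * Real.pi / T) ^ q := by
    rw [integral_add hH1 hc1, integral_const_mul, setIntegral_const,
      Real.volume_real_Ioc_of_le hT0.le, smul_eq_mul, sub_zero]
  rw [integral_const_mul, hsum]
  have h1 : Real.pi ^ (q - 1) * ∫ t in Ioc 0 T, H t ≤ 2 * Real.pi ^ q * S := by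
    have h2 : Real.pi ^ (q - 1) * Real.pi = Real.pi ^ q := by
      rw [Real.rpow_sub_one Real.pi_ne_zero, div_mul_cancel₀ _ Real.pi_ne_zero]
    have h3 : 0 ≤ Real.pi ^ (q - 1) := by positivity
    calc Real.pi ^ (q - 1) * ∫ t in Ioc 0 T, H t ≤ Real.pi ^ (q - 1) * (Real.pi * (2 * S)) := by
          gcongr
      _ = Real.pi ^ (q - 1) * Real.pi * (2 * S) := by ring
      _ = 2 * Real.pi ^ q * S := by rw [h2]; ring
  have h2 : T * (120 * Real.pi / T) ^ q ≤ (120 * Real.pi) ^ q := by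
    rw [Real.div_rpow (by positivity) hT0.le]
    have h4 : T ≤ T ^ q := by
      calc T = T ^ (1 : ℝ) := (Real.rpow_one T).symm
        _ ≤ T ^ q := Real.rpow_le_rpow_of_exponent_le hT hq1
    have h5 : 0 < T ^ q := by positivity
    rw [mul_div_assoc', div_le_iff₀ h5]
    calc T * (120 * Real.pi) ^ q ≤ T ^ q * (120 * Real.pi) ^ q := by gcongr
      _ = _ := mul_comm _ _
  calc A * (Real.pi ^ (q - 1) * (∫ t in Ioc 0 T, H t) + T * (120 * Real.pi / T) ^ q)
      ≤ A * (2 * Real.pi ^ q * S + (120 * Real.pi) ^ q) := by gcongr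
    _ ≤ C * (1 + S) := by
        rw [hC]
        have h3 : 0 ≤ A * ((120 * Real.pi) ^ q * S) := by positivity
        have h4 : 0 ≤ A * Real.pi ^ q := by positivity
        nlinarith

end KE

/-- P6 -/
theorem kErr : KErr := by
  intro k hk1 hB
  obtain ⟨C0, T0, hC0, hT0, hR⟩ := hB
  obtain ⟨C, hC, hK⟩ := KE.kernel_moment (2 * k) (by linarith)
  have hA : (1 : ℝ) ≤ 2 ^ (k ^ 2) := Real.one_le_rpow (by norm_num) (by positivity)
  set A : ℝ := 2 ^ (k ^ 2) with hAd
  have hCA : 1 ≤ C0 * A := by nlinarith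
  refine ⟨C * (1 + 4 * (C0 * A)), max T0 4, ?_, ?_, ?_⟩
  · nlinarith
  · exact hT0.trans (le_max_left _ _)
  intro T w1 hT hw
  have hT1 : T0 ≤ T := (le_max_left _ _).trans hT
  have hT4 : 4 ≤ T := (le_max_right _ _).trans hT
  have hTp : 0 < T := by linarith
  refine (hK (2 * T) w1 (by linarith) hw).trans ?_
  have h1 := hR (2 * (2 * T)) (by linarith)
  have hlog1 : 1 ≤ Real.log T := by
    rw [Real.le_log_iff_exp_le hTp]
    have := Real.exp_one_lt_d9
    linarith
  have hlog : Real.log (2 * (2 * T)) ≤ 2 * Real.log T := by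
    have e1 : Real.log (2 * (2 * T)) ≤ Real.log (T * T) :=
      Real.log_le_log (by linarith) (by nlinarith)
    rw [Real.log_mul hTp.ne' hTp.ne'] at e1
    linarith
  have h2 : Real.log (2 * (2 * T)) ^ (k ^ 2) ≤ A * Real.log T ^ (k ^ 2) := by
    calc Real.log (2 * (2 * T)) ^ (k ^ 2) ≤ (2 * Real.log T) ^ (k ^ 2) :=
          Real.rpow_le_rpow (Real.log_nonneg (by linarith)) hlog (by positivity)
      _ = 2 ^ (k ^ 2) * Real.log T ^ (k ^ 2) := Real.mul_rpow (by norm_num) (by linarith)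
      _ = A * Real.log T ^ (k ^ 2) := by rw [hAd]
  have hL : 1 ≤ Real.log T ^ (k ^ 2) := Real.one_le_rpow hlog1 (by positivity)
  have h3 : 1 ≤ T * Real.log T ^ (k ^ 2) := by nlinarith
  have h4 : ∫ t in (0 : ℝ)..(2 * (2 * T)), ‖riemannZeta (1 / 2 + I * t)‖ ^ (2 * k)
      ≤ 4 * (C0 * A) * (T * Real.log T ^ (k ^ 2)) := by
    refine h1.trans ?_
    calc C0 * (2 * (2 * T)) * Real.log (2 * (2 * T)) ^ (k ^ 2)
        ≤ C0 * (2 * (2 * T)) * (A * Real.log T ^ (k ^ 2)) := by gcongr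
      _ = _ := by ring
  calc C * (1 + ∫ t in (0 : ℝ)..(2 * (2 * T)), ‖riemannZeta (1 / 2 + I * t)‖ ^ (2 * k))
      ≤ C * (T * Real.log T ^ (k ^ 2) + 4 * (C0 * A) * (T * Real.log T ^ (k ^ 2))) := by gcongr
    _ = C * (1 + 4 * (C0 * A)) * T * Real.log T ^ (k ^ 2) := by ring

end Pool.Agent.Lib.DL
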