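import Pool.Agent.Lib.MP_f9aece_nt_dl.LawOf
import Pool.Agent.Lib.UFY.All

/-!
Row P3, without hypothesis.
-/

set_option autoImplicit false

namespace Pool.Agent.Lib.DL

theorem law : Law := law_of Pool.Agent.UFY.xFinZ

end Pool.Agent.Lib.DL
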