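import Mathlib
import Pool.Agent.Lib.MP_f9aece_nt_dl.Stmts
import Pool.Agent.Lib.LFA.All

/-!
Near-line law at every exponent: from a bound of the expected order at one bounded distance to the
law near the line, and back.
-/

set_option autoImplicit false

namespace Pool.Agent.Lib.DL

open MeasureTheory Set Filter Topology Complex
open Pool.Agent.Lib.NL (ak momL)

/-- a bound at one bounded distance gives the upper half of the law -/
theorem upper_of_bounded (hUp : UpAll) (hSh : ShiftK) (hHB : HBof) {β x K : ℝ} (hβ : 2 ≤ β)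
    (hK : 0 ≤ K) (hb : LFA.BoundedAt β x K) (x' ε : ℝ) (hε : 0 < ε) :
    ∃ C : ℝ, 1 ≤ C ∧ ∀ δ T : ℝ, 0 < δ → δ ≤ 1 / C → 1 ≤ T → C ≤ δ * Real.log T →
      momL β x' δ T ≤ (1 + ε) * (ak (β / 2) * (2 * δ) ^ (-(β ^ 2 / 4))) := by
  have h0 := LFA.main.1 x β hβ ⟨K, hK, hb⟩ 0
  have hk : 1 ≤ β / 2 := by linarith
  obtain ⟨C, hC, h⟩ := hSh (β / 2) hk (hUp (β / 2) hk (hHB x β hβ h0)) x' ε hε
  refine ⟨C, hC, fun δ T h1 h2 h3 h4 => ?_⟩
  have h5 := h δ T h1 h2 h3 h4
  have e1 : 2 * (β / 2) = β := by ring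
  have e2 : (β / 2) ^ 2 = β ^ 2 / 4 := by ring
  rwa [e1, e2] at h5

/-- an upper bound of the right order near the line gives a bound at a bounded distance -/
theorem bounded_of_upper {β x C A : ℝ} (hβ : 2 ≤ β) (hC : 0 < C)
    (h : ∀ δ T : ℝ, 0 < δ → δ ≤ 1 / C → 1 ≤ T → C ≤ δ * Real.log T →
      momL β x δ T ≤ A * (2 * δ) ^ (-(β ^ 2 / 4))) (K : ℝ) : LFA.BoundedAt β x K := by
  refine LFA.main.1 x β hβ ⟨C, hC.le, ?_⟩ K
  refine ⟨A * (2 * C) ^ (-(β ^ 2 / 4)), max 3 (Real.exp (C * C)), fun T hT => ?_⟩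
  have hT3 : 3 ≤ T := (le_max_left _ _).trans hT
  have hT0 : 0 < T := by linarith
  have hL : C * C ≤ Real.log T := by
    rw [Real.le_log_iff_exp_le hT0]
    exact (le_max_right _ _).trans hT
  have hL0 : 0 < Real.log T := Real.log_pos (by linarith)
  have h1 := h (C / Real.log T) T (by positivity) (by
    rw [div_le_div_iff₀ hL0 hC]
    linarith) (by linarith) (by
    rw [div_mul_cancel₀ _ hL0.ne'])
  have e1 : momL β x (C / Real.log T) T = LFA.V β x T ((C / Real.log T : ℝ) : ℂ) := by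
    unfold Pool.Agent.Lib.NL.momL LFA.V
    refine intervalIntegral.integral_congr fun u _ => ?_
    show ‖riemannZeta (1 / 2 + ((C / Real.log T : ℝ) : ℂ) + I * x + I * u * T)‖ ^ β
      = ‖riemannZeta (1 / 2 + ((C / Real.log T : ℝ) : ℂ) + I * (x + u * T))‖ ^ β
    congr 3
    ring
  rw [e1] at h1
  refine h1.trans (le_of_eq ?_)
  have e2 : 2 * (C / Real.log T) = (2 * C) * (Real.log T)⁻¹ := by ring
  rw [e2, Real.mul_rpow (by positivity) (by positivity), Real.inv_rpow hL0.le,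
    Real.rpow_neg hL0.le, inv_inv]
  ring

end Pool.Agent.Lib.DL
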