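import Mathlib
import Pool.Agent.Lib.MP_f9aece_nt_dl.Stmts

/-!
P5: the sum of length `e^(Λ/δ)` has the right main term for large `Λ`.
-/

set_option autoImplicit false

namespace Pool.Agent.Lib.DL

open MeasureTheory Set Filter Topology Complex
open Pool.Agent.Lib.NL (pt SS ML ak momL ak_pos main_term)

/-- splitting of powers -/
lemma msPowSplit {p η : ℝ} (hp : 0 < p) (hη : 0 < η) : ∃ K : ℝ, 0 < K ∧
    ∀ x y : ℝ, 0 ≤ x → 0 ≤ y → (x + y) ^ p ≤ (1 + η) * x ^ p + K * y ^ p := by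
  obtain ⟨τ, hτ⟩ : ∃ τ : ℝ, τ = (1 + η) ^ (1 / p) - 1 := ⟨_, rfl⟩
  have h1 : 1 < (1 + η) ^ (1 / p) := Real.one_lt_rpow (by linarith) (by positivity)
  have hτ0 : 0 < τ := by rw [hτ]; linarith
  have hτp : (1 + τ) ^ p = 1 + η := by
    rw [hτ, add_sub_cancel, ← Real.rpow_mul (by linarith), one_div, inv_mul_cancel₀ hp.ne',
      Real.rpow_one]
  refine ⟨(1 + 1 / τ) ^ p, by positivity, fun x y hx hy => ?_⟩
  rcases le_or_gt y (τ * x) with h | h
  · have h2 : (x + y) ^ p ≤ ((1 + τ) * x) ^ p :=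
      Real.rpow_le_rpow (by positivity) (by linarith) hp.le
    rw [Real.mul_rpow (by linarith) hx, hτp] at h2
    have h3 : 0 ≤ (1 + 1 / τ) ^ p * y ^ p := by positivity
    linarith
  · have h2 : x ≤ 1 / τ * y := by
      rw [div_mul_eq_mul_div, one_mul, le_div_iff₀ hτ0]
      linarith
    have h3 : (x + y) ^ p ≤ ((1 + 1 / τ) * y) ^ p :=
      Real.rpow_le_rpow (by positivity) (by linarith) hp.le
    rw [Real.mul_rpow (by positivity) hy] at h3
    have h4 : 0 ≤ (1 + η) * x ^ p := by positivity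
    linarith

lemma msContDS (δ u : ℝ) : Continuous fun t : ℝ => DS δ u t := by
  unfold DS
  refine continuous_finsetSum _ fun n hn => ?_
  have hn1 : 1 ≤ n := (Finset.mem_Icc.1 hn).1
  refine Continuous.const_cpow ?_ (Or.inl (by exact_mod_cast (by omega : n ≠ 0)))
  unfold NL.pt
  fun_prop

lemma msMeanMono {x T : ℝ} (hT : 0 < T) {f g : ℝ → ℝ} (hf : Continuous f)
    (hg : Continuous g) (h : ∀ t, f t ≤ g t) : mean x T f ≤ mean x T g := by
  unfold mean
  refine mul_le_mul_of_nonneg_left ?_ (by positivity)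
  exact intervalIntegral.integral_mono (by linarith) (hf.intervalIntegrable _ _)
    (hg.intervalIntegrable _ _) h

lemma msMeanLin {x T a b : ℝ} {f g : ℝ → ℝ} (hf : Continuous f)
    (hg : Continuous g) : mean x T (fun t => a * f t + b * g t) = a * mean x T f + b * mean x T g := by
  unfold mean
  rw [intervalIntegral.integral_add ((hf.const_mul a).intervalIntegrable _ _)
    ((hg.const_mul b).intervalIntegrable _ _), intervalIntegral.integral_const_mul,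
    intervalIntegral.integral_const_mul]
  ring

theorem mainS (h1 : Blk) (h2 : Law) (h3 : MeanUp) : MainS := by
  intro k ε hk hε
  have hk0 : 0 < k := by linarith
  obtain ⟨N, hN, hkN⟩ : ∃ N : ℕ, 1 ≤ N ∧ k ≤ N :=
    ⟨⌈k⌉₊, Nat.one_le_iff_ne_zero.2 (by
      have := Nat.ceil_pos.2 hk0
      omega), Nat.le_ceil k⟩
  have ha : 0 < ak k := ak_pos hN hk0.le hkN
  obtain ⟨δ0, hδ0, hmain⟩ := main_term N hN 1 one_pos
  obtain ⟨c0, hc0⟩ : ∃ c0 : ℝ, c0 = Real.exp (-1) * ak k * (2 : ℝ) ^ (-(k ^ 2)) := ⟨_, rfl⟩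
  have hc00 : 0 < c0 := by rw [hc0]; positivity
  have hSS : ∀ δ : ℝ, 0 < δ → δ ≤ δ0 → c0 * δ ^ (-(k ^ 2)) ≤ SS k (1 + 2 * δ) := by
    intro δ hδ hδ1
    have h := (hmain k hk0.le hkN δ hδ hδ1).1
    have e : c0 * δ ^ (-(k ^ 2)) = Real.exp (-1) * ak k * ((2 * δ) ^ (k ^ 2))⁻¹ := by
      rw [hc0, ← Real.rpow_neg (by positivity), Real.mul_rpow (by norm_num) hδ.le]
      ring
    rw [e, ← div_eq_mul_inv, div_le_iff₀ (by positivity)]
    linarith
  obtain ⟨e1, he1⟩ : ∃ e1 : ℝ, e1 = min 1 ε / 8 := ⟨_, rfl⟩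
  have hm0 : 0 < min 1 ε := lt_min one_pos hε
  have he10 : 0 < e1 := by rw [he1]; positivity
  have he11 : e1 ≤ 1 / 8 := by
    rw [he1]
    have := min_le_left 1 ε
    linarith
  have he1ε : 8 * e1 ≤ ε := by
    rw [he1]
    have := min_le_right 1 ε
    linarith
  obtain ⟨K, hK, hsplit⟩ := msPowSplit (p := 2 * k) (η := e1) (by positivity) he10
  obtain ⟨CB, hCB, hblk⟩ := h1 k hk
  -- the choice of `Λ0`
  obtain ⟨Λ0, hΛ0⟩ : ∃ Λ0 : ℝ, Λ0 = max 1 (Real.log (K * CB / (e1 * c0))) := ⟨_, rfl⟩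
  refine ⟨Λ0, by rw [hΛ0]; exact le_max_left _ _, fun Λ hΛ => ?_⟩
  have hΛ1 : 1 ≤ Λ := le_trans (by rw [hΛ0]; exact le_max_left _ _) hΛ
  have hKC : K * CB * Real.exp (-Λ) ≤ e1 * c0 := by
    have h4 : Real.log (K * CB / (e1 * c0)) ≤ Λ := le_trans (by rw [hΛ0]; exact le_max_right _ _) hΛ
    have h5 : K * CB / (e1 * c0) ≤ Real.exp Λ := by
      rw [← Real.log_le_iff_le_exp (by positivity)]
      exact h4
    rw [div_le_iff₀ (by positivity)] at h5
    rw [Real.exp_neg, ← div_eq_mul_inv, div_le_iff₀ (Real.exp_pos _)]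
    linarith
  obtain ⟨c, hc, hlaw⟩ := h2 k Λ hk0 (by linarith)
  obtain ⟨e2, he2⟩ : ∃ e2 : ℝ, e2 = e1 * c0 := ⟨_, rfl⟩
  have he20 : 0 < e2 := by rw [he2]; positivity
  obtain ⟨C2, hC2, hlaw2⟩ := hlaw e2 he20
  -- the key inequality for the constant
  have key : ∀ δ : ℝ, 0 < δ → δ ≤ δ0 → δ ≤ 1 → δ ≤ 1 / C2 →
      c * δ ^ (-(k ^ 2)) ≤ ((1 + e1) ^ 2 + 2 * e1) * SS k (1 + 2 * δ) := by
    intro δ hδ hδ1 hδ2 hδ3
    have hS := hSS δ hδ hδ1
    have hS0 : 0 < SS k (1 + 2 * δ) := lt_of_lt_of_le (by positivity) hS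
    obtain ⟨L0, hL0⟩ := h3 k δ (e1 * SS k (1 + 2 * δ)) hk hδ (by positivity)
    obtain ⟨L, hL⟩ : ∃ L : ℝ, L = max L0 (Λ / δ) := ⟨_, rfl⟩
    have hLL0 : L0 ≤ L := by rw [hL]; exact le_max_left _ _
    have hLΛ : Λ / δ ≤ L := by rw [hL]; exact le_max_right _ _
    have hΛδ : 1 ≤ Λ / δ := by rw [le_div_iff₀ hδ]; linarith
    obtain ⟨T0, hT0⟩ := hL0 L hLL0
    obtain ⟨T, hT⟩ : ∃ T : ℝ, T = max (max T0 1) (max (Real.exp (C2 / δ)) (Real.exp (CB * L))) :=
      ⟨_, rfl⟩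
    have hTT0 : T0 ≤ T := by rw [hT]; exact (le_max_left _ _).trans (le_max_left _ _)
    have hT1 : 1 ≤ T := by rw [hT]; exact (le_max_right _ _).trans (le_max_left _ _)
    have hT2 : Real.exp (C2 / δ) ≤ T := by rw [hT]; exact (le_max_left _ _).trans (le_max_right _ _)
    have hT3 : Real.exp (CB * L) ≤ T := by rw [hT]; exact (le_max_right _ _).trans (le_max_right _ _)
    have hTpos : 0 < T := by linarith
    have hlog2 : C2 ≤ δ * Real.log T := by
      have : C2 / δ ≤ Real.log T := (Real.le_log_iff_exp_le hTpos).2 hT2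
      rw [div_le_iff₀ hδ] at this
      linarith
    have hlog3 : CB * L ≤ Real.log T := (Real.le_log_iff_exp_le hTpos).2 hT3
    have hA := hlaw2 δ T 0 hδ hδ3 hT1 hlog2
    have hB := hT0 T hTT0
    have hCC := hblk δ (Λ / δ) L T 0 hδ hΛδ hLΛ hT1 hlog3
    have e4 : δ * (Λ / δ) = Λ := by field_simp
    rw [e4] at hCC
    have hc1 : Continuous fun t => ‖DS δ (Λ / δ) t‖ ^ (2 * k) :=
      (msContDS δ (Λ / δ)).norm.rpow_const fun _ => Or.inr (by positivity)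
    have hc2 : Continuous fun t => ‖DS δ L t‖ ^ (2 * k) :=
      (msContDS δ L).norm.rpow_const fun _ => Or.inr (by positivity)
    have hc3 : Continuous fun t => ‖DS δ L t - DS δ (Λ / δ) t‖ ^ (2 * k) :=
      ((msContDS δ L).sub (msContDS δ (Λ / δ))).norm.rpow_const
        fun _ => Or.inr (by positivity)
    have hD : mean 0 T (fun t => ‖DS δ (Λ / δ) t‖ ^ (2 * k)) ≤
        (1 + e1) * mean 0 T (fun t => ‖DS δ L t‖ ^ (2 * k)) +
          K * mean 0 T (fun t => ‖DS δ L t - DS δ (Λ / δ) t‖ ^ (2 * k)) := by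
      rw [← msMeanLin hc2 hc3]
      refine msMeanMono hTpos hc1 ((hc2.const_mul _).add (hc3.const_mul _)) fun t => ?_
      refine le_trans (Real.rpow_le_rpow (norm_nonneg _) ?_ (by positivity))
        (hsplit _ _ (norm_nonneg _) (norm_nonneg _))
      have := norm_sub_le (DS δ L t) (DS δ L t - DS δ (Λ / δ) t)
      rwa [sub_sub_cancel] at this
    have hpw : 0 < δ ^ (-(k ^ 2)) := by positivity
    have hE : K * mean 0 T (fun t => ‖DS δ L t - DS δ (Λ / δ) t‖ ^ (2 * k)) ≤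
        e1 * SS k (1 + 2 * δ) := by
      calc K * mean 0 T (fun t => ‖DS δ L t - DS δ (Λ / δ) t‖ ^ (2 * k))
          ≤ K * (CB * (Real.exp (-Λ) * δ ^ (-(k ^ 2)))) := mul_le_mul_of_nonneg_left hCC hK.le
        _ = (K * CB * Real.exp (-Λ)) * δ ^ (-(k ^ 2)) := by ring
        _ ≤ (e1 * c0) * δ ^ (-(k ^ 2)) := mul_le_mul_of_nonneg_right hKC hpw.le
        _ = e1 * (c0 * δ ^ (-(k ^ 2))) := by ring
        _ ≤ e1 * SS k (1 + 2 * δ) := mul_le_mul_of_nonneg_left hS he10.le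
    have hF : e2 * δ ^ (-(k ^ 2)) ≤ e1 * SS k (1 + 2 * δ) := by
      rw [he2, mul_assoc]
      exact mul_le_mul_of_nonneg_left hS he10.le
    have hG := (abs_le.1 hA).1
    have hH : (1 + e1) * mean 0 T (fun t => ‖DS δ L t‖ ^ (2 * k)) ≤
        (1 + e1) * (SS k (1 + 2 * δ) + e1 * SS k (1 + 2 * δ)) :=
      mul_le_mul_of_nonneg_left hB (by linarith)
    nlinarith
  refine ⟨max C2 (max 1 (1 / δ0)), le_trans hC2 (le_max_left _ _), fun δ T x hδ hδC hT hlog => ?_⟩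
  have hM : 0 < max C2 (max 1 (1 / δ0)) := lt_of_lt_of_le (by linarith) (le_max_left _ _)
  have hδ3 : δ ≤ 1 / C2 :=
    hδC.trans (one_div_le_one_div_of_le (by linarith) (le_max_left _ _))
  have hδ2 : δ ≤ 1 := by
    refine hδC.trans ((one_div_le_one_div_of_le one_pos
      ((le_max_left _ _).trans (le_max_right _ _))).trans ?_)
    norm_num
  have hδ1 : δ ≤ δ0 := by
    refine hδC.trans ((one_div_le_one_div_of_le (by positivity)
      ((le_max_right _ _).trans (le_max_right _ _))).trans ?_)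
    rw [one_div_one_div]
  have hk1 := key δ hδ hδ1 hδ2 hδ3
  have hS := hSS δ hδ hδ1
  have hS0 : 0 < SS k (1 + 2 * δ) := lt_of_lt_of_le (by positivity) hS
  have hA := (abs_le.1 (hlaw2 δ T x hδ hδ3 hT ((le_max_left _ _).trans hlog))).2
  have hF : e2 * δ ^ (-(k ^ 2)) ≤ e1 * SS k (1 + 2 * δ) := by
    rw [he2, mul_assoc]
    exact mul_le_mul_of_nonneg_left hS he10.le
  have h9 : ((1 + e1) ^ 2 + 2 * e1) * SS k (1 + 2 * δ) + e1 * SS k (1 + 2 * δ) ≤
      (1 + ε) * SS k (1 + 2 * δ) := by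
    rw [← add_mul]
    refine mul_le_mul_of_nonneg_right ?_ hS0.le
    nlinarith
  linarith

end Pool.Agent.Lib.DL
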