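import Pool.Agent.Lib.MP_f9aece_nt_dl.Stmts

/-! Row P4: mean value over the whole line of long sums, upper bound, from P4a and P4b. -/

set_option autoImplicit false

namespace Pool.Agent.Lib.DL

open MeasureTheory Set Filter Topology Complex
open Pool.Agent.Lib.NL (pt SS ML ak momL)

lemma pt_re' (δ t : ℝ) : (pt δ t).re = 1 / 2 + δ := by
  simp [pt]

lemma cont_pt' (δ : ℝ) : Continuous fun t : ℝ => pt δ t := by
  unfold pt
  fun_prop

lemma cont_cpow' (n : ℕ) (hn : 1 ≤ n) (δ : ℝ) : Continuous fun t : ℝ => (n : ℂ) ^ (-(pt δ t)) := by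
  have h0 : (n : ℂ) ≠ 0 := by
    exact_mod_cast Nat.one_le_iff_ne_zero.mp hn
  exact Continuous.const_cpow (cont_pt' δ).neg (Or.inl h0)

lemma cont_DS (δ u : ℝ) : Continuous fun t : ℝ => DS δ u t := by
  unfold DS
  refine continuous_finsetSum _ fun n hn => ?_
  exact cont_cpow' n (Finset.mem_Icc.mp hn).1 δ

lemma norm_cpow' (n : ℕ) (hn : 1 ≤ n) (δ t : ℝ) :
    ‖(n : ℂ) ^ (-(pt δ t))‖ = (n : ℝ) ^ (-(1 / 2 + δ)) := by
  have h := Complex.norm_natCast_cpow_of_pos (n := n) hn (-(pt δ t))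
  rw [h, neg_re, pt_re']

lemma cont_PE (δ : ℝ) (hδ : 0 < δ) (y : ℕ) : Continuous fun t : ℝ => PE δ y t := by
  unfold PE
  refine continuous_finsetProd _ fun p hp => ?_
  have hpp : p.Prime := (Finset.mem_filter.mp hp).2
  refine Continuous.inv₀ (continuous_const.sub (cont_cpow' p hpp.one_lt.le δ)) fun t h => ?_
  have h1 : (p : ℂ) ^ (-(pt δ t)) = 1 := (sub_eq_zero.mp h).symm
  have h2 := norm_cpow' p hpp.one_lt.le δ t
  rw [h1, norm_one] at h2
  have h3 : (p : ℝ) ^ (-(1 / 2 + δ)) < 1 :=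
    Real.rpow_lt_one_of_one_lt_of_neg (by exact_mod_cast hpp.one_lt) (by linarith)
  linarith

/-- weighted convexity of the power -/
lemma add_rpow_le' {p τ a b : ℝ} (hp : 1 ≤ p) (hτ : 0 < τ) (ha : 0 ≤ a) (hb : 0 ≤ b) :
    (a + b) ^ p ≤ (1 + τ) ^ (p - 1) * a ^ p + ((1 + τ) / τ) ^ (p - 1) * b ^ p := by
  have hc := convexOn_rpow hp
  have h1 : 0 < 1 + τ := by linarith
  have hx : (1 + τ) * a ∈ Ici (0 : ℝ) := Set.mem_Ici.mpr (by positivity)
  have hy : (1 + τ) / τ * b ∈ Ici (0 : ℝ) := Set.mem_Ici.mpr (by positivity)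
  have ha1 : 0 ≤ 1 / (1 + τ) := by positivity
  have hb1 : 0 ≤ τ / (1 + τ) := by positivity
  have h := hc.2 hx hy ha1 hb1 (by field_simp)
  simp only [smul_eq_mul] at h
  have e1 : 1 / (1 + τ) * ((1 + τ) * a) + τ / (1 + τ) * ((1 + τ) / τ * b) = a + b := by
    field_simp
  rw [e1, Real.mul_rpow h1.le ha, Real.mul_rpow (by positivity) hb] at h
  have e2 : (1 + τ) ^ p = (1 + τ) ^ (p - 1) * (1 + τ) := by
    rw [← Real.rpow_add_one h1.ne', sub_add_cancel]
  have e3 : ((1 + τ) / τ) ^ p = ((1 + τ) / τ) ^ (p - 1) * ((1 + τ) / τ) := by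
    rw [← Real.rpow_add_one (by positivity), sub_add_cancel]
  rw [e2, e3] at h
  have e4 : 1 / (1 + τ) * ((1 + τ) ^ (p - 1) * (1 + τ) * a ^ p)
      + τ / (1 + τ) * (((1 + τ) / τ) ^ (p - 1) * ((1 + τ) / τ) * b ^ p)
      = (1 + τ) ^ (p - 1) * a ^ p + ((1 + τ) / τ) ^ (p - 1) * b ^ p := by
    field_simp
  rw [e4] at h
  exact h

/-- comparison of two powers -/
lemma rpow_le_two {p P lam x : ℝ} (hp : 0 < p) (hpP : p ≤ P) (hl : 0 < lam) (hx : 0 ≤ x) :
    x ^ p ≤ lam ^ p + lam ^ (p - P) * x ^ P := by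
  rcases le_total x lam with h | h
  · have h1 : x ^ p ≤ lam ^ p := Real.rpow_le_rpow hx h hp.le
    have h2 : 0 ≤ lam ^ (p - P) * x ^ P := by positivity
    linarith
  · have hx0 : 0 < x := lt_of_lt_of_le hl h
    have h1 : x ^ p = x ^ (p - P) * x ^ P := by
      rw [← Real.rpow_add hx0, sub_add_cancel]
    have h2 : x ^ (p - P) ≤ lam ^ (p - P) := Real.rpow_le_rpow_of_nonpos hl h (by linarith)
    have h3 : x ^ (p - P) * x ^ P ≤ lam ^ (p - P) * x ^ P :=
      mul_le_mul_of_nonneg_right h2 (by positivity)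
    have h4 : 0 ≤ lam ^ p := by positivity
    linarith

lemma mean_mono {x T : ℝ} (hT : 0 < T) {f g : ℝ → ℝ} (hf : Continuous f) (hg : Continuous g)
    (h : ∀ t, f t ≤ g t) : mean x T f ≤ mean x T g := by
  unfold mean
  refine mul_le_mul_of_nonneg_left ?_ (by positivity)
  exact intervalIntegral.integral_mono_on (by linarith) (hf.intervalIntegrable _ _)
    (hg.intervalIntegrable _ _) fun t _ => h t

lemma mean_lin {x T : ℝ} (hT : 0 < T) {f g : ℝ → ℝ} (hf : Continuous f) (hg : Continuous g)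
    (a b c : ℝ) : mean x T (fun t => a * f t + (b + c * g t))
      = a * mean x T f + (b + c * mean x T g) := by
  unfold mean
  have i1 : IntervalIntegrable (fun t => a * f t) volume x (x + T) :=
    (continuous_const.mul hf).intervalIntegrable _ _
  have i2 : IntervalIntegrable (fun t => c * g t) volume x (x + T) :=
    (continuous_const.mul hg).intervalIntegrable _ _
  have i3 : IntervalIntegrable (fun _ : ℝ => b) volume x (x + T) :=
    continuous_const.intervalIntegrable _ _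
  rw [intervalIntegral.integral_add i1 (i3.add i2), intervalIntegral.integral_add i3 i2,
    intervalIntegral.integral_const_mul, intervalIntegral.integral_const_mul,
    intervalIntegral.integral_const]
  simp only [smul_eq_mul]
  have : T⁻¹ * ((x + T - x) * b) = b := by
    field_simp
    ring
  linear_combination this

theorem meanUp (ha : Far) (hb : Near) : MeanUp := by
  intro k δ ε hk hδ hε
  set Sg : ℝ := SS k (1 + 2 * δ) with hSg
  have hS0 : 0 ≤ Sg := by
    rw [hSg]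
    unfold SS
    exact tsum_nonneg fun n => by positivity
  have hk0 : 0 < k := by linarith
  have h2k : (1 : ℝ) ≤ 2 * k := by linarith
  -- choice of `τ`
  obtain ⟨τ, hτ, hτS⟩ : ∃ τ : ℝ, 0 < τ ∧ (1 + τ) ^ (2 * k - 1) * (Sg + ε / 4) ≤ Sg + ε / 2 := by
    have hc : ContinuousAt (fun τ : ℝ => (1 + τ) ^ (2 * k - 1) * (Sg + ε / 4)) 0 := by
      refine ContinuousAt.mul ?_ continuousAt_const
      exact (continuousAt_const.add continuousAt_id).rpow_const (Or.inl (by simp))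
    have hlt : (fun τ : ℝ => (1 + τ) ^ (2 * k - 1) * (Sg + ε / 4)) 0 < Sg + ε / 2 := by
      simp only [add_zero, Real.one_rpow, one_mul]
      linarith
    have h1 : ∀ᶠ τ in 𝓝 (0 : ℝ), (1 + τ) ^ (2 * k - 1) * (Sg + ε / 4) < Sg + ε / 2 :=
      hc.eventually_lt_const hlt
    obtain ⟨r, hr, hr2⟩ := Metric.eventually_nhds_iff.mp h1
    refine ⟨r / 2, by linarith, (hr2 (y := r / 2) ?_).le⟩
    rw [Real.dist_eq, sub_zero, abs_of_pos (by linarith)]
    linarith
  -- choice of `lam`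
  set A : ℝ := ((1 + τ) / τ) ^ (2 * k - 1) with hA
  have hA0 : 0 < A := by positivity
  obtain ⟨lam, hlam, hlamA⟩ : ∃ lam : ℝ, 0 < lam ∧ A * (2 * lam ^ (2 * k)) = ε / 2 := by
    refine ⟨(ε / (4 * A)) ^ (1 / (2 * k)), by positivity, ?_⟩
    rw [← Real.rpow_mul (by positivity)]
    have : 1 / (2 * k) * (2 * k) = 1 := by field_simp
    rw [this, Real.rpow_one]
    field_simp
    ring
  -- the integer exponent
  obtain ⟨q, hq⟩ := exists_nat_ge k
  have hq1 : 1 ≤ q := by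
    by_contra hcon
    have : q = 0 := by omega
    rw [this] at hq
    simp at hq
    linarith
  have hqr : (1 : ℝ) ≤ q := by exact_mod_cast hq1
  obtain ⟨y0, hy0⟩ := ha q δ (lam ^ (2 * (q : ℝ))) hq1 hδ (by positivity)
  obtain ⟨L0, hL0⟩ := hy0 y0 le_rfl
  obtain ⟨T1, hT1, hT1'⟩ := hb k δ (ε / 4) y0 hk0 hδ (by linarith)
  refine ⟨L0, fun L hL => ?_⟩
  obtain ⟨T2, hT2, hT2'⟩ := hL0 L hL
  refine ⟨max T1 T2, fun T hT => ?_⟩
  have hTa : T1 ≤ T := le_trans (le_max_left _ _) hT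
  have hTb : T2 ≤ T := le_trans (le_max_right _ _) hT
  have hTpos : 0 < T := by linarith
  have m1 := hT1' T hTa
  have m2 := hT2' T hTb
  set f : ℝ → ℝ := fun t => ‖PE δ y0 t‖ ^ (2 * k) with hf
  set g : ℝ → ℝ := fun t => ‖DS δ L t - PE δ y0 t‖ ^ (2 * (q : ℝ)) with hg
  have cf : Continuous f := (cont_PE δ hδ y0).norm.rpow_const fun _ => Or.inr (by linarith)
  have cg : Continuous g :=
    ((cont_DS δ L).sub (cont_PE δ hδ y0)).norm.rpow_const fun _ => Or.inr (by linarith)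
  have cd : Continuous fun t : ℝ => ‖DS δ L t‖ ^ (2 * k) :=
    (cont_DS δ L).norm.rpow_const fun _ => Or.inr (by linarith)
  have hpt : ∀ t, ‖DS δ L t‖ ^ (2 * k) ≤ (1 + τ) ^ (2 * k - 1) * f t
      + (A * lam ^ (2 * k) + A * lam ^ (2 * k - 2 * (q : ℝ)) * g t) := by
    intro t
    have s1 : ‖DS δ L t‖ ≤ ‖PE δ y0 t‖ + ‖DS δ L t - PE δ y0 t‖ := by
      have := norm_add_le (PE δ y0 t) (DS δ L t - PE δ y0 t)
      simpa using this
    have s2 : ‖DS δ L t‖ ^ (2 * k) ≤ (‖PE δ y0 t‖ + ‖DS δ L t - PE δ y0 t‖) ^ (2 * k) :=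
      Real.rpow_le_rpow (norm_nonneg _) s1 (by linarith)
    have s3 := add_rpow_le' h2k hτ (norm_nonneg (PE δ y0 t)) (norm_nonneg (DS δ L t - PE δ y0 t))
    have s4 := rpow_le_two (p := 2 * k) (P := 2 * (q : ℝ)) (lam := lam)
      (x := ‖DS δ L t - PE δ y0 t‖) (by linarith) (by linarith) hlam (norm_nonneg _)
    have s5 := mul_le_mul_of_nonneg_left s4 hA0.le
    simp only [hf, hg]
    rw [← hA] at s3
    linarith
  have m3 := mean_mono (x := 0) hTpos cd (g := fun t => (1 + τ) ^ (2 * k - 1) * f t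
      + (A * lam ^ (2 * k) + A * lam ^ (2 * k - 2 * (q : ℝ)) * g t))
      ((continuous_const.mul cf).add (continuous_const.add (continuous_const.mul cg))) hpt
  rw [mean_lin hTpos cf cg] at m3
  have hτ1 : 0 ≤ (1 + τ) ^ (2 * k - 1) := by positivity
  have m4 := mul_le_mul_of_nonneg_left m1 hτ1
  have hl1 : 0 ≤ A * lam ^ (2 * k - 2 * (q : ℝ)) := by positivity
  have m5 := mul_le_mul_of_nonneg_left m2 hl1
  have m6 : A * lam ^ (2 * k - 2 * (q : ℝ)) * lam ^ (2 * (q : ℝ)) = A * lam ^ (2 * k) := by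
    rw [mul_assoc, ← Real.rpow_add hlam, sub_add_cancel]
  rw [m6] at m5
  have m7 : A * lam ^ (2 * k) + A * lam ^ (2 * k) = ε / 2 := by
    rw [← hlamA]
    ring
  linarith

end Pool.Agent.Lib.DL
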