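import Mathlib
import Pool.Agent.Lib.MP_f9aece_nt_dl.Stmts
import Pool.Agent.Lib.MP_f9aece_nt_nl.A2
import Pool.Agent.Lib.MP_f9aece_nt_nl.G
import Pool.Agent.Lib.MP_f9aece_nt_nl.L
import Pool.Agent.Lib.MP_f9aece_nt_nl.O
import Pool.Agent.Lib.MP_f9aece_nt_h97.OffG

/-!
Row P4b: mean value of real powers of Euler products over the whole line.
-/

set_option autoImplicit false

namespace Pool.Agent.Lib.DL

open MeasureTheory Set Filter Topology Complex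
open Pool.Agent.Lib.NL
open Pool.Agent.Lib.MP_f9aece_nt (DP BK)
open Pool.Agent.Lib.MP_f9aece_nt_h97

namespace Nr

lemma psm_eq (y : ℕ) : (Finset.Icc 1 y).filter Nat.Prime = Psm y := by
  unfold Psm
  congr 1

lemma psm_below (y : ℕ) : Psm y = (y + 1).primesBelow := by
  ext p
  simp only [Psm, Finset.mem_filter, Finset.mem_Ioc, Nat.mem_primesBelow]
  constructor
  · rintro ⟨⟨-, h1⟩, h2⟩
    exact ⟨by omega, h2⟩
  · rintro ⟨h1, h2⟩
    exact ⟨⟨h2.pos, by omega⟩, h2⟩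

lemma PE_eq (δ : ℝ) (y : ℕ) (t : ℝ) : PE δ y t = (evs (pt δ t) (Dsm y))⁻¹ := by
  unfold PE
  rw [GSm.evs_Dsm, psm_eq, Finset.prod_inv_distrib]

lemma evs_ne {δ : ℝ} (hδ : 0 < δ) (y : ℕ) (t : ℝ) : evs (pt δ t) (Dsm y) ≠ 0 := by
  rw [GSm.evs_Dsm, Finset.prod_ne_zero_iff]
  intro p hp h0
  have h1 := GSm.norm_pow_le (OS.Psm_pr p hp) hδ.le t
  have h2 : (p : ℂ) ^ (-pt δ t) = 1 := (sub_eq_zero.mp h0).symm
  rw [h2, norm_one] at h1
  have h3 : (2 : ℝ) ^ (-(1 / 2) : ℝ) < 1 :=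
    Real.rpow_lt_one_of_one_lt_of_neg (by norm_num) (by norm_num)
  linarith

lemma norm_PE {δ : ℝ} (hδ : 0 < δ) (y : ℕ) (t k : ℝ) :
    ‖PE δ y t‖ ^ (2 * k) * ‖evs (pt δ t) (Dsm y)‖ ^ (2 * k) = 1 := by
  have h := norm_pos_iff.mpr (evs_ne hδ y t)
  rw [PE_eq, norm_inv, ← Real.mul_rpow (by positivity) h.le, inv_mul_cancel₀ h.ne', Real.one_rpow]

lemma BN_zero (k : ℝ) (K m y : ℕ) (Y : ℝ) : BN k K m y Y 0 = B0 k K y := by
  unfold BN Bm DD
  simp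

lemma F0_le_SS {N : ℕ} {k s : ℝ} (hN : 1 ≤ N) (hk0 : 0 ≤ k) (hkN : k ≤ N) (hs : 1 < s)
    (K y : ℕ) : F0 k K y s ≤ SS k s := by
  have hA : (0 : ℝ) < N := by exact_mod_cast hN
  refine (OS.F0_le hA hk0 hkN hs.le K y).trans ?_
  rw [psm_below]
  exact OS.prod_le_SS hA hk0 hkN hs.le (summable_tS hN hk0 hkN hs) (y + 1)

lemma EN_zero (k : ℝ) (K m y : ℕ) (Y s : ℝ) (hs : 1 ≤ s) : EN k K m y Y 0 s = F0 k K y s := by
  rw [(smallForms k K m y Y 0 s hs).2.2]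
  have h : BK (K1s s) (DD m y k Y 0) (DD m y k Y 0) = 1 := by
    unfold DD
    simp [BK, Pool.Agent.Lib.MP_f9aece_nt.pair, K1s]
  rw [h, mul_one]

lemma cont_evs {δ : ℝ} (hδ : 0 < δ) (D : DP) : Continuous fun t : ℝ => evs (pt δ t) D :=
  continuous_evs_line (σ := 1 / 2 + δ) (by linarith) D

lemma cont_PE {δ : ℝ} (hδ : 0 < δ) (y : ℕ) (k : ℝ) (hk : 0 < k) :
    Continuous fun t : ℝ => ‖PE δ y t‖ ^ (2 * k) := by
  refine Continuous.rpow_const ?_ fun t => Or.inr (by positivity)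
  simp only [PE_eq]
  exact ((cont_evs hδ (Dsm y)).inv₀ fun t => evs_ne hδ y t).norm

end Nr

open Nr

lemma PE_zero (δ t : ℝ) : PE δ 0 t = PE δ 1 t := by
  unfold PE
  congr 1

lemma near_pos (k δ ε : ℝ) (y : ℕ) (hk : 0 < k) (hδ : 0 < δ) (hε : 0 < ε) (hy : 1 ≤ y) :
    ∃ T0 : ℝ, 1 ≤ T0 ∧ ∀ T : ℝ,
      T0 ≤ T → mean 0 T (fun t => ‖PE δ y t‖ ^ (2 * k)) ≤ SS k (1 + 2 * δ) + ε := by
  obtain ⟨N, hN⟩ := exists_nat_ge (max 1 k)
  have hN1 : (1 : ℝ) ≤ N := (le_max_left _ _).trans hN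
  have hNn : 1 ≤ N := by exact_mod_cast hN1
  have hkN : k ≤ N := (le_max_right _ _).trans hN
  have hs : 1 < 1 + 2 * δ := by linarith
  set S := SS k (1 + 2 * δ) with hS
  have hS1 : 1 ≤ S := one_le_SS hNn hk.le hkN hs
  set e := min (1 / 2) (ε / (4 * S)) with he
  have he0 : 0 < e := lt_min (by norm_num) (by positivity)
  have he2 : e ≤ 1 / 2 := min_le_left _ _
  have heS : e * S ≤ ε / 4 := by
    have : e ≤ ε / (4 * S) := min_le_right _ _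
    calc e * S ≤ ε / (4 * S) * S := by gcongr
      _ = ε / 4 := by field_simp
  obtain ⟨K, hK⟩ := smallPt N y e he0
  have hK' := hK K le_rfl k hk.le hkN
  -- pointwise
  have hpt : ∀ t, ‖PE δ y t‖ ^ (2 * k) ≤ (1 + 2 * e) * ‖evs (pt δ t) (B0 k K y)‖ ^ 2 := by
    intro t
    have h1 := (abs_le.mp (hK' δ t hδ.le)).1
    have h2 := norm_PE hδ y t k
    set x := ‖evs (pt δ t) (B0 k K y)‖ ^ 2
    set z := ‖evs (pt δ t) (Dsm y)‖ ^ (2 * k)
    have hw0 : 0 ≤ ‖PE δ y t‖ ^ (2 * k) := by positivity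
    set w := ‖PE δ y t‖ ^ (2 * k)
    have h3 : (1 - e) * w ≤ x := by
      have : (1 - e) * w ≤ x * z * w := by
        refine mul_le_mul_of_nonneg_right ?_ hw0
        linarith
      calc (1 - e) * w ≤ x * z * w := this
        _ = x * (w * z) := by ring
        _ = x := by rw [h2, mul_one]
    have h4 : 1 ≤ (1 + 2 * e) * (1 - e) := by nlinarith
    calc w = 1 * w := (one_mul w).symm
      _ ≤ (1 + 2 * e) * (1 - e) * w := by gcongr
      _ = (1 + 2 * e) * ((1 - e) * w) := by ring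
      _ ≤ (1 + 2 * e) * x := by gcongr
  obtain ⟨C, hC1, hsz⟩ := sizes N y K hNn hy
  obtain ⟨-, -, -, hcB, haB⟩ := hsz k hk.le hkN 1 le_rfl 1 one_pos 0
  set R := 4 * Real.exp (2 * ((1 : ℕ) : ℝ) * 1 + Real.log C)
    * (C * Real.exp (N * ((0 : ℕ) : ℝ) + 2 * ((1 : ℕ) : ℝ) * 1)) ^ 2 with hR
  have hR0 : 0 ≤ R := by positivity
  refine ⟨max 1 (4 * R / ε), le_max_left _ _, fun T hT => ?_⟩
  have hT1 : 1 ≤ T := (le_max_left _ _).trans hT
  have hT0 : 0 < T := by linarith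
  have hRT : R ≤ ε / 4 * T := by
    have := (le_max_right _ _).trans hT
    rw [div_le_iff₀ hε] at this
    linarith
  have h1 := L87.mean_evs_le hT0 hδ.le hcB haB
  rw [← hR] at h1
  have h2 : BK (K1s (1 + 2 * δ)) (BN k K 1 y 1 0) (BN k K 1 y 1 0) ≤ S := by
    have := EN_zero k K 1 y 1 (1 + 2 * δ) hs.le
    unfold EN at this
    rw [this]
    exact F0_le_SS hNn hk.le hkN hs K y
  rw [BN_zero] at h1 h2
  unfold mean
  rw [zero_add]
  have h3 : ∫ t in (0 : ℝ)..T, ‖PE δ y t‖ ^ (2 * k)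
      ≤ ∫ t in (0 : ℝ)..T, (1 + 2 * e) * ‖evs (pt δ t) (B0 k K y)‖ ^ 2 := by
    refine intervalIntegral.integral_mono_on hT0.le ?_ ?_ fun t _ => hpt t
    · exact (cont_PE hδ y k hk).intervalIntegrable _ _
    · exact (((cont_evs hδ _).norm.pow 2).const_mul _).intervalIntegrable _ _
  rw [intervalIntegral.integral_const_mul] at h3
  have h4 : ∫ t in (0 : ℝ)..T, ‖PE δ y t‖ ^ (2 * k) ≤ T * (S + ε) := by
    calc ∫ t in (0 : ℝ)..T, ‖PE δ y t‖ ^ (2 * k)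
        ≤ (1 + 2 * e) * ∫ t in (0 : ℝ)..T, ‖evs (pt δ t) (B0 k K y)‖ ^ 2 := h3
      _ ≤ (1 + 2 * e) * (T * S + ε / 4 * T) := by
          gcongr
          refine h1.trans ?_
          gcongr
      _ = T * (S + ε / 4 + 2 * (e * S) + e * (ε / 2)) := by ring
      _ ≤ T * (S + ε) := by
          refine mul_le_mul_of_nonneg_left ?_ hT0.le
          have : e * (ε / 2) ≤ 1 / 2 * (ε / 2) := by gcongr
          linarith
  calc T⁻¹ * ∫ t in (0 : ℝ)..T, ‖PE δ y t‖ ^ (2 * k) ≤ T⁻¹ * (T * (S + ε)) := by gcongr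
    _ = S + ε := by field_simp

theorem near : Near := by
  intro k δ ε y hk hδ hε
  rcases Nat.eq_zero_or_pos y with rfl | hy
  · simp only [PE_zero]
    exact near_pos k δ ε 1 hk hδ hε le_rfl
  · exact near_pos k δ ε y hk hδ hε hy

end Pool.Agent.Lib.DL
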