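import Mathlib
import Pool.Agent.Lib.MP_f9aece_nt_dl.Stmts
import Pool.Agent.Lib.UFY.Fin

/-!
Row Part, from the law for the weighted partial sums.
-/

set_option autoImplicit false

namespace Pool.Agent.Lib.DL

open MeasureTheory Set Filter Topology Complex
open Pool.Agent.Lib.NL (pt)

/-- the weight of the partial sums -/
lemma wt_part : UFY.Wt 0 0 (fun _ => 0) 1 (fun _ => 1) (fun _ => 1) where
  cut := ⟨fun _ => by simp, fun _ _ => by simp, fun _ _ => rfl⟩
  pos := fun _ => one_pos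
  le := fun _ => le_rfl
  one := by simp [UFY.WJ]

lemma zs_part {L : ℝ} (hL : 0 < L) (t : ℝ) :
    MS.ZS (UFY.WJ (fun _ => 0) 1 (fun _ => 1) (fun _ => 1)) L t = DS 0 L t := by
  unfold MS.ZS DS
  refine Finset.sum_congr rfl fun n hn => ?_
  obtain ⟨hn1, hn2⟩ := Finset.mem_Icc.1 hn
  have hn0 : (0 : ℝ) < n := by exact_mod_cast hn1
  have h1 : (n : ℝ) ≤ Real.exp L := (Nat.cast_le.2 hn2).trans (Nat.floor_le (Real.exp_pos L).le)
  have h2 : Real.log n / L ≤ 1 := by
    rw [div_le_one hL]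
    exact (Real.log_le_log hn0 h1).trans (Real.log_exp L).le
  have h3 : UFY.WJ (fun _ => 0) 1 (fun _ => 1) (fun _ => 1) (Real.log n / L) = 1 := by
    simp [UFY.WJ, h2]
  have h4 : pt 0 t = 1 / 2 + I * t := by
    unfold pt
    push_cast
    ring
  rw [h3, one_mul, h4]

lemma norm_DS_le (L t : ℝ) : ‖DS 0 L t‖ ≤ Real.exp L := by
  unfold DS
  refine (norm_sum_le _ _).trans ?_
  have h1 : ∀ n ∈ Finset.Icc 1 ⌊Real.exp L⌋₊, ‖(n : ℂ) ^ (-(pt 0 t))‖ ≤ 1 := by
    intro n hn
    have hn1 : 0 < n := (Finset.mem_Icc.1 hn).1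
    rw [Complex.norm_natCast_cpow_of_pos hn1]
    have h3 : (-(pt 0 t)).re = -(1 / 2) := by simp [pt]
    rw [h3]
    exact Real.rpow_le_one_of_one_le_of_nonpos (by exact_mod_cast hn1) (by norm_num)
  refine (Finset.sum_le_sum h1).trans ?_
  rw [Finset.sum_const, Nat.card_Icc, Nat.add_sub_cancel, nsmul_eq_mul, mul_one]
  exact Nat.floor_le (Real.exp_pos L).le

theorem partOf (h : UFY.FinS) : Part := by
  intro k hk
  obtain ⟨g, hg, -, hI⟩ := h k 0 0 _ 1 _ _ hk wt_part
  obtain ⟨C1, hC1, hI⟩ := hI 1 one_pos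
  set c : ℝ := NL.ak k * g with hc
  refine ⟨max (max 1 C1) (max (c + 1) (Real.exp (2 * k * C1))),
    (le_max_left _ _).trans (le_max_left _ _), ?_⟩
  intro L T x hL hT hLT
  set C : ℝ := max (max 1 C1) (max (c + 1) (Real.exp (2 * k * C1))) with hC
  have hCC1 : C1 ≤ C := (le_max_right _ _).trans (le_max_left _ _)
  have hCc : c + 1 ≤ C := (le_max_left _ _).trans (le_max_right _ _)
  have hCe : Real.exp (2 * k * C1) ≤ C := (le_max_right _ _).trans (le_max_right _ _)
  have hL0 : 0 < L := by linarith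
  have hLk : 1 ≤ L ^ (k ^ 2) := Real.one_le_rpow hL (by positivity)
  rcases le_or_gt C1 L with h1 | h1
  · have h2 := hI L T h1 hT ((mul_le_mul_of_nonneg_right hCC1 hL0.le).trans hLT) x
    simp only [zs_part hL0] at h2
    have h3 := (abs_sub_le_iff.1 h2).1
    unfold mean
    calc T⁻¹ * ∫ t in x..(x + T), ‖DS 0 L t‖ ^ (2 * k) ≤ (c + 1) * L ^ (k ^ 2) := by linarith
      _ ≤ C * L ^ (k ^ 2) := mul_le_mul_of_nonneg_right hCc (by positivity)
  · have h2 : ∀ t : ℝ, ‖‖DS 0 L t‖ ^ (2 * k)‖ ≤ Real.exp (2 * k * C1) := by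
      intro t
      rw [Real.norm_of_nonneg (by positivity)]
      calc ‖DS 0 L t‖ ^ (2 * k) ≤ Real.exp C1 ^ (2 * k) :=
            Real.rpow_le_rpow (norm_nonneg _) ((norm_DS_le L t).trans (Real.exp_le_exp.2 h1.le))
              (by positivity)
        _ = Real.exp (2 * k * C1) := by
            rw [← Real.exp_mul]
            ring_nf
    have h3 : ‖∫ t in x..(x + T), ‖DS 0 L t‖ ^ (2 * k)‖ ≤ Real.exp (2 * k * C1) * |x + T - x| :=
      intervalIntegral.norm_integral_le_of_norm_le_const fun t _ => h2 t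
    rw [add_sub_cancel_left, abs_of_pos (by linarith : 0 < T)] at h3
    have h4 := (le_abs_self _).trans h3
    have hT0 : 0 < T := by linarith
    unfold mean
    calc T⁻¹ * ∫ t in x..(x + T), ‖DS 0 L t‖ ^ (2 * k)
        ≤ T⁻¹ * (Real.exp (2 * k * C1) * T) := mul_le_mul_of_nonneg_left h4 (by positivity)
      _ = Real.exp (2 * k * C1) := by field_simp
      _ ≤ C * 1 := by rw [mul_one]; exact hCe
      _ ≤ C * L ^ (k ^ 2) := mul_le_mul_of_nonneg_left hLk
          ((Real.exp_pos _).le.trans hCe)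

end Pool.Agent.Lib.DL
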