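import Pool.Agent.Lib.UFY.All
import Pool.Agent.Lib.MP_f9aece_nt_dl.PartOf

/-!
Row Part: moments of partial sums on the critical line, right order.
-/

set_option autoImplicit false

namespace Pool.Agent.Lib.DL

theorem part : Part := partOf Pool.Agent.UFY.xFinS

end Pool.Agent.Lib.DL
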