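import Pool.Agent.Lib.MP_f9aece_nt_dl.Stmts
import Pool.Agent.Lib.MP_f9aece_nt_nl.Final

/-!
Near-line law at every exponent, row P8: passage to the randomly shifted point.
-/

set_option autoImplicit false

namespace Pool.Agent.Lib.DL

open MeasureTheory Set Filter Topology Complex
open Pool.Agent.Lib.NL

/-- upper bound for the moments over shifted intervals, fixed order -/
theorem shiftUp1 (k : ℝ) (hk1 : 1 ≤ k) (hU : UpK k) (x ε : ℝ) (hε : 0 < ε) : ∃ C : ℝ, 1 ≤ C ∧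
    ∀ δ T : ℝ, 0 < δ → δ ≤ 1 / C → 1 ≤ T → C ≤ δ * Real.log T →
    momL (2 * k) x δ T ≤ (1 + ε) * SS k (1 + 2 * δ) := by
  obtain ⟨C1, hC1, hcore⟩ := hU (ε / 4) (by positivity)
  obtain ⟨M, hM1, hM⟩ := zeta_bdd x
  have hk0 : 0 < k := by linarith
  have hβ0 : 0 < 2 * k := by linarith
  set A0 := |x| * M ^ (2 * k) with hA0
  have hx0 : 0 ≤ |x| := abs_nonneg x
  have hA00 : 0 ≤ A0 := by positivity
  set C := max (max C1 4) ((|x| + A0 + 1) * (8 / ε + 2)) with hC
  have hCa : C1 ≤ C := (le_max_left _ _).trans (le_max_left _ _)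
  have hC4 : 4 ≤ C := (le_max_right _ _).trans (le_max_left _ _)
  have hCb : (|x| + A0 + 1) * (8 / ε + 2) ≤ C := le_max_right _ _
  refine ⟨C, by linarith, ?_⟩
  intro δ T hδ0 hδC hT1 hCT
  have hδ4 : δ ≤ 1 / 4 := hδC.trans (one_div_le_one_div_of_le (by norm_num) hC4)
  have hδ1 : δ ≤ 1 / C1 := hδC.trans (one_div_le_one_div_of_le (by linarith) hCa)
  have hTp : 0 < T := by linarith
  have hlogT0 : 0 ≤ Real.log T := Real.log_nonneg hT1
  have hlogT : 4 * C ≤ Real.log T := by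
    have : δ * Real.log T ≤ 1 / 4 * Real.log T := by gcongr
    linarith
  have hTC : C ≤ T := by
    have h1 := Real.log_le_sub_one_of_pos hTp
    linarith
  have hTb : (|x| + A0 + 1) * (8 / ε + 2) ≤ T := hCb.trans hTC
  have hTx : 2 * |x| + 2 ≤ T := by
    have h2 : (|x| + A0 + 1) * 2 ≤ (|x| + A0 + 1) * (8 / ε + 2) := by
      apply mul_le_mul_of_nonneg_left _ (by positivity)
      have : 0 < 8 / ε := by positivity
      linarith
    linarith
  have hTε : 8 * (|x| + A0) ≤ ε * T := by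
    have h2 : (|x| + A0) * (8 / ε) ≤ T := by
      refine le_trans ?_ hTb
      have : 0 < 8 / ε := by positivity
      exact mul_le_mul (by linarith) (by linarith) this.le (by positivity)
    have h3 : (|x| + A0) * (8 / ε) * ε = 8 * (|x| + A0) := by field_simp
    rw [← h3]
    calc (|x| + A0) * (8 / ε) * ε ≤ T * ε := by gcongr
      _ = _ := by ring
  obtain ⟨N, hN1, hkN⟩ : ∃ N : ℕ, 1 ≤ N ∧ k ≤ N := by
    refine ⟨⌈k⌉₊, Nat.one_le_ceil_iff.2 hk0, Nat.le_ceil k⟩
  set S := SS k (1 + 2 * δ) with hS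
  have hS2 : 1 ≤ S := one_le_SS hN1 hk0.le hkN (by linarith)
  set F : ℝ → ℝ := fun t => ‖riemannZeta (pt δ t)‖ ^ (2 * k) with hFd
  have cz := continuous_zeta_pt (δ := δ) (by linarith)
  have hFc : Continuous F := cz.norm.rpow_const fun _ => Or.inr hβ0.le
  have hF0 : ∀ t, 0 ≤ F t := fun t => by rw [hFd]; positivity
  have hFM : ∀ t, |t| ≤ |x| → F t ≤ M ^ (2 * k) := by
    intro t ht
    exact Real.rpow_le_rpow (norm_nonneg _) (hM δ t hδ0.le hδ4 ht) hβ0.le
  have hM0 : 0 ≤ M ^ (2 * k) := by positivity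
  have hedge : ∀ a b : ℝ, a ≤ b → -|x| ≤ a → b ≤ |x| → b - a ≤ |x| → ∫ t in a..b, F t ≤ A0 := by
    intro a b hab ha hb hba
    calc ∫ t in a..b, F t ≤ ∫ t in a..b, (fun _ => M ^ (2 * k)) t := by
          refine intervalIntegral.integral_mono_on hab (hFc.intervalIntegrable _ _)
            (continuous_const.intervalIntegrable _ _) fun t ht => hFM t ?_
          rw [abs_le]
          exact ⟨ha.trans ht.1, ht.2.trans hb⟩
      _ = (b - a) * M ^ (2 * k) := by simp
      _ ≤ A0 := by rw [hA0]; gcongr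
  have hint : ∀ a b : ℝ, IntervalIntegrable F volume a b := fun a b => hFc.intervalIntegrable _ _
  have hMLeq : ∀ U : ℝ, ML k δ U = ∫ t in (0 : ℝ)..U, F t := fun U => rfl
  rw [momL_eq hTp, div_le_iff₀ hTp]
  have hT2 : 1 ≤ T + |x| := by linarith
  have hC1T : C1 ≤ δ * Real.log (T + |x|) := by
    have h2 : Real.log T ≤ Real.log (T + |x|) := Real.log_le_log hTp (by linarith)
    have h4 : δ * Real.log T ≤ δ * Real.log (T + |x|) := by gcongr
    linarith
  have hup' := hcore δ (T + |x|) hδ0 hδ1 hT2 hC1T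
  rw [← hS, hMLeq] at hup'
  have h3 : ∫ t in x..(x + T), F t ≤ ∫ t in (-|x|)..(T + |x|), F t := by
    refine intervalIntegral.integral_mono_interval (neg_abs_le x) (by linarith) ?_ ?_ (hint _ _)
    · have := le_abs_self x
      linarith
    · exact Eventually.of_forall fun t => hF0 t
  have h4 : ∫ t in (-|x|)..0, F t ≤ A0 :=
    hedge (-|x|) 0 (by linarith) le_rfl (by linarith) (by linarith)
  have h5 := intervalIntegral.integral_add_adjacent_intervals (hint (-|x|) 0) (hint 0 (T + |x|))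
  have h6 : ∫ t in x..(x + T), F t ≤ A0 + (1 + ε / 4) * ((T + |x|) * S) := by linarith
  have h7 : 8 * (|x| + A0) * S ≤ ε * T * S := by gcongr
  have h8 : A0 ≤ 2 * A0 * S := by nlinarith
  have hxT : |x| ≤ T := by linarith
  have h9 : ε / 4 * (|x| * S) ≤ ε / 4 * (T * S) := by gcongr
  nlinarith

/-- passage to the randomly shifted point -/
theorem shiftK : ShiftK := by
  intro k hk1 hU x ε hε
  set η := min (ε / 4) (1 / 4) with hη
  have hη0 : 0 < η := by positivity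
  have hη1 : η ≤ ε / 4 := min_le_left _ _
  have hη2 : η ≤ 1 / 4 := min_le_right _ _
  have hk0 : 0 < k := by linarith
  obtain ⟨N, hN1, hkN⟩ : ∃ N : ℕ, 1 ≤ N ∧ k ≤ N :=
    ⟨⌈k⌉₊, Nat.one_le_ceil_iff.2 hk0, Nat.le_ceil k⟩
  obtain ⟨C1, hC1, h1⟩ := shiftUp1 k hk1 hU x η hη0
  obtain ⟨δ0, hδ0, h2⟩ := main_term N hN1 η hη0
  refine ⟨max C1 (1 / δ0), hC1.trans (le_max_left _ _), ?_⟩
  intro δ T hδ hδC hT hCT
  have hCC1 : C1 ≤ max C1 (1 / δ0) := le_max_left _ _
  have hCδ : 1 / δ0 ≤ max C1 (1 / δ0) := le_max_right _ _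
  have hδ1 : δ ≤ 1 / C1 := hδC.trans (one_div_le_one_div_of_le (by linarith) hCC1)
  have hδδ : δ ≤ δ0 := by
    refine hδC.trans ((one_div_le_one_div_of_le (by positivity) hCδ).trans ?_)
    rw [one_div_one_div]
  have hup := h1 δ T hδ hδ1 hT (hCC1.trans hCT)
  obtain ⟨-, m2⟩ := h2 k hk0.le hkN δ hδ hδδ
  have hA0 : 0 < ak k := ak_pos hN1 hk0.le hkN
  set A := ak k with hAdef
  set S := SS k (1 + 2 * δ) with hS
  have hD' : 0 < (2 * δ) ^ (k ^ 2) := Real.rpow_pos_of_pos (by positivity) _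
  have hinv : (2 * δ) ^ (-(k ^ 2)) = ((2 * δ) ^ (k ^ 2))⁻¹ := Real.rpow_neg (by positivity) _
  set D := (2 * δ) ^ (k ^ 2) with hDdef
  rw [hinv]
  have b2 : S ≤ (1 + 2 * η) * (A * D⁻¹) := by
    have e1 : Real.exp η ≤ 1 + 2 * η := by
      have h3 := Real.one_sub_le_exp_neg η
      rw [Real.exp_neg] at h3
      have h4 : Real.exp η ≤ (1 - η)⁻¹ := by
        rw [le_inv_comm₀ (Real.exp_pos _) (by linarith)]
        exact h3
      refine h4.trans ?_
      rw [inv_le_iff_one_le_mul₀ (by linarith)]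
      nlinarith
    have e2 : D * S ≤ (1 + 2 * η) * A := m2.trans (mul_le_mul_of_nonneg_right e1 hA0.le)
    calc S = (D * S) * D⁻¹ := by field_simp
      _ ≤ ((1 + 2 * η) * A) * D⁻¹ := mul_le_mul_of_nonneg_right e2 (by positivity)
      _ = _ := by ring
  have hX : 0 < A * D⁻¹ := by positivity
  set X := A * D⁻¹ with hXdef
  refine hup.trans ?_
  have h3 : (1 + η) * S ≤ (1 + η) * ((1 + 2 * η) * X) := mul_le_mul_of_nonneg_left b2 (by linarith)
  have h4 : (1 + η) * ((1 + 2 * η) * X) ≤ (1 + ε) * X := by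
    have h5 : (1 + η) * (1 + 2 * η) ≤ 1 + ε := by nlinarith
    calc (1 + η) * ((1 + 2 * η) * X) = ((1 + η) * (1 + 2 * η)) * X := by ring
      _ ≤ _ := mul_le_mul_of_nonneg_right h5 hX.le
  exact h3.trans h4

end Pool.Agent.Lib.DL
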