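import Mathlib
import Pool.Agent.Lib.MP_f9aece_nt_dl.Main
import Pool.Agent.Lib.MP_f9aece_nt_dl.Ev
import Pool.Agent.Lib.MP_f9aece_nt_dl.Part
import Pool.Agent.Lib.MP_f9aece_nt_dl.Blk
import Pool.Agent.Lib.MP_f9aece_nt_dl.Law
import Pool.Agent.Lib.MP_f9aece_nt_dl.Far
import Pool.Agent.Lib.MP_f9aece_nt_dl.Near
import Pool.Agent.Lib.MP_f9aece_nt_dl.MeanUp
import Pool.Agent.Lib.MP_f9aece_nt_dl.MainS
import Pool.Agent.Lib.MP_f9aece_nt_dl.KErr
import Pool.Agent.Lib.MP_f9aece_nt_dl.UpAll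
import Pool.Agent.Lib.MP_f9aece_nt_dl.ShiftK
import Pool.Agent.Lib.MP_f9aece_nt_dl.HBof

/-!
Near-line law at every exponent: assembly.
-/

set_option autoImplicit false

namespace Pool.Agent.Lib.DL

open Pool.Agent.Lib.NL (ak momL)

theorem upAllFull : UpAll :=
  upAll ev (blk part) (mainS (blk part) law (meanUp far near)) kErr

/-- a bound at one bounded distance gives the upper half of the law -/
theorem upperOfBounded {β x K : ℝ} (hβ : 2 ≤ β)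
    (hK : 0 ≤ K) (hb : LFA.BoundedAt β x K) (x' ε : ℝ) (hε : 0 < ε) :
    ∃ C : ℝ, 1 ≤ C ∧ ∀ δ T : ℝ, 0 < δ → δ ≤ 1 / C → 1 ≤ T → C ≤ δ * Real.log T →
      momL β x' δ T ≤ (1 + ε) * (ak (β / 2) * (2 * δ) ^ (-(β ^ 2 / 4))) :=
  upper_of_bounded upAllFull shiftK hBof hβ hK hb x' ε hε

end Pool.Agent.Lib.DL
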