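import Mathlib
import Pool.Agent.Lib.MP_f9aece_nt_dl.Stmts
import Pool.Agent.Lib.UFY.FinZ

/-!
Row P3: the law for the sum of length `e^(Λ/δ)` at distance `δ`, from the law for weighted sums, with
the weight `exp (-Λ y)` on `[0,1]`.
-/

set_option autoImplicit false

namespace Pool.Agent.Lib.DL

open MeasureTheory Set Filter Topology Complex
open Pool.Agent.Lib

namespace Lw

/-- the weight -/
noncomputable def We (Λ y : ℝ) : ℂ := if y ≤ 1 then ((Real.exp (-(Λ * y)) : ℝ) : ℂ) else 0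

/-- its Lipschitz part -/
noncomputable def wL (Λ y : ℝ) : ℂ :=
  ((Real.exp (-(Λ * min y 1)) - Real.exp (-Λ) : ℝ) : ℂ)

lemma exp_lip {Λ x y : ℝ} (hΛ : 0 < Λ) (hx : 0 ≤ x) (hxy : x ≤ y) :
    |Real.exp (-(Λ * x)) - Real.exp (-(Λ * y))| ≤ Λ * (y - x) := by
  have h1 : Real.exp (-(Λ * y)) ≤ Real.exp (-(Λ * x)) := by
    apply Real.exp_le_exp.mpr
    nlinarith
  rw [abs_of_nonneg (by linarith)]
  have h2 : Real.exp (-(Λ * y)) = Real.exp (-(Λ * x)) * Real.exp (-(Λ * (y - x))) := by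
    rw [← Real.exp_add]
    congr 1
    ring
  have h3 := Real.add_one_le_exp (-(Λ * (y - x)))
  have h4 : Real.exp (-(Λ * x)) ≤ 1 := by
    apply Real.exp_le_one_iff.mpr
    have : 0 ≤ Λ * x := by positivity
    linarith
  have h5 := Real.exp_pos (-(Λ * x))
  have h6 : 0 ≤ Λ * (y - x) := mul_nonneg hΛ.le (by linarith)
  rw [h2]
  calc Real.exp (-(Λ * x)) - Real.exp (-(Λ * x)) * Real.exp (-(Λ * (y - x)))
      = Real.exp (-(Λ * x)) * (1 - Real.exp (-(Λ * (y - x)))) := by ring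
    _ ≤ Real.exp (-(Λ * x)) * (Λ * (y - x)) := by
        refine mul_le_mul_of_nonneg_left ?_ h5.le
        linarith
    _ ≤ 1 * (Λ * (y - x)) := by gcongr
    _ = _ := one_mul _

lemma wL_lip {Λ : ℝ} (hΛ : 0 < Λ) (x y : ℝ) (hx : 0 ≤ x) (hy : 0 ≤ y) :
    ‖wL Λ x - wL Λ y‖ ≤ Λ * |x - y| := by
  have key : ∀ x y : ℝ, 0 ≤ x → 0 ≤ y → x ≤ y → ‖wL Λ x - wL Λ y‖ ≤ Λ * |x - y| := by
    intro x y hx hy hxy
    unfold wL
    rw [← Complex.ofReal_sub, Complex.norm_real, Real.norm_eq_abs]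
    have e : Real.exp (-(Λ * min x 1)) - Real.exp (-Λ) - (Real.exp (-(Λ * min y 1)) - Real.exp (-Λ))
        = Real.exp (-(Λ * min x 1)) - Real.exp (-(Λ * min y 1)) := by ring
    rw [e]
    refine (exp_lip hΛ (le_min hx zero_le_one) (min_le_min_right 1 hxy)).trans ?_
    refine mul_le_mul_of_nonneg_left ?_ hΛ.le
    rw [abs_of_nonpos (by linarith)]
    rcases le_total y 1 with h | h
    · rw [min_eq_left h, min_eq_left (hxy.trans h)]
      linarith
    · rw [min_eq_right h]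
      rcases le_total x 1 with h2 | h2
      · rw [min_eq_left h2]
        linarith
      · rw [min_eq_right h2]
        linarith
  rcases le_total x y with h | h
  · exact key x y hx hy h
  · rw [norm_sub_rev, abs_sub_comm]
    exact key y x hy hx h

lemma wL_zero (Λ x : ℝ) (hx : 1 ≤ x) : wL Λ x = 0 := by
  unfold wL
  rw [min_eq_right hx, mul_one, sub_self, Complex.ofReal_zero]

lemma We_eq (Λ x : ℝ) (_hx : 0 ≤ x) : We Λ x = wL Λ x
    + ∑ j ∈ Finset.range 1, (fun _ : ℕ => ((Real.exp (-Λ) : ℝ) : ℂ)) j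
      * (if x ≤ (fun _ : ℕ => (1 : ℝ)) j then 1 else 0) := by
  rw [Finset.sum_range_one]
  unfold We wL
  by_cases h : x ≤ 1
  · simp only [if_pos h, min_eq_left h]
    push_cast
    ring
  · simp only [if_neg h]
    rw [min_eq_right (not_le.mp h).le]
    simp

/-- the sum at distance `δ` is the weighted sum -/
lemma DS_eq {Λ δ : ℝ} (hΛ : 0 < Λ) (hδ : 0 < δ) (t : ℝ) :
    DS δ (Λ / δ) t = MS.ZS (We Λ) (Λ / δ) t := by
  unfold DS MS.ZS
  refine Finset.sum_congr rfl fun n hn => ?_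
  rw [Finset.mem_Icc] at hn
  have hn0 : (0 : ℝ) < n := by exact_mod_cast hn.1
  have hL : 0 < Λ / δ := by positivity
  have h1 : (n : ℝ) ≤ Real.exp (Λ / δ) := (Nat.le_floor_iff (Real.exp_pos _).le).mp hn.2
  have h2 : Real.log n ≤ Λ / δ := by
    rw [Real.log_le_iff_le_exp hn0]
    exact h1
  have h3 : Real.log n / (Λ / δ) ≤ 1 := (div_le_one hL).mpr h2
  unfold We
  rw [if_pos h3]
  have e1 : Λ * (Real.log n / (Λ / δ)) = δ * Real.log n := by
    field_simp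
  rw [e1]
  have hnc : (n : ℂ) ≠ 0 := by exact_mod_cast hn0.ne'
  have e2 : ((Real.exp (-(δ * Real.log n)) : ℝ) : ℂ) = (n : ℂ) ^ (-(δ : ℂ)) := by
    rw [Complex.cpow_def_of_ne_zero hnc, ← Complex.natCast_log, Complex.ofReal_exp]
    congr 1
    push_cast
    ring
  rw [e2, ← Complex.cpow_add _ _ hnc]
  congr 1
  unfold NL.pt
  push_cast
  ring

end Lw

open Lw

theorem law_of (h : Pool.Agent.UFY.FinZ) : Law := by
  intro k Λ hk hΛ
  obtain ⟨g, hg, -, hI, -⟩ := h k (We Λ) hk Λ (wL Λ) 1 (fun _ => ((Real.exp (-Λ) : ℝ) : ℂ))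
    (fun _ => 1) (wL_lip hΛ) (wL_zero Λ) (fun _ _ => ⟨one_pos, le_rfl⟩)
    (by simp [We]) (We_eq Λ)
  obtain ⟨N0, hN0⟩ := exists_nat_ge k
  have hak : 0 < NL.ak k := NL.ak_pos (N := N0 + 1) (by omega) hk.le (by push_cast; linarith)
  have hP : 0 < Λ ^ (k ^ 2) := Real.rpow_pos_of_pos hΛ _
  refine ⟨NL.ak k * g * Λ ^ (k ^ 2), by positivity, fun ε hε => ?_⟩
  obtain ⟨C, hC, hC'⟩ := hI (ε / Λ ^ (k ^ 2)) (by positivity)
  refine ⟨max 1 (max (C / Λ) (C * Λ)), le_max_left _ _, fun δ T x hδ hδC hT hCT => ?_⟩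
  set M := max 1 (max (C / Λ) (C * Λ)) with hM
  have hM1 : 1 ≤ M := le_max_left _ _
  have hM0 : 0 < M := by linarith
  have hM2 : C / Λ ≤ M := (le_max_left _ _).trans (le_max_right _ _)
  have hM3 : C * Λ ≤ M := (le_max_right _ _).trans (le_max_right _ _)
  have hL : C ≤ Λ / δ := by
    rw [le_div_iff₀ hδ]
    rw [div_le_iff₀ hΛ] at hM2
    have h1 : δ * M ≤ 1 := by
      rw [le_div_iff₀ hM0] at hδC
      exact hδC
    calc C * δ ≤ M * Λ * δ := by gcongr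
      _ = (δ * M) * Λ := by ring
      _ ≤ 1 * Λ := by gcongr
      _ = Λ := one_mul _
  have hlog : C * (Λ / δ) ≤ Real.log T := by
    have : C * Λ ≤ δ * Real.log T := hM3.trans hCT
    rw [← mul_div_assoc, div_le_iff₀ hδ]
    linarith
  have h1 := hC' (Λ / δ) T hL hT hlog x
  have e1 : (Λ / δ) ^ (k ^ 2) = Λ ^ (k ^ 2) * δ ^ (-(k ^ 2)) := by
    rw [Real.div_rpow hΛ.le hδ.le, Real.rpow_neg hδ.le, div_eq_mul_inv]
  rw [e1] at h1
  have e2 : ε / Λ ^ (k ^ 2) * (Λ ^ (k ^ 2) * δ ^ (-(k ^ 2))) = ε * δ ^ (-(k ^ 2)) := by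
    field_simp
  have e3 : NL.ak k * g * (Λ ^ (k ^ 2) * δ ^ (-(k ^ 2))) = NL.ak k * g * Λ ^ (k ^ 2) * δ ^ (-(k ^ 2)) := by
    ring
  rw [e2, e3] at h1
  unfold mean
  simp only [DS_eq hΛ hδ]
  exact h1

end Pool.Agent.Lib.DL
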