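import Mathlib
import Pool.Agent.Lib.MP_f9aece_nt_dl.Stmts
import Pool.Agent.Lib.MP_f9aece_nt_n4.D6

/-!
Lemmas for the upper half of the near-line law.
-/

set_option autoImplicit false

namespace Pool.Agent.Lib.DL

open MeasureTheory Set Filter Topology Complex
open Pool.Agent.Lib.NL (pt)

namespace UpLem

/-- a power of a sum of two terms -/
lemma rpow_two {q ε : ℝ} (hq : 1 ≤ q) (hε : 0 < ε) : ∃ D : ℝ, 0 < D ∧ ∀ x y : ℝ, 0 ≤ x → 0 ≤ y →
    (x + y) ^ q ≤ (1 + ε) * x ^ q + D * y ^ q := by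
  have hq0 : 0 < q := by linarith
  obtain ⟨l, hl⟩ : ∃ l : ℝ, l = ε / (q * (1 + ε)) := ⟨_, rfl⟩
  have hl0 : 0 < l := by rw [hl]; positivity
  have hlq : q * l = ε / (1 + ε) := by rw [hl]; field_simp
  have hle : ε / (1 + ε) < 1 := by rw [div_lt_one (by positivity)]; linarith
  have hl1 : l < 1 := by nlinarith
  have hm0 : 0 < 1 - l := by linarith
  refine ⟨l * (1 / l ^ q), by positivity, fun x y hx hy => ?_⟩
  have h := (convexOn_rpow hq).2 (x := x / (1 - l)) (y := y / l)
    (by rw [mem_Ici]; positivity) (by rw [mem_Ici]; positivity) hm0.le hl0.le (by ring)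
  simp only [smul_eq_mul] at h
  have e1 : (1 - l) * (x / (1 - l)) + l * (y / l) = x + y := by field_simp
  rw [e1, Real.div_rpow hx hm0.le, Real.div_rpow hy hl0.le] at h
  refine h.trans ?_
  have hxq : 0 ≤ x ^ q := Real.rpow_nonneg hx q
  have hyq : 0 ≤ y ^ q := Real.rpow_nonneg hy q
  have h1 : 1 - q * l ≤ (1 - l) ^ q := by
    have := one_add_mul_self_le_rpow_one_add (s := -l) (by linarith) hq
    have e : 1 + -l = 1 - l := by ring
    rw [e] at this
    linarith
  have h2 : (1 - l) * (1 / (1 - l) ^ q) ≤ 1 + ε := by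
    have h3 : 0 < (1 - l) ^ q := Real.rpow_pos_of_pos hm0 q
    rw [mul_one_div, div_le_iff₀ h3]
    have h4 : 1 / (1 + ε) ≤ (1 - l) ^ q := by
      refine le_trans (le_of_eq ?_) h1
      rw [hlq]
      field_simp
      ring
    have h5 : 1 ≤ (1 + ε) * (1 - l) ^ q := by
      rw [div_le_iff₀ (by positivity)] at h4
      linarith
    linarith
  calc (1 - l) * (x ^ q / (1 - l) ^ q) + l * (y ^ q / l ^ q)
      = ((1 - l) * (1 / (1 - l) ^ q)) * x ^ q + (l * (1 / l ^ q)) * y ^ q := by ring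
    _ ≤ (1 + ε) * x ^ q + (l * (1 / l ^ q)) * y ^ q := by gcongr

/-- a power of a sum of three terms -/
lemma three_rpow {a b c q : ℝ} (ha : 0 ≤ a) (hb : 0 ≤ b) (hc : 0 ≤ c) (hq : 0 ≤ q) :
    (a + b + c) ^ q ≤ 3 ^ q * (a ^ q + b ^ q + c ^ q) := by
  obtain ⟨m, hm⟩ : ∃ m : ℝ, m = max a (max b c) := ⟨_, rfl⟩
  have h1 : a ≤ m := by rw [hm]; exact le_max_left _ _
  have h2 : b ≤ m := by rw [hm]; exact (le_max_left _ _).trans (le_max_right _ _)
  have h3 : c ≤ m := by rw [hm]; exact (le_max_right _ _).trans (le_max_right _ _)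
  have hm0 : 0 ≤ m := ha.trans h1
  have h4 : m ^ q ≤ a ^ q + b ^ q + c ^ q := by
    have ha' := Real.rpow_nonneg ha q
    have hb' := Real.rpow_nonneg hb q
    have hc' := Real.rpow_nonneg hc q
    have h5 : m = a ∨ m = b ∨ m = c := by
      rw [hm]
      rcases max_choice a (max b c) with h | h
      · left; exact h
      · rcases max_choice b c with h' | h'
        · right; left; rw [h, h']
        · right; right; rw [h, h']
    rcases h5 with h | h | h <;> rw [h] <;> linarith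
  calc (a + b + c) ^ q ≤ (3 * m) ^ q := Real.rpow_le_rpow (by positivity) (by linarith) hq
    _ = 3 ^ q * m ^ q := Real.mul_rpow (by norm_num) hm0
    _ ≤ _ := by gcongr

/-- Jensen and Fubini -/
lemma avg_le {a b q B M : ℝ} {S : Set ℝ} (hSm : MeasurableSet S) (hSf : volume S ≠ ⊤)
    (hab : a < b) (hq : 1 ≤ q)
    {G : ℝ → ℝ → ℝ} (hG0 : ∀ t x, 0 ≤ G t x) (hGm : Measurable (Function.uncurry G))
    (hGb : ∀ t ∈ S, ∀ x ∈ Ioc a b, G t x ≤ M)
    (hI : ∀ x ∈ Ioc a b, ∫ t in S, G t x ^ q ≤ B) :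
    IntegrableOn (fun t : ℝ => ((1 / (b - a)) * ∫ x in a..b, G t x) ^ q) S ∧
    ∫ t in S, ((1 / (b - a)) * ∫ x in a..b, G t x) ^ q ≤ B := by
  have hm : 0 < b - a := by linarith
  have hq0 : 0 ≤ q := by linarith
  have hXf : volume (Ioc a b) ≠ ⊤ := by rw [Real.volume_Ioc]; exact ENNReal.ofReal_ne_top
  obtain ⟨F, hF⟩ : ∃ F : ℝ → ℝ → ℝ, F = fun t x => G t x ^ q := ⟨_, rfl⟩
  have hF0 : ∀ t x, 0 ≤ F t x := fun t x => by
    rw [hF]
    exact Real.rpow_nonneg (hG0 t x) q
  have hFm : Measurable (Function.uncurry F) := by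
    rw [hF]
    exact hGm.pow_const q
  have hFle : ∀ t ∈ S, ∀ x ∈ Ioc a b, F t x ≤ M ^ q := by
    intro t ht x hx
    rw [hF]
    exact Real.rpow_le_rpow (hG0 t x) (hGb t ht x hx) hq0
  have hprod : Integrable (Function.uncurry F)
      ((volume.restrict S).prod (volume.restrict (Ioc a b))) := by
    rw [Measure.prod_restrict]
    refine Measure.integrableOn_of_bounded (M := M ^ q) ?_ hFm.aestronglyMeasurable ?_
    · rw [Measure.prod_prod]
      exact ENNReal.mul_ne_top hSf hXf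
    · filter_upwards [ae_restrict_mem (hSm.prod measurableSet_Ioc)] with p hp
      change ‖F p.1 p.2‖ ≤ _
      rw [Real.norm_eq_abs, abs_of_nonneg (hF0 p.1 p.2)]
      exact hFle p.1 hp.1 p.2 hp.2
  obtain ⟨A, hA⟩ : ∃ A : ℝ → ℝ,
      A = fun t => ((1 / (b - a)) * ∫ x in a..b, G t x) ^ q := ⟨_, rfl⟩
  have hIm : Measurable fun t => ∫ x in a..b, G t x := by
    simp only [intervalIntegral.integral_of_le hab.le]
    exact (hGm.stronglyMeasurable.integral_prod_right'
      (ν := volume.restrict (Ioc a b))).measurable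
  have hAm : Measurable A := by
    rw [hA]
    exact (hIm.const_mul _).pow_const q
  have hA0 : ∀ t, 0 ≤ A t := by
    intro t
    rw [hA]
    refine Real.rpow_nonneg (mul_nonneg (by positivity) ?_) q
    exact intervalIntegral.integral_nonneg hab.le fun x _ => hG0 t x
  have hAle : ∀ t ∈ S, A t ≤ 1 / (b - a) * ∫ x in Ioc a b, F t x := by
    intro t ht
    have hGmt : Measurable (G t) := hGm.of_uncurry_left
    have hg1 : IntegrableOn (G t) (Ioc a b) := by
      refine Measure.integrableOn_of_bounded (M := M) hXf hGmt.aestronglyMeasurable ?_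
      filter_upwards [ae_restrict_mem measurableSet_Ioc] with x hx
      rw [Real.norm_eq_abs, abs_of_nonneg (hG0 t x)]
      exact hGb t ht x hx
    have hg2 : IntegrableOn (fun x => G t x ^ q) (Ioc a b) := by
      refine Measure.integrableOn_of_bounded (M := M ^ q) hXf
        (hGmt.pow_const q).aestronglyMeasurable ?_
      filter_upwards [ae_restrict_mem measurableSet_Ioc] with x hx
      rw [Real.norm_eq_abs, abs_of_nonneg (Real.rpow_nonneg (hG0 t x) q)]
      exact Real.rpow_le_rpow (hG0 t x) (hGb t ht x hx) hq0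
    have h1 := Pool.Agent.Lib.N4.L3.jensen_Ioc hab.le hq (hG0 t) hg1 hg2
    have hI0 : 0 ≤ ∫ x in Ioc a b, G t x := setIntegral_nonneg measurableSet_Ioc fun x _ => hG0 t x
    rw [hA, hF]
    simp only
    rw [intervalIntegral.integral_of_le hab.le, Real.mul_rpow (by positivity) hI0]
    calc (1 / (b - a)) ^ q * (∫ x in Ioc a b, G t x) ^ q
        ≤ (1 / (b - a)) ^ q * ((b - a) ^ (q - 1) * ∫ x in Ioc a b, G t x ^ q) :=
          mul_le_mul_of_nonneg_left h1 (by positivity)
      _ = 1 / (b - a) * ∫ x in Ioc a b, G t x ^ q := by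
          rw [← mul_assoc, Real.div_rpow zero_le_one hm.le, Real.one_rpow,
            Real.rpow_sub_one hm.ne']
          have : (b - a) ^ q ≠ 0 := (Real.rpow_pos_of_pos hm q).ne'
          field_simp
  have hHi : IntegrableOn (fun t => ∫ x in Ioc a b, F t x) S := hprod.integral_prod_left
  have hAi : IntegrableOn A S := by
    refine (hHi.const_mul (1 / (b - a))).mono' hAm.aestronglyMeasurable ?_
    filter_upwards [ae_restrict_mem hSm] with t ht
    rw [Real.norm_eq_abs, abs_of_nonneg (hA0 t)]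
    exact hAle t ht
  refine ⟨by rw [← hA]; exact hAi, ?_⟩
  have e2 : (∫ t in S, ((1 / (b - a)) * ∫ x in a..b, G t x) ^ q) = ∫ t in S, A t := by
    rw [hA]
  rw [e2]
  calc ∫ t in S, A t ≤ ∫ t in S, 1 / (b - a) * ∫ x in Ioc a b, F t x :=
        setIntegral_mono_on hAi (hHi.const_mul _) hSm hAle
    _ = 1 / (b - a) * ∫ t in S, ∫ x in Ioc a b, F t x := integral_const_mul _ _
    _ = 1 / (b - a) * ∫ x in Ioc a b, ∫ t in S, F t x := by rw [integral_integral_swap hprod]
    _ ≤ 1 / (b - a) * ∫ x in Ioc a b, B := by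
        refine mul_le_mul_of_nonneg_left ?_ (by positivity)
        refine setIntegral_mono_on hprod.integral_prod_right (integrableOn_const hXf)
          measurableSet_Ioc fun x hx => ?_
        refine le_trans (le_of_eq ?_) (hI x hx)
        rw [hF]
    _ = B := by
        rw [setIntegral_const, Real.volume_real_Ioc_of_le hab.le, smul_eq_mul]
        field_simp

/-! ### partial sums -/

/-- the partial sum with `N` terms -/
noncomputable def PS (δ : ℝ) (N : ℕ) (t : ℝ) : ℂ := ∑ n ∈ Finset.Icc 1 N, (n : ℂ) ^ (-(pt δ t))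

lemma DS_eq (δ u t : ℝ) : DS δ u t = PS δ ⌊Real.exp u⌋₊ t := rfl

lemma PS_cont (δ : ℝ) (N : ℕ) : Continuous (PS δ N) := by
  unfold PS
  refine continuous_finsetSum _ fun n hn => ?_
  have hn1 : n ≠ 0 := by
    have := (Finset.mem_Icc.1 hn).1
    omega
  have h : Continuous fun t : ℝ => -(pt δ t) := by
    unfold Pool.Agent.Lib.NL.pt
    fun_prop
  exact h.const_cpow (Or.inl (by exact_mod_cast hn1))

lemma PS_le {δ : ℝ} (hδ : 0 ≤ δ) (N : ℕ) (t : ℝ) : ‖PS δ N t‖ ≤ N := by
  unfold PS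
  refine (norm_sum_le _ _).trans ?_
  have h1 : ∀ n ∈ Finset.Icc 1 N, ‖(n : ℂ) ^ (-(pt δ t))‖ ≤ 1 := by
    intro n hn
    have hn1 : 0 < n := (Finset.mem_Icc.1 hn).1
    rw [Complex.norm_natCast_cpow_of_pos hn1]
    have h3 : (-pt δ t).re = -(1 / 2 + δ) := by simp [pt]
    rw [h3]
    exact Real.rpow_le_one_of_one_le_of_nonpos (by exact_mod_cast hn1) (by linarith)
  refine (Finset.sum_le_sum h1).trans ?_
  simp

lemma DS_cont (δ u : ℝ) : Continuous (DS δ u) := PS_cont δ _

lemma DS_le {δ : ℝ} (hδ : 0 ≤ δ) (u t : ℝ) : ‖DS δ u t‖ ≤ Real.exp u := by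
  rw [DS_eq]
  exact (PS_le hδ _ t).trans (Nat.floor_le (Real.exp_pos u).le)

/-- the difference of two sums -/
noncomputable def Gd (δ L t x : ℝ) : ℝ := ‖DS δ x t - DS δ L t‖

lemma Gd_meas (δ L : ℝ) : Measurable (Function.uncurry (Gd δ L)) := by
  have h1 : Measurable (fun p : ℕ × ℝ => ‖PS δ p.1 p.2 - DS δ L p.2‖) := by
    apply measurable_from_prod_countable_right
    intro N
    exact ((PS_cont δ N).sub (DS_cont δ L)).norm.measurable
  have h2 : Measurable (fun p : ℝ × ℝ => (⌊Real.exp p.2⌋₊, p.1)) :=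
    (Nat.measurable_floor.comp (Real.measurable_exp.comp measurable_snd)).prodMk measurable_fst
  have h3 : Function.uncurry (Gd δ L)
      = (fun p : ℕ × ℝ => ‖PS δ p.1 p.2 - DS δ L p.2‖)
        ∘ fun p : ℝ × ℝ => (⌊Real.exp p.2⌋₊, p.1) := by
    funext p
    simp only [Function.comp_apply, Function.uncurry, Gd, DS_eq]
  rw [h3]
  exact h1.comp h2

end UpLem

end Pool.Agent.Lib.DL
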