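import Mathlib
import Pool.Agent.Lib.MP_f9aece_nt_dl.UpLem
import Pool.Agent.Lib.MP_f9aece_nt_n4.D1

/-!
The sharp order of a moment on the critical line gives the upper half of the near-line law.
-/

set_option autoImplicit false

namespace Pool.Agent.Lib.DL

open MeasureTheory Set Filter Topology Complex
open Pool.Agent.Lib.MP_f9aece_nt_h97 (evs)
open Pool.Agent.Lib.NL (pt SS ML ak zeta_bdd)
open Pool.Agent.Lib.N4 (al kernelFormula)
open Pool.Agent.Lib.N4.D6 (Er Er_nonneg Er_meas Er_le)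

namespace UpLem

lemma tend_a (a b c κ : ℝ) (ha : 0 < a) (hκ : 0 < κ) : ∃ Y : ℝ, 1 ≤ Y ∧ ∀ y : ℝ, Y ≤ y →
    c * (y ^ b * Real.exp (-a * y)) ≤ κ := by
  have h := (tendsto_rpow_mul_exp_neg_mul_atTop_nhds_zero b a ha).const_mul c
  rw [mul_zero] at h
  obtain ⟨Y, hY⟩ := Filter.eventually_atTop.1 (h.eventually (gt_mem_nhds hκ))
  exact ⟨max 1 Y, le_max_left _ _, fun y hy => (hY y ((le_max_right _ _).trans hy)).le⟩

/-- the main term is at least of the order `δ ^ (-k²)` -/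
lemma SS_low (k : ℝ) (hk : 1 ≤ k) : ∃ c δ0 : ℝ, 0 < c ∧ 0 < δ0 ∧ ∀ δ : ℝ, 0 < δ → δ ≤ δ0 →
    c * δ ^ (-(k ^ 2)) ≤ SS k (1 + 2 * δ) := by
  obtain ⟨N, hN⟩ := exists_nat_ge k
  have hN1 : 1 ≤ N := by
    have : (1 : ℝ) ≤ N := hk.trans hN
    exact_mod_cast this
  have hk0 : 0 ≤ k := by linarith
  obtain ⟨δ0, hδ0, h⟩ := Pool.Agent.Lib.NL.main_term N hN1 1 one_pos
  have hak := Pool.Agent.Lib.NL.ak_pos hN1 hk0 hN
  refine ⟨Real.exp (-1) * ak k * 2 ^ (-(k ^ 2)), δ0, by positivity, hδ0, fun δ hδ hδ1 => ?_⟩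
  have h1 := (h k hk0 hN δ hδ hδ1).1
  have e : (2 * δ) ^ (k ^ 2) = ((2 : ℝ) ^ (-(k ^ 2)) * δ ^ (-(k ^ 2)))⁻¹ := by
    rw [← Real.mul_rpow (by norm_num) hδ.le, Real.rpow_neg (by positivity), inv_inv]
  rw [e, inv_mul_eq_div, le_div_iff₀ (by positivity)] at h1
  linarith

end UpLem

open UpLem in
/-- P7 -/
theorem upAll (h0 : Ev) (h1 : Blk) (h2 : MainS) (h3 : KErr) : UpAll := by
  intro k hk hHB ε hε
  obtain ⟨q, hq⟩ : ∃ q : ℝ, q = 2 * k := ⟨_, rfl⟩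
  have hq1 : 1 ≤ q := by linarith
  have hq0 : 0 ≤ q := by linarith
  have hk0 : 0 < k := by linarith
  obtain ⟨C4, T4, hC4, hT4, hkerr⟩ := h3 k hk hHB
  obtain ⟨CB, hCB, hblk⟩ := h1 k hk
  obtain ⟨C1, hC1, hker⟩ := kernelFormula
  obtain ⟨c5, δ0, hc5, hδ0, hss⟩ := SS_low k hk
  obtain ⟨M1, hM1, hM1b⟩ := zeta_bdd 1
  obtain ⟨ε1, hε1⟩ : ∃ ε1 : ℝ, ε1 = min 1 (ε / 5) := ⟨_, rfl⟩
  have he0 : 0 < ε1 := by rw [hε1]; positivity
  have he1 : ε1 ≤ 1 := by rw [hε1]; exact min_le_left _ _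
  have he5 : ε1 ≤ ε / 5 := by rw [hε1]; exact min_le_right _ _
  obtain ⟨D, hD0, hD⟩ := rpow_two hq1 he0
  obtain ⟨E, hE⟩ : ∃ E : ℝ, E = (C1 + 1) ^ q := ⟨_, rfl⟩
  have hE0 : 0 < E := by rw [hE]; exact Real.rpow_pos_of_pos (by linarith) q
  obtain ⟨κ, hκ⟩ : ∃ κ : ℝ, κ = c5 * ε1 / (3 * (D * 3 ^ q * E)) := ⟨_, rfl⟩
  have hκ0 : 0 < κ := by rw [hκ]; positivity
  obtain ⟨Λ0, hΛ0, hmain⟩ := h2 k ε1 hk he0
  obtain ⟨Λ, hΛ⟩ : ∃ Λ : ℝ, Λ = max Λ0 (CB / κ) := ⟨_, rfl⟩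
  have hΛ1 : Λ0 ≤ Λ := by rw [hΛ]; exact le_max_left _ _
  have hΛ2 : CB / κ ≤ Λ := by rw [hΛ]; exact le_max_right _ _
  have hΛ3 : 1 ≤ Λ := hΛ0.trans hΛ1
  have hΛ4 : CB * Real.exp (-Λ) ≤ κ := by
    rw [Real.exp_neg, ← div_eq_mul_inv, div_le_iff₀ (Real.exp_pos _)]
    rw [div_le_iff₀ hκ0] at hΛ2
    have h6 := Real.add_one_le_exp Λ
    nlinarith
  obtain ⟨C5, hC5, hmn⟩ := hmain Λ hΛ1
  obtain ⟨C2, hC2⟩ : ∃ C2 : ℝ, C2 = max CB (2 * k) := ⟨_, rfl⟩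
  have hC2a : CB ≤ C2 := by rw [hC2]; exact le_max_left _ _
  have hC2b : 2 * k ≤ C2 := by rw [hC2]; exact le_max_right _ _
  have hC2c : 2 ≤ C2 := by linarith
  have hC20 : 0 < C2 := by linarith
  obtain ⟨Y1, hY1, hY1b⟩ := tend_a (k / C2) (k ^ 2) C4 κ (by positivity) hκ0
  obtain ⟨Y2, hY2, hY2b⟩ := tend_a (1 / 2) 1 1 κ (by norm_num) hκ0
  obtain ⟨K0, hK0⟩ : ∃ K0 : ℝ, K0 = C5 + 4 + 1 / δ0 + Y1 + Y2 + 2 * C2 * Λ + |Real.log T4|
    + M1 ^ q / (ε1 * c5) := ⟨_, rfl⟩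
  have p1 : 0 < 1 / δ0 := by positivity
  have p2 : 0 < 2 * C2 * Λ := by positivity
  have p3 : 0 ≤ |Real.log T4| := abs_nonneg _
  have hM1q : 0 < M1 ^ q := Real.rpow_pos_of_pos (by linarith) q
  have p4 : 0 < M1 ^ q / (ε1 * c5) := by positivity
  refine ⟨K0, by linarith, ?_⟩
  intro δ T hδ hδK hT1 hK
  have hK04 : 4 ≤ K0 := by linarith
  have hδb : ∀ X : ℝ, 0 < X → X ≤ K0 → δ ≤ 1 / X := fun X hX hXK =>
    hδK.trans (one_div_le_one_div_of_le hX hXK)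
  have hδ4 : δ ≤ 1 / 4 := hδb 4 (by norm_num) hK04
  have hδ0' : δ ≤ δ0 := by
    have := hδb (1 / δ0) p1 (by linarith)
    rwa [one_div_one_div] at this
  have hδ5 : δ ≤ 1 / C5 := hδb C5 (by linarith) (by linarith)
  obtain ⟨L, hL⟩ : ∃ L : ℝ, L = Real.log T := ⟨_, rfl⟩
  obtain ⟨y, hy⟩ : ∃ y : ℝ, y = δ * L := ⟨_, rfl⟩
  have hKy : K0 ≤ y := by rw [hy, hL]; exact hK
  have hT0 : 0 < T := by linarith
  have hTL : T = Real.exp L := by rw [hL, Real.exp_log hT0]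
  have hL0 : 0 ≤ L := by rw [hL]; exact Real.log_nonneg hT1
  have hLy : 4 * y ≤ L := by
    rw [hy]
    have := mul_le_mul_of_nonneg_right hδ4 hL0
    linarith
  have hy0 : 0 < y := by linarith
  have hLpos : 0 < L := by linarith
  have hTL1 : L ≤ T := by
    rw [hTL]
    have := Real.add_one_le_exp L
    linarith
  have hT4' : T4 ≤ T := by
    rw [hTL, ← Real.log_le_iff_le_exp (by linarith)]
    have := le_abs_self (Real.log T4)
    linarith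
  obtain ⟨x0, hx0⟩ : ∃ x0 : ℝ, x0 = L / (2 * C2) := ⟨_, rfl⟩
  have hδx0 : C2 * (2 * (δ * x0)) = y := by rw [hx0, hy]; field_simp
  have hx2 : x0 + x0 = L / C2 := by rw [hx0]; field_simp; ring
  have hδx1 : Λ ≤ δ * x0 := by
    have h6 : C2 * (2 * Λ) ≤ C2 * (2 * (δ * x0)) := by rw [hδx0]; linarith
    have h7 := le_of_mul_le_mul_left h6 hC20
    linarith
  have hx00 : 0 < x0 := by rw [hx0]; positivity
  have hx01 : 1 ≤ x0 := by
    have h6 : δ * x0 ≤ 1 * x0 := mul_le_mul_of_nonneg_right (by linarith) hx00.le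
    linarith
  have hΛx : Λ / δ ≤ x0 := by rw [div_le_iff₀ hδ]; linarith
  have hΛδ : 1 ≤ Λ / δ := by rw [le_div_iff₀ hδ]; linarith
  obtain ⟨R, hR⟩ : ∃ R : ℝ, R = T * δ ^ (-(k ^ 2)) := ⟨_, rfl⟩
  have hRk : 1 ≤ δ ^ (-(k ^ 2)) :=
    Real.one_le_rpow_of_pos_of_le_one_of_nonpos hδ (by linarith) (by
      have := sq_nonneg k
      linarith)
  have hR0 : 0 < R := by rw [hR]; positivity
  have hTR : T ≤ R := by rw [hR]; exact le_mul_of_one_le_right hT0.le hRk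
  have hSS : c5 * R ≤ T * SS k (1 + 2 * δ) := by
    have := hss δ hδ hδ0'
    rw [hR]
    calc c5 * (T * δ ^ (-(k ^ 2))) = T * (c5 * δ ^ (-(k ^ 2))) := by ring
      _ ≤ _ := mul_le_mul_of_nonneg_left this hT0.le
  obtain ⟨Z, hZ⟩ : ∃ Z : ℝ, Z = T * SS k (1 + 2 * δ) := ⟨_, rfl⟩
  rw [← hZ] at hSS ⊢
  have hZ0 : 0 < Z := lt_of_lt_of_le (by positivity) hSS
  -- the model
  obtain ⟨Mo, hMo⟩ : ∃ Mo : ℝ → ℂ, Mo = DS δ (Λ / δ) := ⟨_, rfl⟩
  have hMc : Continuous Mo := by rw [hMo]; exact DS_cont _ _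
  -- the average
  obtain ⟨Av, hAv⟩ : ∃ Av : ℝ → ℝ,
      Av = fun t => (1 / (x0 + x0 - x0)) * ∫ x in x0..(x0 + x0), Gd δ (Λ / δ) t x := ⟨_, rfl⟩
  have hGd0 : ∀ t x, 0 ≤ Gd δ (Λ / δ) t x := fun t x => norm_nonneg _
  have hAv0 : ∀ t, 0 ≤ Av t := by
    intro t
    rw [hAv]
    refine mul_nonneg ?_ (intervalIntegral.integral_nonneg (by linarith) fun x _ => hGd0 t x)
    rw [add_sub_cancel_left]
    positivity
  obtain ⟨c3, hc3⟩ : ∃ c3 : ℝ, c3 = C1 * Real.exp ((x0 + x0) / 2) := ⟨_, rfl⟩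
  have hc30 : 0 ≤ c3 := by rw [hc3]; positivity
  have hpt : ∀ t ∈ Ioc 1 T, ‖riemannZeta (pt δ t)‖ ^ q
      ≤ (1 + ε1) * ‖Mo t‖ ^ q + D * (3 ^ q * ((C1 * Av t) ^ q
        + (C1 * Real.exp (-(δ * x0)) * Er x0 t) ^ q + c3 ^ q * (1 / t))) := by
    intro t ht
    have ht1 : 1 ≤ t := ht.1.le
    have ht0 : 0 < t := by linarith
    have e1 := hker δ x0 x0 hδ hδ4 hx01 hx00 (by linarith) t ht1 (Mo t)
    have e2 : C1 / x0 * (∫ x in x0..(x0 + x0),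
        ‖evs (pt δ t) (al (Real.exp x)) - Mo t‖) = C1 * Av t := by
      rw [hAv, add_sub_cancel_left]
      simp only [Gd, h0 δ _ t, hMo]
      ring
    rw [e2] at e1
    have e4 : ‖riemannZeta (pt δ t)‖ ≤ ‖Mo t‖
        + (C1 * Av t + C1 * Real.exp (-(δ * x0)) * Er x0 t + c3 / t) := by
      have h8 : ‖riemannZeta (pt δ t)‖ ≤ ‖riemannZeta (pt δ t) - Mo t‖ + ‖Mo t‖ := by
        have := norm_add_le (riemannZeta (pt δ t) - Mo t) (Mo t)
        rwa [sub_add_cancel] at this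
      have h9 : (∫ v : ℝ, x0 / (1 + x0 * |v|) ^ 6
        * ‖riemannZeta (1 / 2 + I * (t + v : ℝ))‖) = Er x0 t := rfl
      rw [h9, ← hc3] at e1
      linarith
    have hEr : 0 ≤ Er x0 t := Er_nonneg hx00.le t
    have ha := mul_nonneg hC1 (hAv0 t)
    have hb : 0 ≤ C1 * Real.exp (-(δ * x0)) * Er x0 t := by positivity
    have hc : 0 ≤ c3 / t := by positivity
    refine (Real.rpow_le_rpow (norm_nonneg _) e4 hq0).trans ?_
    refine (hD _ _ (norm_nonneg _) (by positivity)).trans ?_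
    have h10 := three_rpow ha hb hc hq0
    have h11 : (c3 / t) ^ q ≤ c3 ^ q * (1 / t) := by
      rw [Real.div_rpow hc30 ht0.le, div_eq_mul_one_div]
      refine mul_le_mul_of_nonneg_left ?_ (Real.rpow_nonneg hc30 q)
      refine one_div_le_one_div_of_le ht0 ?_
      calc t = t ^ (1 : ℝ) := (Real.rpow_one t).symm
        _ ≤ t ^ q := Real.rpow_le_rpow_of_exponent_le ht1 hq1
    gcongr
    refine h10.trans ?_
    gcongr
  -- integrability
  have hSf : volume (Ioc 1 T) ≠ ⊤ := by rw [Real.volume_Ioc]; exact ENNReal.ofReal_ne_top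
  have hsub : Ioc (1 : ℝ) T ⊆ Ioc 0 T := Ioc_subset_Ioc_left zero_le_one
  have hii : ∀ f : ℝ → ℝ, Continuous f → (∀ t, 0 ≤ f t) →
      IntegrableOn f (Ioc 1 T) ∧ ∫ t in Ioc 1 T, f t ≤ ∫ t in (0 : ℝ)..T, f t := by
    intro f hf hf0
    have i0 : IntegrableOn f (Ioc 0 T) := (hf.integrableOn_Icc).mono_set Ioc_subset_Icc_self
    refine ⟨i0.mono_set hsub, ?_⟩
    rw [intervalIntegral.integral_of_le hT0.le]
    exact setIntegral_mono_set i0 (ae_of_all _ hf0) (ae_of_all _ hsub)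
  obtain ⟨hi1, hI1⟩ := hii (fun t => ‖Mo t‖ ^ q) (hMc.norm.rpow_const fun _ => Or.inr hq0)
    (fun t => Real.rpow_nonneg (norm_nonneg _) q)
  have hI1' : ∫ t in Ioc 1 T, ‖Mo t‖ ^ q ≤ (1 + ε1) * Z := by
    refine hI1.trans ?_
    have e1 := hmn δ T 0 hδ hδ5 hT1 (by rw [← hL, ← hy]; linarith)
    unfold mean at e1
    rw [zero_add, ← hq, inv_mul_eq_div, div_le_iff₀ hT0, ← hMo] at e1
    rw [hZ]
    linarith
  have hsharp : ∀ x ∈ Ioc x0 (x0 + x0), ∫ t in Ioc 1 T, Gd δ (Λ / δ) t x ^ q ≤ κ * R := by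
    intro x hx
    have hxL : C2 * x ≤ L := by
      have h6 := hx.2
      rw [hx2] at h6
      rw [le_div_iff₀ hC20] at h6
      linarith
    have hx1 : Λ / δ ≤ x := hΛx.trans hx.1.le
    have hxp : 0 ≤ x := by linarith
    have e1 := hblk δ (Λ / δ) x T 0 hδ hΛδ hx1 hT1 (by
      rw [← hL]
      have := mul_le_mul_of_nonneg_right hC2a hxp
      linarith)
    have e3 : δ * (Λ / δ) = Λ := by field_simp
    unfold mean at e1
    rw [zero_add, ← hq, inv_mul_eq_div, div_le_iff₀ hT0, e3] at e1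
    have hc : Continuous fun t => Gd δ (Λ / δ) t x ^ q := by
      unfold Gd
      exact ((DS_cont δ x).sub (DS_cont δ (Λ / δ))).norm.rpow_const fun _ => Or.inr hq0
    have e4 := (hii _ hc fun t => Real.rpow_nonneg (norm_nonneg _) q).2
    refine e4.trans (e1.trans ?_)
    rw [hR]
    calc CB * (Real.exp (-Λ) * δ ^ (-(k ^ 2))) * T
        = (CB * Real.exp (-Λ)) * (T * δ ^ (-(k ^ 2))) := by ring
      _ ≤ κ * (T * δ ^ (-(k ^ 2))) := by gcongr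
  have hGb : ∀ t ∈ Ioc 1 T, ∀ x ∈ Ioc x0 (x0 + x0),
      Gd δ (Λ / δ) t x ≤ Real.exp (x0 + x0) + Real.exp (Λ / δ) := by
    intro t _ x hx
    unfold Gd
    refine (norm_sub_le _ _).trans (add_le_add ?_ (DS_le hδ.le _ _))
    exact (DS_le hδ.le x t).trans (Real.exp_le_exp.2 hx.2)
  obtain ⟨hi2, hI2⟩ := avg_le measurableSet_Ioc hSf (a := x0) (b := x0 + x0) (by linarith) hq1
    hGd0 (Gd_meas δ (Λ / δ)) hGb hsharp
  have hAvf : ∀ t, (1 / (x0 + x0 - x0)) * ∫ x in x0..(x0 + x0), Gd δ (Λ / δ) t x = Av t := by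
    intro t
    rw [hAv]
  simp only [hAvf] at hi2 hI2
  have hErm := Er_meas hx00.le
  have hEr0 : ∀ t, 0 ≤ Er x0 t := Er_nonneg hx00.le
  have hsub2 : Ioc (1 : ℝ) T ⊆ Ioc 0 (2 * T) := Ioc_subset_Ioc zero_le_one (by linarith)
  have hEi : IntegrableOn (fun t => Er x0 t ^ q) (Ioc 0 (2 * T)) := by
    obtain ⟨BE, hBE⟩ : ∃ BE : ℝ, ∀ t ∈ Ioc 0 (2 * T), Er x0 t ≤ BE := by
      refine ⟨20 * (1 + 2 * T) * x0 * ∫ v : ℝ, (1 + ‖v‖) ^ (-(5 : ℝ)), fun t ht => ?_⟩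
      refine Er_le hx01 ?_
      rw [abs_of_pos ht.1]
      exact ht.2
    refine Measure.integrableOn_of_bounded (M := BE ^ q)
      (by rw [Real.volume_Ioc]; exact ENNReal.ofReal_ne_top)
      (hErm.pow_const q).aestronglyMeasurable ?_
    filter_upwards [ae_restrict_mem measurableSet_Ioc] with t ht
    rw [Real.norm_eq_abs, abs_of_nonneg (Real.rpow_nonneg (hEr0 t) q)]
    exact Real.rpow_le_rpow (hEr0 t) (hBE t ht) hq0
  have hi3 : IntegrableOn (fun t => Er x0 t ^ q) (Ioc 1 T) := hEi.mono_set hsub2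
  have hI3 : ∫ t in Ioc 1 T, Er x0 t ^ q ≤ C4 * T * L ^ (k ^ 2) := by
    have e2 := hkerr T x0 hT4' hx01
    rw [intervalIntegral.integral_of_le (by linarith), ← hq, ← hL] at e2
    refine le_trans ?_ e2
    exact setIntegral_mono_set hEi (ae_of_all _ fun t => Real.rpow_nonneg (hEr0 t) q)
      (ae_of_all _ hsub2)
  have hi4 : IntegrableOn (fun t : ℝ => 1 / t) (Ioc 1 T) := by
    refine (ContinuousOn.integrableOn_Icc ?_).mono_set Ioc_subset_Icc_self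
    exact continuousOn_const.div continuousOn_id fun t ht => by
      have := ht.1
      exact (by linarith : (0 : ℝ) < t).ne'
  have hI4 : ∫ t in Ioc 1 T, 1 / t = L := by
    rw [← intervalIntegral.integral_of_le hT1, integral_one_div_of_pos one_pos hT0, div_one, hL]
  -- the second error
  have hI3' : (Real.exp (-(δ * x0))) ^ q * ∫ t in Ioc 1 T, Er x0 t ^ q ≤ κ * R := by
    have e1 : (Real.exp (-(δ * x0))) ^ q = Real.exp (-(k / C2) * y) := by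
      rw [← Real.exp_mul, ← hδx0, hq]
      congr 1
      field_simp
    have e2 : L ^ (k ^ 2) = y ^ (k ^ 2) * δ ^ (-(k ^ 2)) := by
      rw [Real.rpow_neg hδ.le, ← Real.inv_rpow hδ.le, ← Real.mul_rpow hy0.le (by positivity)]
      congr 1
      rw [hy]
      field_simp
    have e3 := hY1b y (by linarith)
    rw [e1]
    calc Real.exp (-(k / C2) * y) * ∫ t in Ioc 1 T, Er x0 t ^ q
        ≤ Real.exp (-(k / C2) * y) * (C4 * T * L ^ (k ^ 2)) :=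
          mul_le_mul_of_nonneg_left hI3 (Real.exp_pos _).le
      _ = C4 * (y ^ (k ^ 2) * Real.exp (-(k / C2) * y)) * R := by
          rw [e2, hR]
          ring
      _ ≤ κ * R := mul_le_mul_of_nonneg_right e3 hR0.le
  -- the third error
  have hC1q : C1 ^ q ≤ E := by
    rw [hE]
    exact Real.rpow_le_rpow hC1 (by linarith) hq0
  have hC1q0 : 0 ≤ C1 ^ q := Real.rpow_nonneg hC1 q
  have hI4' : c3 ^ q * L ≤ E * (κ * R) := by
    have e1 : c3 ^ q = C1 ^ q * Real.exp (k / C2 * L) := by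
      rw [hc3, Real.mul_rpow hC1 (Real.exp_pos _).le, ← Real.exp_mul, hx2, hq]
      congr 2
      field_simp
    have e2 : Real.exp (k / C2 * L) ≤ Real.exp (1 / 2 * L) := by
      refine Real.exp_le_exp.2 (mul_le_mul_of_nonneg_right ?_ hL0)
      rw [div_le_div_iff₀ hC20 two_pos]
      linarith
    have e3 := hY2b L (by linarith)
    rw [Real.rpow_one, one_mul] at e3
    have e4 : Real.exp (1 / 2 * L) * L = (L * Real.exp (-(1 / 2) * L)) * T := by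
      rw [hTL]
      have : Real.exp (1 / 2 * L) = Real.exp (-(1 / 2) * L) * Real.exp L := by
        rw [← Real.exp_add]
        congr 1
        ring
      rw [this]
      ring
    calc c3 ^ q * L = C1 ^ q * (Real.exp (k / C2 * L) * L) := by rw [e1]; ring
      _ ≤ E * (Real.exp (1 / 2 * L) * L) := by gcongr
      _ = E * ((L * Real.exp (-(1 / 2) * L)) * T) := by rw [e4]
      _ ≤ E * (κ * R) := by gcongr
  -- sum
  obtain ⟨g, hg⟩ : ∃ g : ℝ → ℝ, g = fun t => (1 + ε1) * ‖Mo t‖ ^ q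
      + D * 3 ^ q * (C1 ^ q * Av t ^ q
        + C1 ^ q * (Real.exp (-(δ * x0))) ^ q * Er x0 t ^ q
        + c3 ^ q * (1 / t)) := ⟨_, rfl⟩
  have j1 : IntegrableOn (fun t : ℝ => C1 ^ q * Av t ^ q) (Ioc 1 T) := hi2.const_mul _
  have j2 : IntegrableOn (fun t : ℝ =>
    C1 ^ q * (Real.exp (-(δ * x0))) ^ q * Er x0 t ^ q) (Ioc 1 T) := hi3.const_mul _
  have j3 : IntegrableOn (fun t : ℝ => c3 ^ q * (1 / t)) (Ioc 1 T) := hi4.const_mul _
  have j4 : IntegrableOn (fun t : ℝ => (1 + ε1) * ‖Mo t‖ ^ q) (Ioc 1 T) := hi1.const_mul _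
  have j5 : IntegrableOn (fun t : ℝ => D * 3 ^ q * (C1 ^ q * Av t ^ q
        + C1 ^ q * (Real.exp (-(δ * x0))) ^ q * Er x0 t ^ q
        + c3 ^ q * (1 / t))) (Ioc 1 T) := ((j1.add j2).add j3).const_mul _
  have hgi : IntegrableOn g (Ioc 1 T) := by
    rw [hg]
    exact j4.add j5
  have hzc : Continuous fun t : ℝ => ‖riemannZeta (pt δ t)‖ ^ q :=
    (Pool.Agent.Lib.NL.continuous_zeta_pt (by linarith)).norm.rpow_const fun _ => Or.inr hq0
  have hle : ∫ t in Ioc 1 T, ‖riemannZeta (pt δ t)‖ ^ q ≤ ∫ t in Ioc 1 T, g t := by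
    refine setIntegral_mono_on ?_ hgi measurableSet_Ioc fun t ht => ?_
    · exact (hzc.integrableOn_Icc).mono_set Ioc_subset_Icc_self
    · refine (hpt t ht).trans (le_of_eq ?_)
      rw [hg, Real.mul_rpow hC1 (hAv0 t), Real.mul_rpow (by positivity) (hEr0 t),
        Real.mul_rpow hC1 (Real.exp_pos _).le]
      ring
  have hgI : ∫ t in Ioc 1 T, g t = (1 + ε1) * (∫ t in Ioc 1 T, ‖Mo t‖ ^ q)
      + D * 3 ^ q * (C1 ^ q * (∫ t in Ioc 1 T, Av t ^ q)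
        + C1 ^ q * (Real.exp (-(δ * x0))) ^ q * (∫ t in Ioc 1 T, Er x0 t ^ q)
        + c3 ^ q * L) := by
    rw [hg]
    have e0 : ∫ t in Ioc 1 T, ((1 + ε1) * ‖Mo t‖ ^ q
      + D * 3 ^ q * (C1 ^ q * Av t ^ q
        + C1 ^ q * (Real.exp (-(δ * x0))) ^ q * Er x0 t ^ q
        + c3 ^ q * (1 / t))) = (∫ t in Ioc 1 T, (1 + ε1) * ‖Mo t‖ ^ q)
        + ∫ t in Ioc 1 T, D * 3 ^ q * (C1 ^ q * Av t ^ q
        + C1 ^ q * (Real.exp (-(δ * x0))) ^ q * Er x0 t ^ q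
        + c3 ^ q * (1 / t)) := integral_add j4 j5
    rw [e0, integral_const_mul, integral_const_mul]
    congr 2
    have e1 : ∫ t in Ioc 1 T, (C1 ^ q * Av t ^ q
        + C1 ^ q * (Real.exp (-(δ * x0))) ^ q * Er x0 t ^ q
        + c3 ^ q * (1 / t)) = (∫ t in Ioc 1 T, (C1 ^ q * Av t ^ q
        + C1 ^ q * (Real.exp (-(δ * x0))) ^ q * Er x0 t ^ q))
        + ∫ t in Ioc 1 T, c3 ^ q * (1 / t) := integral_add (j1.add j2) j3
    rw [e1, integral_add j1 j2, integral_const_mul, integral_const_mul, integral_const_mul, hI4]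
  have hsum : C1 ^ q * (∫ t in Ioc 1 T, Av t ^ q)
        + C1 ^ q * (Real.exp (-(δ * x0))) ^ q * (∫ t in Ioc 1 T, Er x0 t ^ q)
        + c3 ^ q * L ≤ E * (3 * (κ * R)) := by
    have f1 : C1 ^ q * (∫ t in Ioc 1 T, Av t ^ q) ≤ E * (κ * R) := by
      calc C1 ^ q * (∫ t in Ioc 1 T, Av t ^ q) ≤ C1 ^ q * (κ * R) :=
            mul_le_mul_of_nonneg_left hI2 hC1q0
        _ ≤ _ := mul_le_mul_of_nonneg_right hC1q (by positivity)
    have f2 : C1 ^ q * (Real.exp (-(δ * x0))) ^ q * (∫ t in Ioc 1 T, Er x0 t ^ q)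
        ≤ E * (κ * R) := by
      calc C1 ^ q * (Real.exp (-(δ * x0))) ^ q * (∫ t in Ioc 1 T, Er x0 t ^ q)
          = C1 ^ q * ((Real.exp (-(δ * x0))) ^ q * (∫ t in Ioc 1 T, Er x0 t ^ q)) := by
            ring
        _ ≤ C1 ^ q * (κ * R) := mul_le_mul_of_nonneg_left hI3' hC1q0
        _ ≤ _ := mul_le_mul_of_nonneg_right hC1q (by positivity)
    linarith
  have herr : D * 3 ^ q * (E * (3 * (κ * R))) ≤ ε1 * Z := by
    have e1 : D * 3 ^ q * (E * (3 * (κ * R))) = (3 * (D * 3 ^ q * E) * κ) * R := by ring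
    have e2 : 3 * (D * 3 ^ q * E) * κ = c5 * ε1 := by
      rw [hκ]
      field_simp
    rw [e1, e2]
    calc c5 * ε1 * R = ε1 * (c5 * R) := by ring
      _ ≤ _ := mul_le_mul_of_nonneg_left hSS he0.le
  have hmid : ∫ t in Ioc 1 T, ‖riemannZeta (pt δ t)‖ ^ q
      ≤ (1 + ε1) * ((1 + ε1) * Z) + ε1 * Z := by
    calc ∫ t in Ioc 1 T, ‖riemannZeta (pt δ t)‖ ^ q ≤ ∫ t in Ioc 1 T, g t := hle
      _ ≤ (1 + ε1) * ((1 + ε1) * Z) + D * 3 ^ q * (E * (3 * (κ * R))) := by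
          rw [hgI]
          gcongr
      _ ≤ _ := by linarith
  -- the beginning
  have hbeg : ∫ t in (0 : ℝ)..1, ‖riemannZeta (pt δ t)‖ ^ q ≤ ε1 * Z := by
    have e1 : ∫ t in (0 : ℝ)..1, ‖riemannZeta (pt δ t)‖ ^ q ≤ ∫ t in (0 : ℝ)..1, M1 ^ q := by
      refine intervalIntegral.integral_mono_on zero_le_one (hzc.intervalIntegrable _ _)
        intervalIntegrable_const fun t ht => ?_
      refine Real.rpow_le_rpow (norm_nonneg _) (hM1b δ t hδ.le hδ4 ?_) hq0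
      rw [abs_of_nonneg ht.1, abs_one]
      exact ht.2
    rw [intervalIntegral.integral_const, sub_zero, one_smul] at e1
    refine e1.trans ?_
    have e2 : M1 ^ q / (ε1 * c5) ≤ T := by linarith
    rw [div_le_iff₀ (by positivity)] at e2
    calc M1 ^ q ≤ T * (ε1 * c5) := e2
      _ = ε1 * (c5 * T) := by ring
      _ ≤ ε1 * (c5 * R) := by gcongr
      _ ≤ _ := mul_le_mul_of_nonneg_left hSS he0.le
  have htot : ML k δ T = (∫ t in (0 : ℝ)..1, ‖riemannZeta (pt δ t)‖ ^ q)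
      + ∫ t in Ioc 1 T, ‖riemannZeta (pt δ t)‖ ^ q := by
    unfold Pool.Agent.Lib.NL.ML
    rw [← hq, ← intervalIntegral.integral_of_le hT1]
    exact (intervalIntegral.integral_add_adjacent_intervals (hzc.intervalIntegrable _ _)
      (hzc.intervalIntegrable _ _)).symm
  rw [htot]
  have hfin : (1 + ε1) * ((1 + ε1) * Z) + ε1 * Z + ε1 * Z ≤ (1 + ε) * Z := by
    have e1 : (1 + ε1) * ((1 + ε1) * Z) + ε1 * Z + ε1 * Z = (1 + 4 * ε1 + ε1 * ε1) * Z := by ring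
    rw [e1]
    refine mul_le_mul_of_nonneg_right ?_ hZ0.le
    nlinarith
  linarith

end Pool.Agent.Lib.DL
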